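import Pool.Agent.TH165.ACC.Main

/-!
# Weights computing minimal log discrepancies can be taken bounded

For log canonical monomial pairs with coefficients in a DCC set, every positive weight vector `w`
can be replaced by a vector `w - s`, `s` a vector of natural numbers, of bounded size and with a log
discrepancy which is not larger.
-/

set_option autoImplicit false

namespace Pool.Agent.TH165.ACC

open Filter Topology Set

variable {n : ℕ}

/-- log canonical at all positive weights -/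
def IsLc {r : ℕ} (S : Fin r → Set (Fin n → ℕ)) (c : Fin r → ℝ) : Prop :=
  ∀ w : Fin n → ℝ, (∀ i, 0 < w i) → 0 ≤ logDisc S c w

/-- the value of the exponent `p` at `x` -/
noncomputable def dt (p : Fin n → ℕ) (x : Fin n → ℝ) : ℝ := ∑ i, (p i : ℝ) * x i

theorem exists_ord {S : Set (Fin n → ℕ)} (hS : S.Nonempty) {w : Fin n → ℝ} (hw : ∀ i, 0 < w i) :
    ∃ m ∈ S, ordAlong S w = dt m w := by
  obtain ⟨m0, hm0⟩ := hS
  have hfin : (S ∩ {m | ∑ i, (m i : ℝ) * w i < dt m0 w + 1}).Finite :=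
    (finite_small w hw (dt m0 w + 1)).subset inter_subset_right
  have h0 : m0 ∈ S ∩ {m | ∑ i, (m i : ℝ) * w i < dt m0 w + 1} := ⟨hm0, by
    change dt m0 w < dt m0 w + 1
    linarith⟩
  obtain ⟨m, ⟨hm, -⟩, hmin⟩ := Set.exists_min_image _ (fun m => dt m w) hfin ⟨m0, h0⟩
  refine ⟨m, hm, le_antisymm (csInf_le (bdd fun i => (hw i).le) ⟨m, hm, rfl⟩)
    (le_ord ⟨m, hm⟩ fun m' hm' => ?_)⟩
  by_cases h : ∑ i, (m' i : ℝ) * w i < dt m0 w + 1
  · exact hmin m' ⟨hm', h⟩
  · have h1 := hmin m0 h0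
    push Not at h
    linarith

/-- simultaneous approximation -/
theorem dirichlet (θ : Fin n → ℝ) {ε : ℝ} (hε : 0 < ε) :
    ∃ (N : ℕ) (s : Fin n → ℤ), 1 ≤ N ∧ ∀ i, |(N : ℝ) * θ i - s i| < ε := by
  obtain ⟨a, -, φ, hφ, hlim⟩ := (isCompact_univ (X := Fin n → UnitAddCircle)).tendsto_subseq
    (x := fun k : ℕ => fun i => (((k : ℝ) * θ i : ℝ) : UnitAddCircle)) (fun k => mem_univ _)
  rw [Metric.tendsto_atTop] at hlim
  obtain ⟨K, hK⟩ := hlim (ε / 2) (half_pos hε)
  have h1 := hK K le_rfl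
  have h2 := hK (K + 1) (Nat.le_succ K)
  have h3 : φ K < φ (K + 1) := hφ (Nat.lt_succ_self K)
  have h4 := (dist_triangle_right _ _ _).trans_lt (add_lt_add h2 h1)
  rw [add_halves, dist_pi_lt_iff hε] at h4
  refine ⟨φ (K + 1) - φ K, fun i => round (((φ (K + 1) - φ K : ℕ) : ℝ) * θ i), by omega,
    fun i => ?_⟩
  have h5 := h4 i
  simp only [Function.comp_apply] at h5
  rw [dist_eq_norm, ← AddCircle.coe_sub, ← sub_mul, UnitAddCircle.norm_eq] at h5
  rw [Nat.cast_sub h3.le]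
  exact h5

theorem fin_min {ι : Type*} [Finite ι] (f : ι → ℝ) (hf : ∀ i, 0 < f i) :
    ∃ κ : ℝ, 0 < κ ∧ ∀ i, κ ≤ f i := by
  by_cases h : Nonempty ι
  · obtain ⟨i0, hi0⟩ := Finite.exists_min f
    exact ⟨f i0, hf i0, hi0⟩
  · exact ⟨1, one_pos, fun i => absurd ⟨i⟩ h⟩

theorem ult_const {ι : Type*} [Finite ι] (U : Ultrafilter ℕ) (f : ℕ → ι) :
    ∃ p, ∀ᶠ l in (U : Filter ℕ), f l = p := by
  obtain ⟨p, hp⟩ := (U.map f).eq_pure_of_finite
  refine ⟨p, ?_⟩
  have h1 : {p} ∈ U.map f := by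
    rw [hp]
    exact mem_singleton p
  exact h1


theorem core {r : ℕ} (S : ℕ → Fin r → Set (Fin n → ℕ)) (c : ℕ → Fin r → ℝ) (w : ℕ → Fin n → ℝ)
    {δ B : ℝ} (hδ : 0 < δ) (hS : ∀ l j, (S l j).Nonempty) (hcδ : ∀ l j, δ ≤ c l j)
    (hcm : Monotone c) (hB : ∀ l j, c l j ≤ B) (hlc : ∀ l, IsLc (S l) (c l))
    (hw : ∀ l i, 0 < w l i) (hN : ∀ l : ℕ, (l : ℝ) < ∑ i, w l i)
    (hno : ∀ l, ∀ s : Fin n → ℕ, s ≠ 0 → (∀ i, (s i : ℝ) < w l i) →
      logDisc (S l) (c l) (w l) < logDisc (S l) (c l) (fun i => w l i - s i)) : False := by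
  classical
  set U : Ultrafilter ℕ := hyperfilter ℕ with hU
  have hUle : (U : Filter ℕ) ≤ atTop := Nat.hyperfilter_le_atTop
  set N : ℕ → ℝ := fun l => ∑ i, w l i with hNdef
  have hNpos : ∀ l, 0 < N l := fun l => lt_of_le_of_lt (Nat.cast_nonneg l) (hN l)
  have hNtop : Tendsto N U atTop :=
    (tendsto_atTop_mono (fun l => (hN l).le) tendsto_natCast_atTop_atTop).mono_left hUle
  have hc0 : ∀ l j, 0 < c l j := fun l j => hδ.trans_le (hcδ l j)
  -- the limit direction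
  obtain ⟨θ, hθmem, hθ⟩ : ∃ θ ∈ Icc (0 : Fin n → ℝ) 1,
      Tendsto (fun l => (fun i => w l i / N l : Fin n → ℝ)) U (𝓝 θ) := by
    have h1 : ((U.map fun l => (fun i => w l i / N l : Fin n → ℝ)) : Filter (Fin n → ℝ)) ≤
        𝓟 (Icc (0 : Fin n → ℝ) 1) := by
      rw [le_principal_iff]
      change ∀ᶠ l in (U : Filter ℕ), (fun i => w l i / N l : Fin n → ℝ) ∈ Icc (0 : Fin n → ℝ) 1
      refine Eventually.of_forall fun l => ⟨fun i => ?_, fun i => ?_⟩
      · exact div_nonneg (hw l i).le (hNpos l).le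
      · change w l i / N l ≤ 1
        rw [div_le_one (hNpos l)]
        exact Finset.single_le_sum (f := w l) (fun i _ => (hw l i).le) (Finset.mem_univ i)
    obtain ⟨θ, h2, h3⟩ := (isCompact_Icc (a := (0 : Fin n → ℝ)) (b := 1)).ultrafilter_le_nhds _ h1
    exact ⟨θ, h2, h3⟩
  have hθi : ∀ i, Tendsto (fun l => w l i / N l) U (𝓝 (θ i)) := fun i =>
    (tendsto_pi_nhds.1 hθ) i
  have hθ0 : ∀ i, 0 ≤ θ i := fun i => hθmem.1 i
  have hθsum : ∑ i, θ i = 1 := by
    have h1 : Tendsto (fun l => ∑ i, w l i / N l) U (𝓝 (∑ i, θ i)) :=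
      tendsto_finsetSum _ fun i _ => hθi i
    have h2 : (fun l => ∑ i, w l i / N l) = fun _ => (1 : ℝ) := by
      funext l
      rw [← Finset.sum_div]
      exact div_self (hNpos l).ne'
    rw [h2] at h1
    exact tendsto_nhds_unique h1 tendsto_const_nhds
  obtain ⟨κ, hκ0, hκ'⟩ := fin_min (fun i => if θ i = 0 then 1 else θ i) (fun i => by
    split_ifs with h
    · exact one_pos
    · exact lt_of_le_of_ne (hθ0 i) (Ne.symm h))
  have hκ : ∀ i, θ i ≠ 0 → κ ≤ θ i := fun i hi => by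
    have := hκ' i
    rwa [if_neg hi] at this
  -- the limit coefficients
  set C : Fin r → ℝ := fun j => ⨆ l, c l j with hCdef
  have hbdd : ∀ j, BddAbove (range fun l => c l j) := fun j => ⟨B, by
    rintro _ ⟨l, rfl⟩
    exact hB l j⟩
  have hC : ∀ l j, c l j ≤ C j := fun l j => le_ciSup (hbdd j) l
  have hClim : ∀ j, Tendsto (fun l => c l j) U (𝓝 (C j)) := fun j =>
    (tendsto_atTop_ciSup (fun a b h => hcm h j) (hbdd j)).mono_left hUle
  have hC0 : ∀ j, 0 < C j := fun j => (hc0 0 j).trans_le (hC 0 j)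
  -- the bound for the exponents
  set M : ℕ := ⌈6 / (δ * κ)⌉₊ with hMdef
  have hM : 6 / (δ * κ) ≤ M := Nat.le_ceil _
  let qv : (Fin r → Fin n → Fin (M + 1)) → (Fin n → ℝ) → ℝ := fun P x =>
    ∑ j, C j * ∑ i, ((P j i : ℕ) : ℝ) * x i
  obtain ⟨g, hg0, hg⟩ := fin_min (fun P : Fin r → Fin n → Fin (M + 1) =>
    if qv P θ < 1 then 1 - qv P θ else 1) (fun P => by
      split_ifs with h
      · linarith
      · exact one_pos)
  obtain ⟨A, hA⟩ : ∃ A : ℝ, ∀ P : Fin r → Fin n → Fin (M + 1),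
      ∑ i, |(∑ j, C j * ((P j i : ℕ) : ℝ)) - 1| ≤ A := by
    obtain ⟨A, hA⟩ := (Set.finite_range fun P : Fin r → Fin n → Fin (M + 1) =>
      ∑ i, |(∑ j, C j * ((P j i : ℕ) : ℝ)) - 1|).bddAbove
    exact ⟨A, fun P => hA ⟨P, rfl⟩⟩
  have hA0 : 0 ≤ A := (Finset.sum_nonneg fun i _ => abs_nonneg _).trans (hA fun _ _ => 0)
  obtain ⟨ε0, hε00, hε01, hε02, hε03, hε04⟩ : ∃ ε0 : ℝ, 0 < ε0 ∧ ε0 < κ ∧ ε0 < 1 ∧
      (n : ℝ) * M * ε0 < 1 ∧ A * ε0 ≤ g := by
    refine ⟨min (min (κ / 2) (1 / 2)) (min (1 / ((n : ℝ) * M + 1)) (g / (A + 1))), ?_, ?_, ?_, ?_, ?_⟩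
    · positivity
    · exact ((min_le_left _ _).trans (min_le_left _ _)).trans_lt (by linarith)
    · exact ((min_le_left _ _).trans (min_le_right _ _)).trans_lt (by norm_num)
    · have h1 : min (min (κ / 2) (1 / 2)) (min (1 / ((n : ℝ) * M + 1)) (g / (A + 1))) ≤
          1 / ((n : ℝ) * M + 1) := (min_le_right _ _).trans (min_le_left _ _)
      calc (n : ℝ) * M * _ ≤ (n : ℝ) * M * (1 / ((n : ℝ) * M + 1)) :=
            mul_le_mul_of_nonneg_left h1 (by positivity)
        _ < 1 := by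
            rw [mul_one_div, div_lt_one (by positivity)]
            linarith
    · have h1 : min (min (κ / 2) (1 / 2)) (min (1 / ((n : ℝ) * M + 1)) (g / (A + 1))) ≤
          g / (A + 1) := (min_le_right _ _).trans (min_le_right _ _)
      calc A * _ ≤ A * (g / (A + 1)) := mul_le_mul_of_nonneg_left h1 hA0
        _ ≤ g := by
            rw [mul_div_assoc', div_le_iff₀ (by linarith)]
            nlinarith
  obtain ⟨N0, s, hN0, hs⟩ := dirichlet θ hε00
  have hN0' : (1 : ℝ) ≤ N0 := by exact_mod_cast hN0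
  have hs0 : ∀ i, 0 ≤ s i := by
    intro i
    by_contra hcon
    push Not at hcon
    have h1 : (s i : ℝ) ≤ -1 := by exact_mod_cast Int.le_sub_one_of_lt hcon
    have h2 := (abs_lt.1 (hs i)).2
    have h3 : 0 ≤ (N0 : ℝ) * θ i := mul_nonneg (by linarith) (hθ0 i)
    linarith
  obtain ⟨t, ht⟩ : ∃ t : Fin n → ℕ, ∀ i, (t i : ℤ) = s i :=
    ⟨fun i => (s i).toNat, fun i => Int.toNat_of_nonneg (hs0 i)⟩
  have ht' : ∀ i, |(N0 : ℝ) * θ i - t i| < ε0 := fun i => by
    have h1 : ((t i : ℤ) : ℝ) = s i := by rw [ht]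
    have h2 : (t i : ℝ) = s i := by exact_mod_cast h1
    rw [h2]
    exact hs i
  have htz : ∀ i, θ i = 0 → t i = 0 := by
    intro i hi
    have h1 := ht' i
    rw [hi, mul_zero, zero_sub, abs_neg, abs_lt] at h1
    have h2 : (t i : ℝ) < 1 := by linarith
    have h3 : t i < 1 := by exact_mod_cast h2
    omega
  have htp : ∀ i, θ i ≠ 0 → 0 < t i := by
    intro i hi
    have h1 := (abs_lt.1 (ht' i)).2
    have h2 := hκ i hi
    have h3 : θ i ≤ N0 * θ i := by nlinarith [hθ0 i]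
    have h4 : (0 : ℝ) < t i := by linarith
    exact_mod_cast h4
  have ht0 : t ≠ 0 := by
    intro h
    have h1 : ∀ i, θ i = 0 := by
      intro i
      by_contra hi
      have := htp i hi
      rw [h] at this
      simp at this
    simp [h1] at hθsum
  -- orthogonality
  have horth : ∀ p p' : Fin n → Fin (M + 1),
      ∑ i, (((p i : ℕ) : ℝ) - ((p' i : ℕ) : ℝ)) * θ i = 0 →
      ∑ i, (((p i : ℕ) : ℝ) - ((p' i : ℕ) : ℝ)) * (t i : ℝ) = 0 := by
    intro p p' h
    have h1 : ∑ i, (((p i : ℕ) : ℝ) - ((p' i : ℕ) : ℝ)) * (t i : ℝ) =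
        ((∑ i, (((p i : ℕ) : ℤ) - ((p' i : ℕ) : ℤ)) * (t i : ℤ) : ℤ) : ℝ) := by
      push_cast
      rfl
    have h2 : |∑ i, (((p i : ℕ) : ℝ) - ((p' i : ℕ) : ℝ)) * (t i : ℝ)| < 1 := by
      have h3 : ∑ i, (((p i : ℕ) : ℝ) - ((p' i : ℕ) : ℝ)) * (t i : ℝ) =
          ∑ i, (((p i : ℕ) : ℝ) - ((p' i : ℕ) : ℝ)) * ((t i : ℝ) - N0 * θ i) := by
        have h4 : ∑ i, (((p i : ℕ) : ℝ) - ((p' i : ℕ) : ℝ)) * ((t i : ℝ) - N0 * θ i) =
            ∑ i, (((p i : ℕ) : ℝ) - ((p' i : ℕ) : ℝ)) * (t i : ℝ) -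
            N0 * ∑ i, (((p i : ℕ) : ℝ) - ((p' i : ℕ) : ℝ)) * θ i := by
          rw [Finset.mul_sum, ← Finset.sum_sub_distrib]
          exact Finset.sum_congr rfl fun i _ => by ring
        rw [h4, h, mul_zero, sub_zero]
      rw [h3]
      calc |∑ i, (((p i : ℕ) : ℝ) - ((p' i : ℕ) : ℝ)) * ((t i : ℝ) - N0 * θ i)|
          ≤ ∑ i, |(((p i : ℕ) : ℝ) - ((p' i : ℕ) : ℝ)) * ((t i : ℝ) - N0 * θ i)| :=
            Finset.abs_sum_le_sum_abs _ _
        _ ≤ ∑ _i : Fin n, (M : ℝ) * ε0 := by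
            refine Finset.sum_le_sum fun i _ => ?_
            rw [abs_mul]
            refine mul_le_mul ?_ ?_ (abs_nonneg _) (Nat.cast_nonneg _)
            · have e1 : ((p i : ℕ) : ℝ) ≤ M := by exact_mod_cast Nat.lt_succ_iff.1 (p i).2
              have e2 : ((p' i : ℕ) : ℝ) ≤ M := by exact_mod_cast Nat.lt_succ_iff.1 (p' i).2
              have e3 : (0 : ℝ) ≤ ((p i : ℕ) : ℝ) := Nat.cast_nonneg _
              have e4 : (0 : ℝ) ≤ ((p' i : ℕ) : ℝ) := Nat.cast_nonneg _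
              rw [abs_le]
              constructor <;> linarith
            · rw [abs_sub_comm]
              exact (ht' i).le
        _ = (n : ℝ) * M * ε0 := by
            rw [Finset.sum_const, Finset.card_univ, Fintype.card_fin, nsmul_eq_mul]
            ring
        _ < 1 := hε03
    rw [h1] at h2 ⊢
    have h3 : |∑ i, (((p i : ℕ) : ℤ) - ((p' i : ℕ) : ℤ)) * (t i : ℤ)| < 1 := by exact_mod_cast h2
    rw [Int.abs_lt_one_iff.1 h3]
    simp
  -- strict inequality
  have hstrict : ∀ P : Fin r → Fin n → Fin (M + 1), qv P θ < 1 →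
      qv P (fun i => (t i : ℝ)) ≤ ∑ i, (t i : ℝ) := by
    intro P hP
    have h1 : ∀ x : Fin n → ℝ, qv P x - ∑ i, x i =
        ∑ i, ((∑ j, C j * ((P j i : ℕ) : ℝ)) - 1) * x i := by
      intro x
      simp only [qv, sub_mul, one_mul, Finset.sum_sub_distrib, Finset.sum_mul, Finset.mul_sum]
      rw [Finset.sum_comm]
      congr 1
      exact Finset.sum_congr rfl fun i _ => Finset.sum_congr rfl fun j _ => by ring
    have h2 := hg P
    rw [if_pos hP] at h2
    have h3 : qv P (fun i => (t i : ℝ)) - ∑ i, (t i : ℝ) = N0 * (qv P θ - ∑ i, θ i) +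
        ∑ i, ((∑ j, C j * ((P j i : ℕ) : ℝ)) - 1) * ((t i : ℝ) - N0 * θ i) := by
      rw [h1, h1, Finset.mul_sum, ← Finset.sum_add_distrib]
      exact Finset.sum_congr rfl fun i _ => by ring
    have h4 : ∑ i, ((∑ j, C j * ((P j i : ℕ) : ℝ)) - 1) * ((t i : ℝ) - N0 * θ i) ≤ A * ε0 := by
      calc ∑ i, ((∑ j, C j * ((P j i : ℕ) : ℝ)) - 1) * ((t i : ℝ) - N0 * θ i)
          ≤ ∑ i, |(∑ j, C j * ((P j i : ℕ) : ℝ)) - 1| * ε0 := by
            refine Finset.sum_le_sum fun i _ => (le_abs_self _).trans ?_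
            rw [abs_mul]
            refine mul_le_mul_of_nonneg_left ?_ (abs_nonneg _)
            rw [abs_sub_comm]
            exact (ht' i).le
        _ = (∑ i, |(∑ j, C j * ((P j i : ℕ) : ℝ)) - 1|) * ε0 := by rw [Finset.sum_mul]
        _ ≤ A * ε0 := mul_le_mul_of_nonneg_right (hA P) hε00.le
    rw [hθsum] at h3
    nlinarith
  -- the second scale
  set T : ℝ := ∑ i, (t i : ℝ) with hT
  have hT0 : 0 ≤ T := Finset.sum_nonneg fun i _ => Nat.cast_nonneg _
  let dd : (Fin n → Fin (M + 1)) → (Fin n → Fin (M + 1)) → (Fin n → ℝ) → ℝ := fun p p' x =>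
    ∑ i, (((p i : ℕ) : ℝ) - ((p' i : ℕ) : ℝ)) * x i
  obtain ⟨ε, hε0, hεT, hεd⟩ : ∃ ε : ℝ, 0 < ε ∧ ε * T ≤ 1 ∧ ∀ p p', dd p p' θ ≠ 0 →
      ε * |dd p p' fun i => (t i : ℝ)| ≤ |dd p p' θ| / 2 := by
    obtain ⟨e1, he1, he1'⟩ := fin_min
      (fun P : (Fin n → Fin (M + 1)) × (Fin n → Fin (M + 1)) =>
        if dd P.1 P.2 θ = 0 then 1 else
          |dd P.1 P.2 θ| / (2 * (|dd P.1 P.2 fun i => (t i : ℝ)| + 1))) (fun P => by
        split_ifs with h
        · exact one_pos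
        · have := abs_pos.2 h
          positivity)
    refine ⟨min e1 (1 / (T + 1)), by positivity, ?_, ?_⟩
    · calc min e1 (1 / (T + 1)) * T ≤ 1 / (T + 1) * T :=
            mul_le_mul_of_nonneg_right (min_le_right _ _) hT0
        _ ≤ 1 := by
            rw [one_div_mul_eq_div, div_le_one (by linarith)]
            linarith
    · intro p p' h
      have h1 := he1' (p, p')
      simp only [if_neg h] at h1
      calc min e1 (1 / (T + 1)) * |dd p p' fun i => (t i : ℝ)| ≤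
            |dd p p' θ| / (2 * (|dd p p' fun i => (t i : ℝ)| + 1)) *
              |dd p p' fun i => (t i : ℝ)| :=
            mul_le_mul_of_nonneg_right ((min_le_left _ _).trans h1) (abs_nonneg _)
        _ ≤ |dd p p' θ| / 2 := by
            rw [div_mul_eq_mul_div, div_le_div_iff₀ (by positivity) (by positivity)]
            have h2 := abs_nonneg (dd p p' fun i => (t i : ℝ))
            have h3 := abs_nonneg (dd p p' θ)
            nlinarith
  -- the shifted vectors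
  set W : ℕ → Fin n → ℝ := fun l i => w l i - t i with hW
  have hWlim : ∀ i, Tendsto (fun l => W l i / N l) U (𝓝 (θ i)) := by
    intro i
    have h1 : Tendsto (fun l => (t i : ℝ) / N l) U (𝓝 0) :=
      tendsto_const_nhds.div_atTop hNtop
    have h2 := (hθi i).sub h1
    rw [sub_zero] at h2
    refine h2.congr fun l => ?_
    rw [hW, sub_div]
  have hWbig : ∀ᶠ l in (U : Filter ℕ), ∀ i, θ i ≠ 0 → κ / 2 * N l ≤ W l i := by
    rw [Filter.eventually_all]
    intro i
    by_cases hi : θ i = 0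
    · exact Eventually.of_forall fun l h => absurd hi h
    · have h1 : κ / 2 < θ i := lt_of_lt_of_le (by linarith) (hκ i hi)
      filter_upwards [(hWlim i).eventually (lt_mem_nhds h1)] with l hl _
      rw [lt_div_iff₀ (hNpos l)] at hl
      exact hl.le
  have hWpos : ∀ᶠ l in (U : Filter ℕ), ∀ i, 0 < W l i := by
    filter_upwards [hWbig] with l hl i
    by_cases hi : θ i = 0
    · rw [hW]
      simp only [htz i hi, Nat.cast_zero, sub_zero]
      exact hw l i
    · exact lt_of_lt_of_le (mul_pos (half_pos hκ0) (hNpos l)) (hl i hi)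
  have hmex : ∀ l j, ∃ m ∈ S l j, (∀ i, 0 < W l i) → ordAlong (S l j) (W l) = dt m (W l) := by
    intro l j
    by_cases h : ∀ i, 0 < W l i
    · obtain ⟨m, hm, hm'⟩ := exists_ord (hS l j) h
      exact ⟨m, hm, fun _ => hm'⟩
    · obtain ⟨m, hm⟩ := hS l j
      exact ⟨m, hm, fun h' => absurd h' h⟩
  choose m hmS hm using hmex
  set Y : ℕ → Fin n → ℝ := fun l i => if θ i = 0 then w l i else (θ i / 2 + ε * t i) * N l with hY
  have hYpos : ∀ l i, 0 < Y l i := by
    intro l i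
    rw [hY]
    dsimp only
    split_ifs with h
    · exact hw l i
    · have h1 : 0 < θ i := lt_of_le_of_ne (hθ0 i) (Ne.symm h)
      have h2 : 0 ≤ ε * (t i : ℝ) := by positivity
      exact mul_pos (by linarith) (hNpos l)
  choose m' hmS' hm' using fun l j => exists_ord (hS l j) (hYpos l)
  -- sums of the weights
  have hsumW : ∀ l, ∑ i, W l i ≤ N l := fun l => by
    rw [hW, hNdef]
    simp only [Finset.sum_sub_distrib]
    linarith
  have hsumY : ∀ l, ∑ i, Y l i ≤ 3 * N l := by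
    intro l
    have h1 : ∀ i, Y l i ≤ w l i + (θ i / 2 + ε * t i) * N l := by
      intro i
      have h2 : 0 ≤ θ i / 2 + ε * t i := by
        have := hθ0 i
        positivity
      rw [hY]
      dsimp only
      split_ifs with h
      · have := mul_nonneg h2 (hNpos l).le
        linarith
      · have := hw l i
        linarith
    calc ∑ i, Y l i ≤ ∑ i, (w l i + (θ i / 2 + ε * t i) * N l) := Finset.sum_le_sum fun i _ => h1 i
      _ = N l + (1 / 2 + ε * T) * N l := by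
          rw [Finset.sum_add_distrib, ← Finset.sum_mul, Finset.sum_add_distrib, ← Finset.mul_sum,
            ← Finset.sum_div, hθsum]
      _ ≤ 3 * N l := by
          have := hNpos l
          nlinarith
  -- log canonicity
  have hlc' : ∀ l (x : Fin n → ℝ), (∀ i, 0 < x i) → ∑ j, c l j * ordAlong (S l j) x ≤ ∑ i, x i :=
    fun l x hx => by
      have := hlc l x hx
      rw [logDisc] at this
      linarith
  have hlcj : ∀ l (x : Fin n → ℝ), (∀ i, 0 < x i) → ∀ j, δ * ordAlong (S l j) x ≤ ∑ i, x i := by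
    intro l x hx j
    have h1 : ∀ j, 0 ≤ ordAlong (S l j) x := fun j => ord_nonneg (hS l j) fun i => (hx i).le
    calc δ * ordAlong (S l j) x ≤ c l j * ordAlong (S l j) x :=
          mul_le_mul_of_nonneg_right (hcδ l j) (h1 j)
      _ ≤ ∑ j, c l j * ordAlong (S l j) x :=
          Finset.single_le_sum (f := fun j => c l j * ordAlong (S l j) x)
            (fun j _ => mul_nonneg (hc0 l j).le (h1 j)) (Finset.mem_univ j)
      _ ≤ _ := hlc' l x hx
  -- bounded exponents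
  have hbound : ∀ (a X y k : ℝ), 0 ≤ a → 0 < X → κ / 2 * X ≤ y → δ * (a * y) ≤ k * X → k ≤ 3 →
      a ≤ M := by
    intro a X y k ha hX hy hk hk3
    refine le_trans ?_ hM
    rw [le_div_iff₀ (by positivity)]
    have h1 : a * (κ / 2 * X) ≤ a * y := mul_le_mul_of_nonneg_left hy ha
    have h2 : δ * (a * (κ / 2 * X)) ≤ k * X := (mul_le_mul_of_nonneg_left h1 hδ.le).trans hk
    have h3 : (a * (δ * κ)) * X ≤ 6 * X := by nlinarith
    exact le_of_mul_le_mul_right h3 hX
  have hmM : ∀ᶠ l in (U : Filter ℕ), ∀ j i, θ i ≠ 0 → m l j i ≤ M := by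
    filter_upwards [hWbig, hWpos] with l hl hl' j i hi
    have h1 := hlcj l (W l) hl' j
    rw [hm l j hl'] at h1
    have h2 : (m l j i : ℝ) * W l i ≤ dt (m l j) (W l) :=
      Finset.single_le_sum (f := fun i => (m l j i : ℝ) * W l i)
        (fun i _ => mul_nonneg (Nat.cast_nonneg _) (hl' i).le) (Finset.mem_univ i)
    have h3 : δ * ((m l j i : ℝ) * W l i) ≤ 1 * N l := by
      rw [one_mul]
      exact (mul_le_mul_of_nonneg_left h2 hδ.le).trans (h1.trans (hsumW l))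
    exact_mod_cast hbound _ _ _ _ (Nat.cast_nonneg _) (hNpos l) (hl i hi) h3 (by norm_num)
  have hmM' : ∀ l j i, θ i ≠ 0 → m' l j i ≤ M := by
    intro l j i hi
    have h1 := hlcj l (Y l) (hYpos l) j
    rw [hm' l j] at h1
    have h2 : (m' l j i : ℝ) * Y l i ≤ dt (m' l j) (Y l) :=
      Finset.single_le_sum (f := fun i => (m' l j i : ℝ) * Y l i)
        (fun i _ => mul_nonneg (Nat.cast_nonneg _) (hYpos l i).le) (Finset.mem_univ i)
    have h3 : δ * ((m' l j i : ℝ) * Y l i) ≤ 3 * N l :=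
      (mul_le_mul_of_nonneg_left h2 hδ.le).trans (h1.trans (hsumY l))
    have h4 : κ / 2 * N l ≤ Y l i := by
      rw [hY]
      dsimp only
      rw [if_neg hi]
      refine mul_le_mul_of_nonneg_right ?_ (hNpos l).le
      have := hκ i hi
      have h5 : 0 ≤ ε * (t i : ℝ) := by positivity
      linarith
    exact_mod_cast hbound _ _ _ _ (Nat.cast_nonneg _) (hNpos l) h4 h3 le_rfl
  -- truncated exponents
  let tr : (Fin n → ℕ) → Fin n → Fin (M + 1) := fun m i =>
    if θ i = 0 then 0 else ⟨min (m i) M, Nat.lt_succ_iff.2 (min_le_right _ _)⟩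
  have htr0 : ∀ m i, θ i = 0 → ((tr m i : ℕ) : ℝ) = 0 := fun m i hi => by
    simp [tr, if_pos hi]
  have htr1 : ∀ m i, θ i ≠ 0 → m i ≤ M → ((tr m i : ℕ) : ℝ) = m i := fun m i hi h => by
    simp [tr, if_neg hi, h]
  obtain ⟨P, hP⟩ := ult_const U (fun l => (fun j => tr (m l j) : Fin r → Fin n → Fin (M + 1)))
  obtain ⟨P', hP'⟩ := ult_const U (fun l => (fun j => tr (m' l j) : Fin r → Fin n → Fin (M + 1)))
  have hWdef : ∀ l i, W l i = w l i - t i := fun l i => rfl
  -- the first inequality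
  have hq1 : T < qv P (fun i => (t i : ℝ)) := by
    obtain ⟨l, h1, h2, h3⟩ := (hWpos.and (hmM.and hP)).exists
    have h4 := hno l t ht0 (fun i => by
      have := h1 i
      rw [hWdef] at this
      linarith)
    have h5 : ∀ j, ordAlong (S l j) (w l) ≤ dt (m l j) (w l) := fun j =>
      csInf_le (bdd fun i => (hw l i).le) ⟨m l j, hmS l j, rfl⟩
    have h6 : ∀ j, dt (m l j) (w l) = dt (m l j) (W l) + dt (m l j) (fun i => (t i : ℝ)) := by
      intro j
      simp only [dt, ← Finset.sum_add_distrib]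
      exact Finset.sum_congr rfl fun i _ => by rw [hWdef]; ring
    have h7 : ∀ j, dt (m l j) (fun i => (t i : ℝ)) = ∑ i, ((P j i : ℕ) : ℝ) * t i := by
      intro j
      refine Finset.sum_congr rfl fun i _ => ?_
      by_cases hi : θ i = 0
      · simp [htz i hi]
      · rw [← congrFun (congrFun h3 j) i, htr1 _ _ hi (h2 j i hi)]
    have h8 : logDisc (S l) (c l) (fun i => w l i - t i) =
        N l - T - ∑ j, c l j * dt (m l j) (W l) := by
      have e1 : ∀ j, ordAlong (S l j) (fun i => w l i - t i) = dt (m l j) (W l) := fun j =>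
        hm l j h1
      rw [logDisc, Finset.sum_sub_distrib]
      simp only [e1]
      rfl
    have h9 : N l - ∑ j, c l j * dt (m l j) (w l) ≤ logDisc (S l) (c l) (w l) := by
      rw [logDisc]
      exact sub_le_sub_left (Finset.sum_le_sum fun j _ =>
        mul_le_mul_of_nonneg_left (h5 j) (hc0 l j).le) _
    have h10 : ∑ j, c l j * dt (m l j) (w l) = ∑ j, c l j * dt (m l j) (W l) +
        ∑ j, c l j * ∑ i, ((P j i : ℕ) : ℝ) * t i := by
      rw [← Finset.sum_add_distrib]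
      exact Finset.sum_congr rfl fun j _ => by rw [h6, h7]; ring
    have h11 : ∑ j, c l j * ∑ i, ((P j i : ℕ) : ℝ) * t i ≤ qv P (fun i => (t i : ℝ)) :=
      Finset.sum_le_sum fun j _ => mul_le_mul_of_nonneg_right (hC l j)
        (Finset.sum_nonneg fun i _ => by positivity)
    linarith
  have hPz : ∀ j i, θ i = 0 → ((P j i : ℕ) : ℝ) = 0 := by
    intro j i hi
    obtain ⟨l, h3⟩ := hP.exists
    rw [← congrFun (congrFun h3 j) i, htr0 _ _ hi]
  have hPz' : ∀ j i, θ i = 0 → ((P' j i : ℕ) : ℝ) = 0 := by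
    intro j i hi
    obtain ⟨l, h3⟩ := hP'.exists
    rw [← congrFun (congrFun h3 j) i, htr0 _ _ hi]
  have hPW : ∀ᶠ l in (U : Filter ℕ), ∀ j, ∑ i, ((P j i : ℕ) : ℝ) * W l i ≤ dt (m l j) (W l) := by
    filter_upwards [hWpos, hmM, hP] with l h1 h2 h3 j
    refine Finset.sum_le_sum fun i _ => mul_le_mul_of_nonneg_right ?_ (h1 i).le
    by_cases hi : θ i = 0
    · rw [hPz j i hi]
      exact Nat.cast_nonneg _
    · rw [← congrFun (congrFun h3 j) i, htr1 _ _ hi (h2 j i hi)]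
  have hq3 : 1 ≤ qv P θ := by
    by_contra hcon
    push Not at hcon
    exact absurd (hstrict P hcon) (not_le.2 hq1)
  -- the second inequality
  have hGlim : Tendsto (fun l => (∑ i, Y l i) / N l) U (𝓝 (1 / 2 + ε * T)) := by
    have h1 : ∀ i, Tendsto (fun l => Y l i / N l) U (𝓝 (θ i / 2 + ε * t i)) := by
      intro i
      by_cases hi : θ i = 0
      · have h2 : θ i / 2 + ε * t i = θ i := by rw [htz i hi, hi]; simp
        rw [h2]
        refine (hθi i).congr fun l => ?_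
        rw [hY]
        simp only [if_pos hi]
      · refine tendsto_const_nhds.congr fun l => ?_
        rw [hY]
        simp only [if_neg hi]
        rw [mul_div_assoc, div_self (hNpos l).ne', mul_one]
    have h2 : (1 / 2 + ε * T) = ∑ i, (θ i / 2 + ε * t i) := by
      rw [Finset.sum_add_distrib, ← Finset.sum_div, hθsum, ← Finset.mul_sum]
    rw [h2]
    refine (tendsto_finsetSum _ fun i _ => h1 i).congr fun l => ?_
    rw [Finset.sum_div]
  have hFlim : Tendsto (fun l => ∑ j, c l j * (∑ i, ((P' j i : ℕ) : ℝ) * (θ i / 2 + ε * t i) +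
      max 0 (∑ i, (((P j i : ℕ) : ℝ) - ((P' j i : ℕ) : ℝ)) * (W l i / N l)))) U
      (𝓝 (∑ j, C j * (∑ i, ((P' j i : ℕ) : ℝ) * (θ i / 2 + ε * t i) +
        max 0 (dd (P j) (P' j) θ)))) := by
    refine tendsto_finsetSum _ fun j _ => (hClim j).mul (tendsto_const_nhds.add ?_)
    refine Tendsto.max tendsto_const_nhds ?_
    exact tendsto_finsetSum _ fun i _ => (hWlim i).const_mul _
  have hFG : ∀ᶠ l in (U : Filter ℕ),
      ∑ j, c l j * (∑ i, ((P' j i : ℕ) : ℝ) * (θ i / 2 + ε * t i) +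
        max 0 (∑ i, (((P j i : ℕ) : ℝ) - ((P' j i : ℕ) : ℝ)) * (W l i / N l))) ≤
      (∑ i, Y l i) / N l := by
    filter_upwards [hWpos, hPW, hP'] with l h1 h2 h3
    rw [le_div_iff₀ (hNpos l), Finset.sum_mul]
    refine le_trans (Finset.sum_le_sum fun j _ => ?_) (hlc' l (Y l) (hYpos l))
    rw [mul_assoc]
    refine mul_le_mul_of_nonneg_left ?_ (hc0 l j).le
    rw [hm' l j]
    -- the difference is the same for `W`
    have h4 : dt (m' l j) (Y l) - N l * ∑ i, ((P' j i : ℕ) : ℝ) * (θ i / 2 + ε * t i) =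
        dt (m' l j) (W l) - ∑ i, ((P' j i : ℕ) : ℝ) * W l i := by
      simp only [dt, Finset.mul_sum, ← Finset.sum_sub_distrib]
      refine Finset.sum_congr rfl fun i _ => ?_
      by_cases hi : θ i = 0
      · rw [hPz' j i hi, hWdef, htz i hi, hY]
        simp only [if_pos hi]
        simp
      · have h5 : ((P' j i : ℕ) : ℝ) = m' l j i := by
          rw [← congrFun (congrFun h3 j) i, htr1 _ _ hi (hmM' l j i hi)]
        rw [h5, hY]
        simp only [if_neg hi]
        ring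
    have h5 : ∑ i, ((P' j i : ℕ) : ℝ) * W l i ≤ dt (m' l j) (W l) := by
      refine Finset.sum_le_sum fun i _ => mul_le_mul_of_nonneg_right ?_ (h1 i).le
      by_cases hi : θ i = 0
      · rw [hPz' j i hi]
        exact Nat.cast_nonneg _
      · rw [← congrFun (congrFun h3 j) i, htr1 _ _ hi (hmM' l j i hi)]
    have h6 : dt (m l j) (W l) ≤ dt (m' l j) (W l) := by
      rw [← hm l j h1]
      exact csInf_le (bdd fun i => (h1 i).le) ⟨m' l j, hmS' l j, rfl⟩
    have h7 : (∑ i, (((P j i : ℕ) : ℝ) - ((P' j i : ℕ) : ℝ)) * (W l i / N l)) * N l =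
        ∑ i, ((P j i : ℕ) : ℝ) * W l i - ∑ i, ((P' j i : ℕ) : ℝ) * W l i := by
      rw [Finset.sum_mul, ← Finset.sum_sub_distrib]
      refine Finset.sum_congr rfl fun i _ => ?_
      have := (hNpos l).ne'
      field_simp
    rw [add_mul, max_mul_of_nonneg _ _ (hNpos l).le, zero_mul, h7]
    have h8 := h2 j
    rcases le_total 0 (∑ i, ((P j i : ℕ) : ℝ) * W l i - ∑ i, ((P' j i : ℕ) : ℝ) * W l i) with h | h
    · rw [max_eq_right h]
      linarith
    · rw [max_eq_left h]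
      linarith
  have hFG' := le_of_tendsto_of_tendsto hFlim hGlim hFG
  have hfin : qv P θ / 2 + ε * qv P (fun i => (t i : ℝ)) ≤
      ∑ j, C j * (∑ i, ((P' j i : ℕ) : ℝ) * (θ i / 2 + ε * t i) +
        max 0 (dd (P j) (P' j) θ)) := by
    have h1 : qv P θ / 2 + ε * qv P (fun i => (t i : ℝ)) =
        ∑ j, C j * ∑ i, ((P j i : ℕ) : ℝ) * (θ i / 2 + ε * t i) := by
      simp only [qv, Finset.sum_div, Finset.mul_sum, ← Finset.sum_add_distrib]
      exact Finset.sum_congr rfl fun j _ => Finset.sum_congr rfl fun i _ => by ring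
    rw [h1]
    refine Finset.sum_le_sum fun j _ => mul_le_mul_of_nonneg_left ?_ (hC0 j).le
    have h2 : ∑ i, ((P j i : ℕ) : ℝ) * (θ i / 2 + ε * t i) =
        ∑ i, ((P' j i : ℕ) : ℝ) * (θ i / 2 + ε * t i) + (dd (P j) (P' j) θ / 2 +
          ε * dd (P j) (P' j) (fun i => (t i : ℝ))) := by
      simp only [dd, Finset.sum_div, Finset.mul_sum, ← Finset.sum_add_distrib]
      exact Finset.sum_congr rfl fun i _ => by ring
    rw [h2]
    refine add_le_add_right ?_ _
    by_cases h3 : dd (P j) (P' j) θ = 0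
    · have h4 : dd (P j) (P' j) (fun i => (t i : ℝ)) = 0 := horth _ _ h3
      rw [h3, h4]
      simp
    · have h4 := hεd _ _ h3
      have h5 : ε * dd (P j) (P' j) (fun i => (t i : ℝ)) ≤ |dd (P j) (P' j) θ| / 2 :=
        (mul_le_mul_of_nonneg_left (le_abs_self _) hε0.le).trans h4
      rcases lt_or_gt_of_ne h3 with h | h
      · rw [abs_of_neg h] at h5
        exact le_max_of_le_left (by linarith)
      · rw [abs_of_pos h] at h5
        exact le_max_of_le_right (by linarith)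
  nlinarith

theorem one_le_ord {S : Set (Fin n → ℕ)} (hS : S.Nonempty) (h0 : 0 ∉ S) :
    1 ≤ ordAlong S (fun _ => (1 : ℝ)) := by
  apply le_ord hS
  intro m hm
  have hm0 : m ≠ 0 := fun h => h0 (h ▸ hm)
  obtain ⟨i, hi⟩ := Function.ne_iff.1 hm0
  calc (1 : ℝ) ≤ (m i : ℝ) * 1 := by
        rw [mul_one]
        exact_mod_cast Nat.one_le_iff_ne_zero.2 hi
    _ ≤ ∑ i, (m i : ℝ) * 1 := Finset.single_le_sum (f := fun i => (m i : ℝ) * 1)
        (fun i _ => by positivity) (Finset.mem_univ i)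

theorem sum_coef_le {r : ℕ} {S : Fin r → Set (Fin n → ℕ)} {c : Fin r → ℝ}
    (hS : ∀ j, (S j).Nonempty ∧ 0 ∉ S j ∧ 0 < c j) (hlc : IsLc S c) : ∑ j, c j ≤ n := by
  have h1 := hlc (fun _ => 1) fun _ => one_pos
  rw [logDisc, Finset.sum_const, Finset.card_univ, Fintype.card_fin, nsmul_eq_mul, mul_one] at h1
  have h2 : ∑ j, c j ≤ ∑ j, c j * ordAlong (S j) (fun _ => (1 : ℝ)) :=
    Finset.sum_le_sum fun j _ => by
      have e1 := one_le_ord (hS j).1 (hS j).2.1
      nlinarith [(hS j).2.2]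
  linarith

theorem key_step (r : ℕ) {Γ : Set ℝ} (hΓ : IsDCC Γ) : ∃ L : ℝ,
    ∀ (S : Fin r → Set (Fin n → ℕ)) (c : Fin r → ℝ),
      (∀ j, (S j).Nonempty ∧ 0 ∉ S j ∧ c j ∈ Γ ∧ 0 < c j) → IsLc S c →
      ∀ w : Fin n → ℝ, (∀ i, 0 < w i) → L < ∑ i, w i →
      ∃ s : Fin n → ℕ, s ≠ 0 ∧ (∀ i, (s i : ℝ) < w i) ∧
        logDisc S c (fun i => w i - s i) ≤ logDisc S c w := by
  by_contra hcon
  push Not at hcon
  choose S c hp hlc w hw hN hno using fun l : ℕ => hcon l
  obtain ⟨θ1, h1, h1'⟩ := subseq_coef hΓ c (fun k j => (hp k j).2.2.1)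
  obtain ⟨δ, hδ0, hδ⟩ := exists_min hΓ
  refine core (fun l => S (θ1 l)) (fun l => c (θ1 l)) (fun l => w (θ1 l)) (B := n) hδ0
    (fun l j => (hp _ j).1) (fun l j => hδ _ (hp _ j).2.2.1 (hp _ j).2.2.2) h1'
    (fun l j => ?_) (fun l => hlc _) (fun l => hw _) (fun l => ?_) (fun l => hno _)
  · refine le_trans ?_ (sum_coef_le (fun j => ⟨(hp (θ1 l) j).1, (hp (θ1 l) j).2.1,
      (hp (θ1 l) j).2.2.2⟩) (hlc (θ1 l)))
    exact Finset.single_le_sum (f := c (θ1 l)) (fun j _ => (hp (θ1 l) j).2.2.2.le)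
      (Finset.mem_univ j)
  · refine lt_of_le_of_lt ?_ (hN (θ1 l))
    exact_mod_cast h1.le_apply

/-- a lattice point of bounded size in the same class, with fixed number of ideals -/
theorem bounded_fixed (r : ℕ) {Γ : Set ℝ} (hΓ : IsDCC Γ) : ∃ L : ℝ,
    ∀ (S : Fin r → Set (Fin n → ℕ)) (c : Fin r → ℝ),
      (∀ j, (S j).Nonempty ∧ 0 ∉ S j ∧ c j ∈ Γ ∧ 0 < c j) → IsLc S c →
      ∀ w : Fin n → ℝ, (∀ i, 0 < w i) →
      ∃ s : Fin n → ℕ, (∀ i, (s i : ℝ) < w i) ∧ ∑ i, (w i - s i) ≤ L ∧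
        logDisc S c (fun i => w i - s i) ≤ logDisc S c w := by
  obtain ⟨L, hL⟩ := key_step (n := n) r hΓ
  refine ⟨L, fun S c hp hlc w hw => ?_⟩
  have hfin : {s : Fin n → ℕ | (∀ i, (s i : ℝ) < w i) ∧
      logDisc S c (fun i => w i - s i) ≤ logDisc S c w}.Finite := by
    refine (Set.finite_Iic (fun i => ⌈w i⌉₊)).subset ?_
    rintro s ⟨hs, -⟩ i
    exact_mod_cast (hs i).le.trans (Nat.le_ceil _)
  obtain ⟨s, ⟨hs1, hs2⟩, hmin⟩ := Set.exists_min_image _
    (fun s : Fin n → ℕ => ∑ i, (w i - s i)) hfin ⟨0, by simpa using hw, by simp⟩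
  refine ⟨s, hs1, ?_, hs2⟩
  by_contra hcon
  push Not at hcon
  obtain ⟨s', hs0', hs1', hs2'⟩ := hL S c hp hlc (fun i => w i - s i)
    (fun i => sub_pos.2 (hs1 i)) hcon
  have h1 : ∀ i, w i - ((s + s' : Fin n → ℕ) i : ℝ) = w i - s i - s' i := fun i => by
    rw [Pi.add_apply]
    push_cast
    ring
  have h2 := hmin (s + s') ⟨fun i => by
      have e1 := hs1' i
      have e2 := h1 i
      linarith, by
      simp only [h1]
      exact hs2'.trans hs2⟩
  simp only [h1] at h2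
  rw [Finset.sum_sub_distrib (f := fun i => w i - (s i : ℝ))] at h2
  obtain ⟨i, hi⟩ := Function.ne_iff.1 hs0'
  have h3 : (1 : ℝ) ≤ ∑ i, (s' i : ℝ) :=
    le_trans (by exact_mod_cast Nat.one_le_iff_ne_zero.2 hi)
      (Finset.single_le_sum (f := fun i => (s' i : ℝ)) (fun i _ => Nat.cast_nonneg _)
        (Finset.mem_univ i))
  linarith

/-- **Boundedness.** For every DCC set there is a bound `L` such that for every log canonical
monomial pair with coefficients in it and every positive weight vector `w` there is a positive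
weight vector of size at most `L`, congruent to `w` modulo integers, whose log discrepancy is not
larger. -/
theorem bounded {Γ : Set ℝ} (hΓ : IsDCC Γ) : ∃ L : ℝ,
    ∀ (r : ℕ) (S : Fin r → Set (Fin n → ℕ)) (c : Fin r → ℝ),
      (∀ j, (S j).Nonempty ∧ 0 ∉ S j ∧ c j ∈ Γ ∧ 0 < c j) → IsLc S c →
      ∀ w : Fin n → ℝ, (∀ i, 0 < w i) →
      ∃ s : Fin n → ℕ, (∀ i, (s i : ℝ) < w i) ∧ ∑ i, (w i - s i) ≤ L ∧
        logDisc S c (fun i => w i - s i) ≤ logDisc S c w := by
  obtain ⟨δ, hδ0, hδ⟩ := exists_min hΓ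
  choose L hL using fun r => bounded_fixed (n := n) r hΓ
  obtain ⟨R, hR⟩ : ∃ R : ℕ, ∀ (r : ℕ) (S : Fin r → Set (Fin n → ℕ)) (c : Fin r → ℝ),
      (∀ j, (S j).Nonempty ∧ 0 ∉ S j ∧ c j ∈ Γ ∧ 0 < c j) → IsLc S c → r ≤ R := by
    refine ⟨⌈(n : ℝ) / δ⌉₊, fun r S c hp hlc => ?_⟩
    have h1 := sum_coef_le (fun j => ⟨(hp j).1, (hp j).2.1, (hp j).2.2.2⟩) hlc
    have h2 : (r : ℝ) * δ ≤ ∑ j, c j := by
      calc (r : ℝ) * δ = ∑ _j : Fin r, δ := by
            rw [Finset.sum_const, Finset.card_univ, Fintype.card_fin, nsmul_eq_mul]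
        _ ≤ _ := Finset.sum_le_sum fun j _ => hδ _ (hp j).2.2.1 (hp j).2.2.2
    have h3 : (r : ℝ) ≤ n / δ := by
      rw [le_div_iff₀ hδ0]
      linarith
    exact_mod_cast h3.trans (Nat.le_ceil _)
  refine ⟨∑ r ∈ Finset.range (R + 1), |L r|, fun r S c hp hlc w hw => ?_⟩
  obtain ⟨s, h1, h2, h3⟩ := hL r S c hp hlc w hw
  refine ⟨s, h1, h2.trans ((le_abs_self _).trans ?_), h3⟩
  exact Finset.single_le_sum (f := fun r => |L r|) (fun i _ => abs_nonneg _)
    (Finset.mem_range.2 (Nat.lt_succ_of_le (hR r S c hp hlc)))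

end Pool.Agent.TH165.ACC
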