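import Mathlib
import Pool.Agent.W497.Mld.Aff
import Pool.Agent.W497.Mld.Defs

/-!
# Laurent monomials and monomial valuations
-/

set_option autoImplicit false
set_option linter.unusedSectionVars false

namespace Pool.Agent.TH165.ACC

open Pool.Agent.H436R3.Fol Pool.Agent.H436R3.KT Pool.Agent.W497.Mld MvPolynomial

variable {n : ℕ}

/-- the pairing of a monomial and a weight vector -/
def pr (m u : Fin n → ℤ) : ℤ := ∑ i, m i * u i

theorem pr_add (m m' u : Fin n → ℤ) : pr (m + m') u = pr m u + pr m' u := by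
  simp only [pr, Pi.add_apply, add_mul, Finset.sum_add_distrib]

theorem pr_zero (u : Fin n → ℤ) : pr 0 u = 0 := by simp [pr]

theorem pr_neg (m u : Fin n → ℤ) : pr (-m) u = -pr m u := by
  simp only [pr, Pi.neg_apply, neg_mul, Finset.sum_neg_distrib]

theorem pr_sub (m m' u : Fin n → ℤ) : pr (m - m') u = pr m u - pr m' u := by
  rw [sub_eq_add_neg, pr_add, pr_neg, sub_eq_add_neg]

theorem pr_smul (k : ℤ) (m u : Fin n → ℤ) : pr (k • m) u = k * pr m u := by
  simp only [pr, Pi.smul_apply, smul_eq_mul, Finset.mul_sum, mul_assoc]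

/-- the exponent vector of a monomial -/
def ex (s : Fin n →₀ ℕ) : Fin n → ℤ := fun i => (s i : ℤ)

theorem ex_add (s t : Fin n →₀ ℕ) : ex (s + t) = ex s + ex t := by
  funext i; simp [ex]

theorem ex_inj {s t : Fin n →₀ ℕ} (h : ex s = ex t) : s = t := by
  ext i
  have := congrFun h i
  simpa [ex] using this

variable (K : Type) [Field K] [Algebra ℂ K]
  [Algebra (MvPolynomial (Fin n) ℂ) K] [IsFractionRing (MvPolynomial (Fin n) ℂ) K]
  [IsScalarTower ℂ (MvPolynomial (Fin n) ℂ) K]

/-- the Laurent monomial with exponent vector `m` -/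
noncomputable def ym (m : Fin n → ℤ) : K := ∏ i, cv K i ^ m i

variable {K}

theorem ym_ne (m : Fin n → ℤ) : ym K m ≠ 0 :=
  Finset.prod_ne_zero_iff.2 fun i _ => zpow_ne_zero _ (cv_ne i)

theorem ym_add (m m' : Fin n → ℤ) : ym K (m + m') = ym K m * ym K m' := by
  simp only [ym, Pi.add_apply, ← Finset.prod_mul_distrib]
  exact Finset.prod_congr rfl fun i _ => zpow_add₀ (cv_ne i : cv K i ≠ 0) _ _

theorem ym_zero : ym K (0 : Fin n → ℤ) = 1 := by simp [ym]

theorem ym_neg (m : Fin n → ℤ) : ym K (-m) = (ym K m)⁻¹ := by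
  simp only [ym, Pi.neg_apply, zpow_neg, Finset.prod_inv_distrib]

theorem ym_mul_neg (m : Fin n → ℤ) : ym K m * ym K (-m) = 1 := by
  rw [← ym_add, add_neg_cancel, ym_zero]

theorem ym_ex (s : Fin n →₀ ℕ) : ym K (ex s) = jo (Fin n) K (monomial s 1) := by
  rw [monomial_eq, C_1, one_mul, Finsupp.prod_fintype _ _ (fun i => pow_zero _), map_prod]
  refine Finset.prod_congr rfl fun i _ => ?_
  rw [map_pow, ex, zpow_natCast]
  rfl

theorem jo_monomial (s : Fin n →₀ ℕ) (c : ℂ) :
    jo (Fin n) K (monomial s c) = algebraMap ℂ K c * ym K (ex s) := by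
  rw [ym_ex, ← jo_C (ι := Fin n), ← map_mul, C_mul_monomial, mul_one]

theorem jo_eq_sum (p : MvPolynomial (Fin n) ℂ) :
    jo (Fin n) K p = ∑ s ∈ p.support, algebraMap ℂ K (p.coeff s) * ym K (ex s) := by
  conv_lhs => rw [p.as_sum]
  rw [map_sum]
  exact Finset.sum_congr rfl fun s _ => jo_monomial s _

/-- the weight vector of a valuation -/
noncomputable def tv (v : DVal K) : Fin n → ℤ := fun i => v.ord (cv K i)

theorem ord_ym (v : DVal K) (m : Fin n → ℤ) : v.ord (ym K m) = pr m (tv v) := by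
  rw [ym, v.ord_prod _ _ fun i _ => zpow_ne_zero _ (cv_ne i), pr]
  exact Finset.sum_congr rfl fun i _ => v.ord_zpow (cv_ne i) _

/-- `v` is a monomial (toric) valuation: the order of a polynomial is the least order of its
monomials. -/
def IsMonomial (n : ℕ) {K : Type} [Field K] [Algebra ℂ K]
    [Algebra (MvPolynomial (Fin n) ℂ) K] [IsFractionRing (MvPolynomial (Fin n) ℂ) K]
    [IsScalarTower ℂ (MvPolynomial (Fin n) ℂ) K] (v : DVal K) : Prop :=
  ∀ p : MvPolynomial (Fin n) ℂ, p ≠ 0 →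
  (∃ s ∈ p.support, v.ord (jo (Fin n) K p) = pr (ex s) (tv v)) ∧
    ∀ s ∈ p.support, v.ord (jo (Fin n) K p) ≤ pr (ex s) (tv v)

/-- the toric vector fields -/
noncomputable def tor (K : Type) [Field K] [Algebra ℂ K]
    [Algebra (MvPolynomial (Fin n) ℂ) K] [IsFractionRing (MvPolynomial (Fin n) ℂ) K]
    [IsScalarTower ℂ (MvPolynomial (Fin n) ℂ) K] (i : Fin n) : Derivation ℂ K K :=
  cv K i • pd K i

theorem tor_cv (i j : Fin n) : tor K i (cv K j) = if i = j then cv K j else 0 := by
  rw [tor, Derivation.smul_apply, pd_cv, smul_eq_mul]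
  by_cases h : i = j
  · subst h; simp
  · simp [h]

theorem tor_ym (i : Fin n) (m : Fin n → ℤ) : tor K i (ym K m) = (m i : K) * ym K m := by
  have key : ∀ s : Finset (Fin n), tor K i (∏ j ∈ s, cv K j ^ m j) =
      (if i ∈ s then (m i : K) else 0) * ∏ j ∈ s, cv K j ^ m j := by
    intro s
    induction s using Finset.induction_on with
    | empty => simp
    | insert a s ha ih =>
      rw [Finset.prod_insert ha, Derivation.leibniz, ih]
      have h1 := logDer_zpow (D := tor K i) (cv_ne a : cv K a ≠ 0) (m a)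
      rw [div_eq_iff (zpow_ne_zero _ (cv_ne a)), tor_cv] at h1
      rw [h1]
      by_cases hia : i = a
      · subst hia
        rw [if_pos rfl, div_self (cv_ne i), if_neg ha, if_pos (Finset.mem_insert_self _ _)]
        simp only [smul_eq_mul]
        ring
      · rw [if_neg hia, zero_div]
        by_cases his : i ∈ s
        · rw [if_pos his, if_pos (Finset.mem_insert_of_mem his)]
          simp only [smul_eq_mul]
          ring
        · have : i ∉ insert a s := by simp [hia, his]
          rw [if_neg his, if_neg this]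
          simp
  have := key Finset.univ
  rwa [if_pos (Finset.mem_univ i)] at this

/-- the Laurent polynomials with monomials in `C` -/
noncomputable def LA (K : Type) [Field K] [Algebra ℂ K]
    [Algebra (MvPolynomial (Fin n) ℂ) K] [IsFractionRing (MvPolynomial (Fin n) ℂ) K]
    [IsScalarTower ℂ (MvPolynomial (Fin n) ℂ) K] (C : Set (Fin n → ℤ)) : Subalgebra ℂ K :=
  Algebra.adjoin ℂ (ym K '' C)

theorem ym_mem_LA {C : Set (Fin n → ℤ)} {m : Fin n → ℤ} (h : m ∈ C) : ym K m ∈ LA K C :=
  Algebra.subset_adjoin ⟨m, h, rfl⟩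

theorem LA_mono {C C' : Set (Fin n → ℤ)} (h : C ⊆ C') : LA K C ≤ LA K C' :=
  Algebra.adjoin_mono (Set.image_mono h)

theorem jo_mul_mem_LA {C : Set (Fin n → ℤ)} {p : MvPolynomial (Fin n) ℂ} {m : Fin n → ℤ}
    (h : ∀ s ∈ p.support, ex s + m ∈ C) : jo (Fin n) K p * ym K m ∈ LA K C := by
  rw [jo_eq_sum, Finset.sum_mul]
  refine sum_mem fun s hs => ?_
  rw [mul_assoc, ← ym_add]
  exact mul_mem (Subalgebra.algebraMap_mem _ _) (ym_mem_LA (h s hs))

theorem reg_LA {C : Set (Fin n → ℤ)} {v : DVal K} (h : ∀ m ∈ C, 0 ≤ pr m (tv v)) {f : K}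
    (hf : f ∈ LA K C) : v.Reg f := by
  induction hf using Algebra.adjoin_induction with
  | mem x hx =>
    obtain ⟨m, hm, rfl⟩ := hx
    right
    rw [ord_ym]
    exact h m hm
  | algebraMap r => exact v.reg_const r
  | add x y _ _ hx hy => exact v.reg_add hx hy
  | mul x y _ _ hx hy => exact v.reg_mul hx hy

/-- the half space of monomials of non-negative weight -/
def Hs (u : Fin n → ℤ) : Set (Fin n → ℤ) := {m | 0 ≤ pr m u}

/-- the vector `u` is primitive -/
def Prim (u : Fin n → ℤ) : Prop := ∃ m : Fin n → ℤ, pr m u = 1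

theorem exists_nat_ex (m : Fin n → ℤ) : ∃ s t : Fin n →₀ ℕ, m = ex s - ex t := by
  refine ⟨Finsupp.equivFunOnFinite.symm fun i => (m i).toNat,
    Finsupp.equivFunOnFinite.symm fun i => (-m i).toNat, ?_⟩
  funext i
  simp only [ex, Pi.sub_apply, Finsupp.equivFunOnFinite_symm_apply_apply]
  omega

theorem prim_of_mon {v : DVal K} (hv : IsMonomial n v) : Prim (tv v : Fin n → ℤ) := by
  obtain ⟨f, hf, h1⟩ := v.surj
  obtain ⟨a, b, hb, rfl⟩ := exists_frac (MvPolynomial (Fin n) ℂ) f
  have ha : a ≠ 0 := by rintro rfl; simp at hf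
  rw [← jo_apply, ← jo_apply, v.ord_div (jo_ne ha) (jo_ne hb)] at h1
  obtain ⟨s, -, hs⟩ := (hv a ha).1
  obtain ⟨t, -, ht⟩ := (hv b hb).1
  rw [hs, ht, ← pr_sub] at h1
  exact ⟨_, h1⟩

theorem local_Hs {v : DVal K} (hv : IsMonomial n v) :
    IsLocalRing' (LA K (Hs (tv v : Fin n → ℤ))) v := by
  obtain ⟨m1, hm1⟩ := prim_of_mon hv
  refine ⟨fun f hf => reg_LA (fun m hm => hm) hf, fun f hf => ?_⟩
  by_cases hf0 : f = 0
  · exact ⟨0, 1, zero_mem _, one_mem _, one_ne_zero, v.ord_one, by rw [hf0, zero_mul]⟩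
  obtain ⟨a, b, hb, rfl⟩ := exists_frac (MvPolynomial (Fin n) ℂ) f
  have ha : a ≠ 0 := by rintro rfl; simp at hf0
  rw [← jo_apply, ← jo_apply] at hf hf0 ⊢
  have h1 : v.ord (jo (Fin n) K b) ≤ v.ord (jo (Fin n) K a) := by
    have := v.ord_nonneg hf0 hf
    rw [v.ord_div (jo_ne ha) (jo_ne hb)] at this
    omega
  set k := v.ord (jo (Fin n) K b) with hk
  refine ⟨jo (Fin n) K a * ym K (-(k • m1)), jo (Fin n) K b * ym K (-(k • m1)), ?_, ?_, ?_, ?_, ?_⟩
  · apply jo_mul_mem_LA
    intro s hs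
    have := (hv a ha).2 s hs
    change 0 ≤ pr _ _
    rw [pr_add, pr_neg, pr_smul, hm1]
    omega
  · apply jo_mul_mem_LA
    intro s hs
    have := (hv b hb).2 s hs
    change 0 ≤ pr _ _
    rw [pr_add, pr_neg, pr_smul, hm1]
    omega
  · exact mul_ne_zero (jo_ne hb) (ym_ne _)
  · rw [v.map_mul _ _ (jo_ne hb) (ym_ne _), ord_ym, pr_neg, pr_smul, hm1, ← hk]
    omega
  · have h0 : jo (Fin n) K b ≠ 0 := jo_ne hb
    field_simp

theorem fg_Hs {u : Fin n → ℤ} (hu : Prim u) : (LA K (Hs u)).FG := by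
  obtain ⟨m1, hm1⟩ := hu
  let φ : (Fin n → ℤ) →ₗ[ℤ] ℤ :=
    { toFun := fun m => pr m u
      map_add' := fun a b => pr_add a b u
      map_smul' := fun k a => pr_smul k a u }
  obtain ⟨T, hT⟩ := (IsNoetherian.noetherian (LinearMap.ker φ) : (LinearMap.ker φ).FG)
  have hTk : ∀ t ∈ T, pr t u = 0 := by
    intro t ht
    have : t ∈ LinearMap.ker φ := by rw [← hT]; exact Submodule.subset_span ht
    exact this
  classical
  let G : Finset K := insert (ym K m1) (T.image (ym K) ∪ T.image fun t => ym K (-t))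
  refine ⟨G, ?_⟩
  apply le_antisymm
  · apply Algebra.adjoin_le
    intro x hx
    simp only [G, Finset.coe_insert, Finset.coe_union, Finset.coe_image, Set.mem_insert_iff,
      Set.mem_union, Set.mem_image, Finset.mem_coe] at hx
    rcases hx with rfl | ⟨t, ht, rfl⟩ | ⟨t, ht, rfl⟩
    · exact ym_mem_LA (by change 0 ≤ pr _ _; rw [hm1]; norm_num)
    · exact ym_mem_LA (by change 0 ≤ pr _ _; rw [hTk t ht])
    · exact ym_mem_LA (by change 0 ≤ pr _ _; rw [pr_neg, hTk t ht]; norm_num)
  · apply Algebra.adjoin_le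
    rintro _ ⟨m, hm, rfl⟩
    have hk : ∀ k ∈ LinearMap.ker φ, ym K k ∈ Algebra.adjoin ℂ (G : Set K) ∧
        ym K (-k) ∈ Algebra.adjoin ℂ (G : Set K) := by
      intro k hk
      rw [← hT] at hk
      induction hk using Submodule.span_induction with
      | mem x hx =>
        constructor
        · refine Algebra.subset_adjoin ?_
          simp only [G, Finset.coe_insert, Finset.coe_union, Finset.coe_image]
          exact Or.inr (Or.inl ⟨x, hx, rfl⟩)
        · refine Algebra.subset_adjoin ?_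
          simp only [G, Finset.coe_insert, Finset.coe_union, Finset.coe_image]
          exact Or.inr (Or.inr ⟨x, hx, rfl⟩)
      | zero => rw [neg_zero, ym_zero]; exact ⟨one_mem _, one_mem _⟩
      | add x y _ _ hx hy =>
        rw [neg_add, ym_add, ym_add]
        exact ⟨mul_mem hx.1 hy.1, mul_mem hx.2 hy.2⟩
      | smul a x _ hx =>
        have hpow : ∀ (N : ℕ) (w : Fin n → ℤ), ym K ((N : ℤ) • w) = ym K w ^ N := by
          intro N w
          induction N with
          | zero => simp [ym_zero]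
          | succ N ih =>
            rw [Nat.cast_succ, add_smul, one_smul, ym_add, ih, pow_succ]
        obtain ⟨N, rfl | rfl⟩ := a.eq_nat_or_neg
        · rw [← smul_neg, hpow, hpow]
          exact ⟨pow_mem hx.1 _, pow_mem hx.2 _⟩
        · rw [neg_smul, neg_neg, ← smul_neg, hpow, hpow]
          exact ⟨pow_mem hx.2 _, pow_mem hx.1 _⟩
    have h1 : m - pr m u • m1 ∈ LinearMap.ker φ := by
      change pr _ _ = 0
      rw [pr_sub, pr_smul, hm1, mul_one, sub_self]
    have h2 : ym K m = ym K m1 ^ (pr m u).toNat * ym K (m - pr m u • m1) := by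
      have hpow : ∀ (N : ℕ), ym K m1 ^ N = ym K ((N : ℤ) • m1) := by
        intro N
        induction N with
        | zero => simp [ym_zero]
        | succ N ih => rw [Nat.cast_succ, add_smul, one_smul, ym_add, ← ih, pow_succ]
      rw [hpow, ← ym_add, Int.toNat_of_nonneg hm]
      congr 1
      abel
    rw [h2]
    refine mul_mem (pow_mem (Algebra.subset_adjoin ?_) _) (hk _ h1).1
    simp only [G, Finset.coe_insert]
    exact Or.inl rfl

end Pool.Agent.TH165.ACC
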