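import Mathlib
import Pool.Agent.TH165.ACC.Lau

/-!
# Canonical orders along monomial valuations and along non-toric prime divisors
-/

set_option autoImplicit false
set_option linter.unusedSectionVars false

namespace Pool.Agent.TH165.ACC

open Pool.Agent.H436R3.Fol Pool.Agent.H436R3.KT Pool.Agent.W497.Mld MvPolynomial Matrix

variable {n : ℕ} {K : Type} [Field K] [Algebra ℂ K]
  [Algebra (MvPolynomial (Fin n) ℂ) K] [IsFractionRing (MvPolynomial (Fin n) ℂ) K]
  [IsScalarTower ℂ (MvPolynomial (Fin n) ℂ) K]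

theorem der_LA {C : Set (Fin n → ℤ)} {v : DVal K} {D : Derivation ℂ K K}
    (h1 : ∀ f ∈ LA K C, v.Reg f) (h2 : ∀ m ∈ C, v.Reg (D (ym K m))) {f : K}
    (hf : f ∈ LA K C) : v.Reg (D f) := by
  induction hf using Algebra.adjoin_induction with
  | mem x hx =>
    obtain ⟨m, hm, rfl⟩ := hx
    exact h2 m hm
  | algebraMap r => rw [Derivation.map_algebraMap]; exact v.reg_zero
  | add x y _ _ hx hy => rw [map_add]; exact v.reg_add hx hy
  | mul x y hx' hy' hx hy =>
    rw [Derivation.leibniz, smul_eq_mul, smul_eq_mul]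
    exact v.reg_add (v.reg_mul (h1 x hx') hy) (v.reg_mul (h1 y hy') hx)

theorem tor_pres {C : Set (Fin n → ℤ)} {v : DVal K} (hv : IsLocalRing' (LA K C) v) (i : Fin n) :
    Preserves v (tor K i) := by
  refine preserves_of v hv fun f hf => der_LA hv.1 (fun m hm => ?_) hf
  rw [tor_ym]
  exact v.reg_mul (v.reg_intCast _) (hv.1 _ (ym_mem_LA hm))

theorem jac_tor {d : ℕ} {F : Foliation K d} (e : Fin d ≃ Fin n) (hF : ∀ i, F.D i = tor K (e i)) :
    (Matrix.of fun (j k : Fin d) => F.D j (cv K (e k))).det = ∏ k, cv K (e k) := by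
  have : (Matrix.of fun (j k : Fin d) => F.D j (cv K (e k))) = diagonal fun k => cv K (e k) := by
    ext j k
    rw [of_apply, hF, tor_cv, diagonal_apply]
    by_cases h : j = k
    · subst h; simp
    · rw [if_neg (fun h' => h (e.injective h')), if_neg h]
  rw [this, det_diagonal]

theorem can_ge_neg {d : ℕ} {F : Foliation K d} (e : Fin d ≃ Fin n)
    (hF : ∀ i, F.D i = tor K (e i)) (v : DVal K) (A : Matrix (Fin d) (Fin d) K) (hA0 : A.det ≠ 0)
    (hA : ∀ i, Preserves v (∑ j, A i j • F.D j)) : -1 ≤ v.ord A.det := by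
  have h1 := gji v F.D A hA0 hA (fun k => cv K (e k)) (fun k => cv_ne _)
    (by rw [jac_tor e hF]; exact Finset.prod_ne_zero_iff.2 fun k _ => cv_ne _)
  rw [jac_tor e hF, v.ord_prod _ _ fun k _ => cv_ne _] at h1
  omega

theorem can_ge_zero' {d : ℕ} {F : Foliation K d} (e : Fin d ≃ Fin n)
    (hF : ∀ i, F.D i = tor K (e i)) (v : DVal K) (h0 : ∀ i : Fin n, v.ord (cv K i) = 0)
    (A : Matrix (Fin d) (Fin d) K) (hA0 : A.det ≠ 0)
    (hA : ∀ i, Preserves v (∑ j, A i j • F.D j)) : 0 ≤ v.ord A.det := by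
  have h1 := gji_zero v F.D A hA0 hA (fun k => cv K (e k)) (fun k => cv_ne _)
    (by rw [jac_tor e hF]; exact Finset.prod_ne_zero_iff.2 fun k _ => cv_ne _) (fun k => h0 _)
  rw [jac_tor e hF, v.ord_prod _ _ fun k _ => cv_ne _, Finset.sum_eq_zero fun k _ => h0 _] at h1
  omega

theorem sum_row {d : ℕ} {F : Foliation K d} (e : Fin d ≃ Fin n)
    (hF : ∀ i, F.D i = tor K (e i)) (B : Matrix (Fin n) (Fin n) K) (i : Fin d) :
    (∑ j, (B.submatrix e e) i j • F.D j) = ∑ j, B (e i) j • tor K j := by
  rw [← e.sum_comp]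
  exact Finset.sum_congr rfl fun j _ => by rw [submatrix_apply, hF]

/-- the canonical order at a prime divisor which meets the torus -/
theorem can_unit {d : ℕ} {F : Foliation K d} (e : Fin d ≃ Fin n)
    (hF : ∀ i, F.D i = tor K (e i)) {C : Set (Fin n → ℤ)} {v : DVal K}
    (hv : IsLocalRing' (LA K C) v) (h0 : ∀ i : Fin n, v.ord (cv K i) = 0) : IsCanOrd F v 0 := by
  refine ⟨⟨1, by rw [det_one]; exact one_ne_zero, fun i => ?_, by rw [det_one, v.ord_one]⟩, ?_⟩
  · have h1 : (∑ j, (1 : Matrix (Fin d) (Fin d) K) i j • F.D j) = tor K (e i) := by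
      rw [Finset.sum_eq_single i]
      · rw [Matrix.one_apply_eq, one_smul, hF]
      · intro j _ hj
        rw [Matrix.one_apply_ne hj.symm, zero_smul]
      · intro h
        exact absurd (Finset.mem_univ _) h
    rw [h1]
    exact tor_pres hv _
  · rintro m ⟨A, hA0, hA, rfl⟩
    exact can_ge_zero' e hF v h0 A hA0 hA

/-- the canonical order at a monomial valuation -/
theorem can_mon {d : ℕ} {F : Foliation K d} (e : Fin d ≃ Fin n)
    (hF : ∀ i, F.D i = tor K (e i)) {v : DVal K} (hv : IsMonomial n v) : IsCanOrd F v (-1) := by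
  obtain ⟨m1, hm1⟩ := prim_of_mon hv
  set u : Fin n → ℤ := tv v with hu
  obtain ⟨i0, hi0⟩ : ∃ i, u i ≠ 0 := by
    by_contra h
    push Not at h
    have : pr m1 u = 0 := Finset.sum_eq_zero fun i _ => by rw [h i, mul_zero]
    omega
  have hL := local_Hs hv
  rw [← hu] at hL
  let c : Fin n → K := fun j => ym K (-m1) * (u j : K)
  let B : Matrix (Fin n) (Fin n) K := (1 : Matrix (Fin n) (Fin n) K).updateRow i0 c
  have hui : (u i0 : K) ≠ 0 := by
    rw [Ne, ← map_intCast (algebraMap ℂ K), map_eq_zero_iff _ (algebraMap ℂ K).injective]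
    exact_mod_cast hi0
  have hdet : B.det = c i0 := by
    have h1 := Matrix.det_updateRow_sum (1 : Matrix (Fin n) (Fin n) K) i0 c
    have h2 : (∑ k, c k • (1 : Matrix (Fin n) (Fin n) K) k) = c := by
      funext j
      rw [Finset.sum_apply, Finset.sum_eq_single j]
      · simp
      · intro k _ hk
        simp [Matrix.one_apply_ne hk]
      · intro h; exact absurd (Finset.mem_univ _) h
    rw [h2, det_one, smul_eq_mul, mul_one] at h1
    exact h1
  have hci : c i0 ≠ 0 := mul_ne_zero (ym_ne _) hui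
  have hB0 : ∀ j, B i0 j = c j := fun j => by simp [B]
  have hB1 : ∀ i j, i ≠ i0 → B i j = (1 : Matrix (Fin n) (Fin n) K) i j := fun i j h => by
    simp [B, updateRow_ne h]
  refine ⟨⟨B.submatrix e e, ?_, fun i => ?_, ?_⟩, ?_⟩
  · rw [det_submatrix_equiv_self, hdet]
    exact hci
  · rw [sum_row e hF]
    by_cases h : e i = i0
    · have h1 : (∑ j, B (e i) j • tor K j) = ∑ j, c j • tor K j := by
        refine Finset.sum_congr rfl fun j _ => ?_
        rw [h, hB0]
      rw [h1]
      refine preserves_of v hL fun f hf => der_LA hL.1 (fun m hm => ?_) hf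
      have h2 : (∑ j, c j • tor K j) (ym K m) = (pr m u : K) * ym K (m - m1) := by
        rw [der_sum_apply, sub_eq_add_neg, ym_add]
        have : ∀ j, c j * tor K j (ym K m) = ((m j : K) * (u j : K)) * (ym K m * ym K (-m1)) := by
          intro j
          rw [tor_ym]
          simp only [c]
          ring
        rw [Finset.sum_congr rfl fun j _ => this j, ← Finset.sum_mul]
        congr 1
        rw [pr]
        push_cast
        rfl
      rw [h2]
      by_cases h3 : pr m u = 0
      · rw [h3, Int.cast_zero, zero_mul]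
        exact v.reg_zero
      · refine v.reg_mul (v.reg_intCast _) (Or.inr ?_)
        rw [ord_ym, pr_sub, ← hu, hm1]
        have : 0 ≤ pr m u := hm
        omega
    · have h1 : (∑ j, B (e i) j • tor K j) = tor K (e i) := by
        rw [Finset.sum_eq_single (e i)]
        · rw [hB1 _ _ h, Matrix.one_apply_eq, one_smul]
        · intro j _ hj
          rw [hB1 _ _ h, Matrix.one_apply_ne hj.symm, zero_smul]
        · intro h
          exact absurd (Finset.mem_univ _) h
      rw [h1]
      exact tor_pres hL _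
  · rw [det_submatrix_equiv_self, hdet, v.map_mul _ _ (ym_ne _) hui, ord_ym, pr_neg, ← hu, hm1]
    have h4 : v.ord (u i0 : K) = 0 := by
      have := v.const (u i0 : ℂ) (by exact_mod_cast hi0)
      rwa [map_intCast] at this
    rw [h4]
    norm_num
  · rintro m ⟨A, hA0, hA, rfl⟩
    exact can_ge_neg e hF v A hA0 hA

end Pool.Agent.TH165.ACC
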