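import Mathlib
import Pool.Agent.TH165.ACC.Lau

/-!
# Existence of monomial valuations
-/

set_option autoImplicit false
set_option linter.unusedSectionVars false

namespace Pool.Agent.TH165.ACC

open Pool.Agent.H436R3.Fol Pool.Agent.H436R3.KT Pool.Agent.W497.Mld MvPolynomial

variable {n : ℕ} {K : Type} [Field K] [Algebra ℂ K]
  [Algebra (MvPolynomial (Fin n) ℂ) K] [IsFractionRing (MvPolynomial (Fin n) ℂ) K]
  [IsScalarTower ℂ (MvPolynomial (Fin n) ℂ) K]

section

variable (K) in
/-- the field in which the grading parameter lives -/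
abbrev LL : Type := FractionRing (Polynomial K)

variable (K) in
/-- the valuation at the parameter -/
noncomputable def w0 : DVal (LL K) :=
  valP (LL K) (Polynomial.X : Polynomial K) Polynomial.prime_X

variable (K) in
/-- the parameter -/
noncomputable def tt : LL K := algebraMap (Polynomial K) (LL K) Polynomial.X

theorem tt_ne : tt K ≠ 0 := by
  rw [tt, Ne, FaithfulSMul.algebraMap_eq_zero_iff]
  exact Polynomial.X_ne_zero

theorem w0_tt : (w0 K).ord (tt K) = 1 := by
  rw [w0, tt, valP_ord Polynomial.prime_X Polynomial.X_ne_zero, multiplicity_self]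
  rfl

/-- constants in `K` -/
noncomputable def kc : K →+* LL K := (algebraMap (Polynomial K) (LL K)).comp Polynomial.C

theorem kc_alg (c : ℂ) : kc (algebraMap ℂ K c) = algebraMap ℂ (LL K) c := by
  rw [kc, RingHom.comp_apply, IsScalarTower.algebraMap_apply ℂ (Polynomial K) (LL K),
    Polynomial.algebraMap_apply]

/-- the map `y_i ↦ y_i t ^ (u_i)` -/
noncomputable def psi0 (K : Type) [Field K] [Algebra ℂ K]
    [Algebra (MvPolynomial (Fin n) ℂ) K] [IsFractionRing (MvPolynomial (Fin n) ℂ) K]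
    [IsScalarTower ℂ (MvPolynomial (Fin n) ℂ) K] (u : Fin n → ℤ) :
    MvPolynomial (Fin n) ℂ →ₐ[ℂ] LL K :=
  aeval fun i => kc (cv K i) * tt K ^ u i

theorem tt_prod (u : Fin n → ℤ) (s : Fin n →₀ ℕ) :
    (∏ i, (tt K ^ u i) ^ s i) = tt K ^ pr (ex s) u := by
  have key : ∀ S : Finset (Fin n), (∏ i ∈ S, (tt K ^ u i) ^ s i) =
      tt K ^ (∑ i ∈ S, (s i : ℤ) * u i) := by
    intro S
    induction S using Finset.induction_on with
    | empty => simp
    | insert a S ha ih =>
      rw [Finset.prod_insert ha, Finset.sum_insert ha, zpow_add₀ tt_ne, ih]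
      congr 1
      rw [mul_comm, zpow_mul, zpow_natCast]
  exact key Finset.univ

theorem psi0_monomial (u : Fin n → ℤ) (s : Fin n →₀ ℕ) (c : ℂ) :
    psi0 K u (monomial s c) = kc (jo (Fin n) K (monomial s c)) * tt K ^ pr (ex s) u := by
  rw [psi0, aeval_monomial, Finsupp.prod_fintype _ _ (fun i => pow_zero _), jo_monomial, map_mul,
    kc_alg, ← tt_prod, ym, map_prod]
  simp only [mul_pow, Finset.prod_mul_distrib, mul_assoc, ex, zpow_natCast, map_pow]

theorem psi0_ord (u : Fin n → ℤ) {p : MvPolynomial (Fin n) ℂ} (hp : p ≠ 0) :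
    psi0 K u p ≠ 0 ∧ (∃ s ∈ p.support, (w0 K).ord (psi0 K u p) = pr (ex s) u) ∧
      ∀ s ∈ p.support, (w0 K).ord (psi0 K u p) ≤ pr (ex s) u := by
  classical
  obtain ⟨s0, hs0, hmin⟩ := p.support.exists_min_image (fun s => pr (ex s) u)
    (by rwa [Finset.nonempty_iff_ne_empty, Ne, support_eq_empty])
  set k0 := pr (ex s0) u with hk0
  let Q : Polynomial K := ∑ s ∈ p.support,
    Polynomial.C (jo (Fin n) K (monomial s (p.coeff s))) * Polynomial.X ^ (pr (ex s) u - k0).toNat
  have h1 : psi0 K u p = algebraMap (Polynomial K) (LL K) Q * tt K ^ k0 := by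
    conv_lhs => rw [p.as_sum]
    rw [map_sum, map_sum, Finset.sum_mul]
    refine Finset.sum_congr rfl fun s hs => ?_
    rw [psi0_monomial, map_mul, map_pow, mul_assoc]
    congr 1
    change _ = tt K ^ _ * tt K ^ k0
    rw [← zpow_natCast, ← zpow_add₀ tt_ne]
    congr 1
    have := hmin s hs
    omega
  have hQ0 : Q.coeff 0 ≠ 0 := by
    have h2 : Q.coeff 0 = jo (Fin n) K
        (∑ s ∈ p.support with pr (ex s) u = k0, monomial s (p.coeff s)) := by
      rw [map_sum, Finset.sum_filter]
      simp only [Q, Polynomial.finsetSum_coeff]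
      refine Finset.sum_congr rfl fun s hs => ?_
      have h3 := hmin s hs
      by_cases h4 : pr (ex s) u = k0
      · rw [if_pos h4, h4, sub_self, Int.toNat_zero, pow_zero, mul_one, Polynomial.coeff_C_zero]
      · rw [if_neg h4, Polynomial.coeff_C_mul, Polynomial.coeff_X_pow, if_neg, mul_zero]
        omega
    rw [h2]
    apply jo_ne
    intro h5
    have h6 := congrArg (coeff s0) h5
    rw [coeff_sum, Finset.sum_eq_single s0] at h6
    · rw [coeff_monomial, if_pos rfl, coeff_zero] at h6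
      exact (mem_support_iff.1 hs0) h6
    · intro s _ hs
      rw [coeff_monomial, if_neg hs]
    · intro h7
      exact (h7 (Finset.mem_filter.2 ⟨hs0, rfl⟩)).elim
  have hQ : Q ≠ 0 := by
    intro h
    rw [h, Polynomial.coeff_zero] at hQ0
    exact hQ0 rfl
  have hQL : algebraMap (Polynomial K) (LL K) Q ≠ 0 := by
    rw [Ne, FaithfulSMul.algebraMap_eq_zero_iff]
    exact hQ
  have hord : (w0 K).ord (algebraMap (Polynomial K) (LL K) Q) = 0 := by
    rw [w0, valP_ord Polynomial.prime_X hQ, multiplicity_eq_zero.2]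
    · rfl
    · rw [Polynomial.X_dvd_iff]
      exact hQ0
  have h8 : (w0 K).ord (psi0 K u p) = k0 := by
    rw [h1, (w0 K).map_mul _ _ hQL (zpow_ne_zero _ tt_ne), hord, (w0 K).ord_zpow tt_ne, w0_tt]
    ring
  refine ⟨by rw [h1]; exact mul_ne_zero hQL (zpow_ne_zero _ tt_ne), ⟨s0, hs0, h8⟩, ?_⟩
  intro s hs
  rw [h8]
  exact hmin s hs

/-- the extension to the function field -/
noncomputable def psi (K : Type) [Field K] [Algebra ℂ K]
    [Algebra (MvPolynomial (Fin n) ℂ) K] [IsFractionRing (MvPolynomial (Fin n) ℂ) K]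
    [IsScalarTower ℂ (MvPolynomial (Fin n) ℂ) K] (u : Fin n → ℤ) : K →+* LL K :=
  IsFractionRing.lift (g := (psi0 K u : MvPolynomial (Fin n) ℂ →+* LL K))
    (by
      rw [injective_iff_map_eq_zero]
      intro p h
      by_contra hp
      exact (psi0_ord (K := K) u hp).1 h)

theorem psi_jo (u : Fin n → ℤ) (p : MvPolynomial (Fin n) ℂ) :
    psi K u (jo (Fin n) K p) = psi0 K u p := by
  rw [psi, jo_apply, IsFractionRing.lift_algebraMap]
  rfl

theorem exists_mon {u : Fin n → ℤ} (hu : Prim u) :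
    ∃ v : DVal K, IsMonomial n v ∧ (tv v : Fin n → ℤ) = u := by
  have hne : ∀ f : K, f ≠ 0 → psi K u f ≠ 0 := fun f hf => (map_ne_zero _).2 hf
  have hcv : ∀ i, (w0 K).ord (psi K u (cv K i)) = u i := by
    intro i
    rw [cv, psi_jo]
    obtain ⟨s, hs, h1⟩ := (psi0_ord (K := K) u (X_ne_zero i)).2.1
    rw [support_X, Finset.mem_singleton] at hs
    rw [h1, hs, pr, Finset.sum_eq_single i]
    · simp [ex]
    · intro j _ hj
      simp [ex, hj.symm]
    · intro h; exact absurd (Finset.mem_univ _) h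
  have hym : ∀ m : Fin n → ℤ, (w0 K).ord (psi K u (ym K m)) = pr m u := by
    intro m
    rw [ym, map_prod, (w0 K).ord_prod _ _ fun i _ => hne _ (zpow_ne_zero _ (cv_ne i)), pr]
    refine Finset.sum_congr rfl fun i _ => ?_
    rw [map_zpow₀, (w0 K).ord_zpow (hne _ (cv_ne i)), hcv]
  let v : DVal K :=
    { ord := fun f => (w0 K).ord (psi K u f)
      map_mul := fun f g hf hg => by rw [map_mul, (w0 K).map_mul _ _ (hne f hf) (hne g hg)]
      map_add := fun f g hf hg hfg => by
        rw [map_add]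
        exact (w0 K).map_add _ _ (hne f hf) (hne g hg) (by rw [← map_add]; exact hne _ hfg)
      surj := by
        obtain ⟨m, hm⟩ := hu
        exact ⟨ym K m, ym_ne m, by rw [hym, hm]⟩
      const := fun c hc => by
        have h1 : algebraMap ℂ K c = jo (Fin n) K (C c) := (jo_C c).symm
        rw [h1, psi_jo, psi0, aeval_C]
        exact (w0 K).const c hc }
  have htv : (tv v : Fin n → ℤ) = u := funext hcv
  refine ⟨v, fun p hp => ?_, htv⟩
  rw [htv]
  have h2 : v.ord (jo (Fin n) K p) = (w0 K).ord (psi0 K u p) := by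
    change (w0 K).ord (psi K u (jo (Fin n) K p)) = _
    rw [psi_jo]
  rw [h2]
  exact (psi0_ord u hp).2

end

end Pool.Agent.TH165.ACC
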