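import Mathlib
import Pool.Agent.TH165.ACC.Cano
import Pool.Agent.TH165.ACC.Exis

/-!
# Toric germs
-/

set_option autoImplicit false
set_option linter.unusedSectionVars false

namespace Pool.Agent.TH165.ACC

open Pool.Agent.H436R3.Fol Pool.Agent.H436R3.KT Pool.Agent.W497.Mld MvPolynomial

variable {n : ℕ} {K : Type} [Field K] [Algebra ℂ K]
  [Algebra (MvPolynomial (Fin n) ℂ) K] [IsFractionRing (MvPolynomial (Fin n) ℂ) K]
  [IsScalarTower ℂ (MvPolynomial (Fin n) ℂ) K]

/-- the monomials which are regular on the toric variety of the cone with the rays `E i` -/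
def Cn {N : ℕ} (E : Fin N → Fin n → ℤ) : Set (Fin n → ℤ) := {m | ∀ i, 0 ≤ pr m (E i)}

/-- An affine toric variety `X` of dimension `n` with a fixed point `P`: `X` is the toric variety of
the strictly convex cone of dimension `n` whose edges are spanned by the primitive vectors
`E 1, ..., E N`. The canonical divisor is the one of the toric `n`-form
`dy_1 / y_1 ∧ ... ∧ dy_n / y_n`. -/
structure ToricGerm (n : ℕ) (K : Type) [Field K] [Algebra ℂ K]
    [Algebra (MvPolynomial (Fin n) ℂ) K] [IsFractionRing (MvPolynomial (Fin n) ℂ) K]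
    [IsScalarTower ℂ (MvPolynomial (Fin n) ℂ) K] where
  N : ℕ
  /-- the primitive generators of the edges of the cone -/
  E : Fin N → Fin n → ℤ
  prim : ∀ i, Prim (E i)
  /-- `E i` spans an edge: a face of the cone of dimension one -/
  edge : ∀ i, ∃ Q : Fin n → ℤ, pr Q (E i) = 0 ∧ ∀ j, j ≠ i → 0 < pr Q (E j)
  /-- the cone is strictly convex -/
  pointed : ∃ Q : Fin n → ℤ, ∀ j, 0 < pr Q (E j)
  /-- the cone has dimension `n` -/
  full : ∀ m : Fin n → ℤ, (∀ i, pr m (E i) = 0) → m = 0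
  X : AffVar K
  hR : X.R = LA K (Cn E)
  e : Fin X.d ≃ Fin n
  hT : ∀ i, X.T.D i = tor K (e i)
  P : Pt X
  hP : ∀ f : X.R, ∀ m ∈ Cn E, m ≠ 0 → (f : K) = ym K m → P f = 0

theorem Cn_add {N : ℕ} {E : Fin N → Fin n → ℤ} {m m' : Fin n → ℤ} (h : m ∈ Cn E)
    (h' : m' ∈ Cn E) : m + m' ∈ Cn E := fun i => by rw [pr_add]; exact add_nonneg (h i) (h' i)

theorem Cn_zero {N : ℕ} {E : Fin N → Fin n → ℤ} : (0 : Fin n → ℤ) ∈ Cn E :=
  fun i => by rw [pr_zero]

/-- clearing denominators -/
theorem clear {N : ℕ} {E : Fin N → Fin n → ℤ} (Q : Fin n → ℤ) (T : Finset (Fin n → ℤ)) :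
    ∃ Q' : Fin n → ℤ, (∀ j, pr Q (E j) = 0 → pr Q' (E j) = 0) ∧
      ∀ s ∈ T, ∀ j, 0 < pr Q (E j) → 0 ≤ pr (s + Q') (E j) := by
  classical
  obtain ⟨M, hM⟩ := ((T ×ˢ Finset.univ).image fun p : (Fin n → ℤ) × Fin N =>
    -pr p.1 (E p.2)).exists_le
  refine ⟨(max M 0) • Q, fun j hj => by rw [pr_smul, hj, mul_zero], ?_⟩
  intro s hs j hj
  have h1 : -pr s (E j) ≤ M := hM _ (Finset.mem_image.2 ⟨(s, j), by simp [hs], rfl⟩)
  rw [pr_add, pr_smul]
  have h4 : M ≤ max M 0 := le_max_left _ _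
  have h5 : 0 ≤ max M 0 := le_max_right _ _
  nlinarith

namespace ToricGerm

variable (g : ToricGerm n K)

theorem span_eq : Subalgebra.toSubmodule g.X.R = Submodule.span ℂ (ym K '' Cn g.E) := by
  rw [g.hR, LA, Algebra.adjoin_eq_span]
  congr 1
  apply subset_antisymm _ Submonoid.subset_closure
  intro x hx
  induction hx using Submonoid.closure_induction with
  | mem x hx => exact hx
  | one => exact ⟨0, Cn_zero, ym_zero⟩
  | mul x y _ _ hx hy =>
    obtain ⟨m, hm, rfl⟩ := hx
    obtain ⟨m', hm', rfl⟩ := hy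
    exact ⟨m + m', Cn_add hm hm', ym_add _ _⟩

/-- functions on `X` as Laurent polynomials -/
theorem rep (f : g.X.R) : ∃ (M : Fin n →₀ ℕ) (h : MvPolynomial (Fin n) ℂ),
    (f : K) * ym K (ex M) = jo (Fin n) K h ∧ h.coeff M = g.P f ∧
      ∀ s ∈ h.support, ex s - ex M ∈ Cn g.E := by
  have key : ∀ x : K, x ∈ Submodule.span ℂ (ym K '' Cn g.E) → ∀ hx : x ∈ g.X.R,
      ∃ (M : Fin n →₀ ℕ) (h : MvPolynomial (Fin n) ℂ), x * ym K (ex M) = jo (Fin n) K h ∧
        h.coeff M = g.P ⟨x, hx⟩ ∧ ∀ s ∈ h.support, ex s - ex M ∈ Cn g.E := by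
    intro x hx
    have hmem : ∀ y, y ∈ Submodule.span ℂ (ym K '' Cn g.E) → y ∈ g.X.R := by
      intro y hy
      rw [← g.span_eq] at hy
      exact hy
    induction hx using Submodule.span_induction with
    | mem x hx =>
      intro hx'
      obtain ⟨m, hm, rfl⟩ := hx
      obtain ⟨s, t, hst⟩ := exists_nat_ex m
      refine ⟨t, monomial s 1, ?_, ?_, ?_⟩
      · rw [← ym_ex, ← ym_add, hst, sub_add_cancel]
      · rw [coeff_monomial]
        by_cases h0 : m = 0
        · have h1 : s = t := ex_inj (by rw [h0] at hst; exact (sub_eq_zero.1 hst.symm))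
          rw [if_pos h1]
          have h2 : (⟨ym K m, hx'⟩ : g.X.R) = 1 := by
            apply Subtype.ext
            change ym K m = 1
            rw [h0, ym_zero]
          rw [h2, map_one]
        · rw [if_neg, g.hP _ m hm h0 rfl]
          rintro rfl
          exact h0 (by rw [hst, sub_self])
      · intro r hr
        have : r = s := by
          have := support_monomial_subset hr
          simpa using this
        rw [this, ← hst]
        exact hm
    | zero =>
      intro hx'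
      refine ⟨0, 0, by rw [zero_mul, map_zero], ?_, by simp⟩
      rw [coeff_zero]
      exact (map_zero g.P).symm
    | add x y hx hy ihx ihy =>
      intro hxy
      obtain ⟨M1, h1, e1, c1, s1⟩ := ihx (hmem x hx)
      obtain ⟨M2, h2, e2, c2, s2⟩ := ihy (hmem y hy)
      refine ⟨M1 + M2, h1 * monomial M2 1 + h2 * monomial M1 1, ?_, ?_, ?_⟩
      · rw [map_add, map_mul, map_mul, ← ym_ex, ← ym_ex, ← e1, ← e2, ex_add, ym_add]
        ring
      · rw [coeff_add, coeff_mul_monomial, add_comm M1 M2, coeff_mul_monomial, mul_one, mul_one,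
          c1, c2, ← map_add]
        rfl
      · intro s hs
        have h3 := support_add hs
        rw [Finset.mem_union] at h3
        rcases h3 with h3 | h3
        · rw [mem_support_iff, coeff_mul_monomial'] at h3
          by_cases h4 : M2 ≤ s
          · rw [if_pos h4, mul_one] at h3
            have h5 := s1 _ (mem_support_iff.2 h3)
            have h6 : ex s = ex (s - M2) + ex M2 := by
              rw [← ex_add, tsub_add_cancel_of_le h4]
            rw [h6, ex_add]
            convert h5 using 1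
            abel
          · rw [if_neg h4] at h3
            exact absurd rfl h3
        · rw [mem_support_iff, coeff_mul_monomial'] at h3
          by_cases h4 : M1 ≤ s
          · rw [if_pos h4, mul_one] at h3
            have h5 := s2 _ (mem_support_iff.2 h3)
            have h6 : ex s = ex (s - M1) + ex M1 := by
              rw [← ex_add, tsub_add_cancel_of_le h4]
            rw [h6, ex_add]
            convert h5 using 1
            abel
          · rw [if_neg h4] at h3
            exact absurd rfl h3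
    | smul a x hx ihx =>
      intro hax
      obtain ⟨M, h, e, c, s⟩ := ihx (hmem x hx)
      refine ⟨M, a • h, ?_, ?_, ?_⟩
      · rw [map_smul, ← e, smul_mul_assoc]
      · rw [coeff_smul, c, ← map_smul]
        rfl
      · intro r hr
        exact s r (support_smul hr)
  exact key f (by rw [← g.span_eq]; exact f.2) f.2

/-- `u` lies in the cone -/
def InCone (u : Fin n → ℤ) : Prop := ∀ m ∈ Cn g.E, 0 ≤ pr m u

/-- `u` lies in the interior of the cone -/
def Inter (u : Fin n → ℤ) : Prop := ∀ m ∈ Cn g.E, m ≠ 0 → 0 < pr m u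

variable {g}

theorem Inter.inCone {u : Fin n → ℤ} (h : g.Inter u) : g.InCone u := by
  intro m hm
  by_cases h0 : m = 0
  · rw [h0, pr_zero]
  · exact (h m hm h0).le

theorem inCone_E (i : Fin g.N) : g.InCone (g.E i) := fun _ hm => hm i

theorem R_le {v : DVal K} (h : g.InCone (tv v)) : g.X.R ≤ LA K (Hs (tv v : Fin n → ℤ)) := by
  rw [g.hR]
  exact LA_mono fun m hm => h m hm

theorem ord_zero_of_ne {v : DVal K} (hv : IsMonomial n v) (h : g.InCone (tv v)) {f : g.X.R}
    (hf : g.P f ≠ 0) : (f : K) ≠ 0 ∧ v.ord (f : K) = 0 := by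
  have hf0 : (f : K) ≠ 0 := by
    intro h0
    apply hf
    have : f = 0 := Subtype.ext h0
    rw [this, map_zero]
  obtain ⟨M, p, h1, h2, h3⟩ := g.rep f
  refine ⟨hf0, ?_⟩
  have hp : p ≠ 0 := by
    rintro rfl
    rw [coeff_zero] at h2
    exact hf h2.symm
  have h4 := (hv p hp).2 M (mem_support_iff.2 (by rw [h2]; exact hf))
  rw [← h1, v.map_mul _ _ hf0 (ym_ne _), ord_ym] at h4
  have h5 := v.ord_nonneg hf0 ((local_Hs hv).1 _ (R_le h f.2))
  omega

theorem pos_iff {v : DVal K} (hv : IsMonomial n v) (h : g.Inter (tv v)) (f : g.X.R) :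
    v.Pos (f : K) ↔ g.P f = 0 := by
  constructor
  · intro hp
    by_contra hf
    obtain ⟨h1, h2⟩ := ord_zero_of_ne hv h.inCone hf
    rcases hp with hp | hp
    · exact h1 hp
    · omega
  · intro hf
    by_cases hf0 : (f : K) = 0
    · exact Or.inl hf0
    right
    obtain ⟨M, p, h1, h2, h3⟩ := g.rep f
    have hp : p ≠ 0 := by
      rintro rfl
      rw [map_zero] at h1
      exact mul_ne_zero hf0 (ym_ne _) h1
    obtain ⟨s, hs, h4⟩ := (hv p hp).1
    rw [← h1, v.map_mul _ _ hf0 (ym_ne _), ord_ym] at h4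
    have hsM : ex s - ex M ≠ 0 := by
      intro h5
      have := ex_inj (sub_eq_zero.1 h5)
      rw [this, mem_support_iff, h2] at hs
      exact hs hf
    have h6 := h _ (h3 s hs) hsM
    rw [pr_sub] at h6
    omega

/-- monomial valuations with weights in the interior of the cone are over the germ -/
theorem overGerm {v : DVal K} (hv : IsMonomial n v) (h : g.Inter (tv v)) : IsOverGerm g.P v :=
  ⟨⟨_, fg_Hs (prim_of_mon hv), R_le h.inCone, local_Hs hv⟩, pos_iff hv h⟩

theorem inter_of_over {v : DVal K} (h : IsOverGerm g.P v) : g.Inter (tv v) := by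
  intro m hm hm0
  have hmem : ym K m ∈ g.X.R := by
    rw [g.hR]
    exact ym_mem_LA hm
  have h1 := (h.2 ⟨ym K m, hmem⟩).2 (g.hP _ m hm hm0 rfl)
  rcases h1 with h1 | h1
  · exact absurd h1 (ym_ne _)
  · rw [← ord_ym (n := n)]
    exact h1

/-- the toric prime divisors -/
theorem local_E {v : DVal K} (hv : IsMonomial n v) {i : Fin g.N} (h : (tv v : Fin n → ℤ) = g.E i) :
    IsLocalRing' g.X.R v := by
  classical
  have hL := local_Hs hv
  refine ⟨fun f hf => hL.1 f (R_le (g := g) (by rw [h]; exact inCone_E i) hf), fun f hf => ?_⟩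
  by_cases hf0 : f = 0
  · exact ⟨0, 1, zero_mem _, one_mem _, one_ne_zero, v.ord_one, by rw [hf0, zero_mul]⟩
  obtain ⟨m1, hm1⟩ := prim_of_mon hv
  obtain ⟨a, b, hb, rfl⟩ := exists_frac (MvPolynomial (Fin n) ℂ) f
  have ha : a ≠ 0 := by rintro rfl; simp at hf0
  rw [← jo_apply, ← jo_apply] at hf hf0 ⊢
  have h1 : v.ord (jo (Fin n) K b) ≤ v.ord (jo (Fin n) K a) := by
    have := v.ord_nonneg hf0 hf
    rw [v.ord_div (jo_ne ha) (jo_ne hb)] at this
    omega
  set k := v.ord (jo (Fin n) K b) with hk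
  obtain ⟨Qi, hQi0, hQi1⟩ := g.edge i
  obtain ⟨Q, hQ0, hQ⟩ := clear (E := g.E) Qi
    ((a.support ∪ b.support).image fun s => ex s + -(k • m1))
  have hQi : pr Q (g.E i) = 0 := hQ0 i hQi0
  have hmem : ∀ s ∈ a.support ∪ b.support, k ≤ pr (ex s) (tv v) →
      ex s + (-(k • m1) + Q) ∈ Cn g.E := by
    intro s hs hks j
    by_cases hj : j = i
    · subst hj
      rw [h] at hks hm1
      rw [pr_add, pr_add, pr_neg, pr_smul, hm1, hQi]
      omega
    · have := hQ (ex s + -(k • m1)) (Finset.mem_image.2 ⟨s, hs, rfl⟩) j (hQi1 j hj)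
      rwa [add_assoc] at this
  rw [g.hR]
  refine ⟨jo (Fin n) K a * ym K (-(k • m1) + Q), jo (Fin n) K b * ym K (-(k • m1) + Q),
    ?_, ?_, ?_, ?_, ?_⟩
  · apply jo_mul_mem_LA
    intro s hs
    exact hmem s (Finset.mem_union_left _ hs) (h1.trans ((hv a ha).2 s hs))
  · apply jo_mul_mem_LA
    intro s hs
    exact hmem s (Finset.mem_union_right _ hs) ((hv b hb).2 s hs)
  · exact mul_ne_zero (jo_ne hb) (ym_ne _)
  · rw [v.map_mul _ _ (jo_ne hb) (ym_ne _), ord_ym, pr_add, pr_neg, pr_smul, hm1, ← hk, h, hQi]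
    omega
  · have h0 : jo (Fin n) K b ≠ 0 := jo_ne hb
    field_simp

theorem onAt_E {v : DVal K} (hv : IsMonomial n v) {i : Fin g.N} (h : (tv v : Fin n → ℤ) = g.E i) :
    OnAt g.P v := by
  refine ⟨local_E hv h, fun f hf => ?_⟩
  by_contra h0
  obtain ⟨h1, h2⟩ := ord_zero_of_ne hv (by rw [h]; exact inCone_E i) h0
  rcases hf with hf | hf
  · exact h1 hf
  · omega

/-- the prime divisors which meet the torus -/
theorem local_prime (g : ToricGerm n K) {p : MvPolynomial (Fin n) ℂ} (hp : Prime p)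
    (h0 : ∀ i : Fin n, (valP K p hp).ord (cv K i) = 0) : IsLocalRing' g.X.R (valP K p hp) := by
  classical
  set v := valP K p hp with hv
  have htv : (tv v : Fin n → ℤ) = 0 := funext h0
  have hym : ∀ m : Fin n → ℤ, v.ord (ym K m) = 0 := by
    intro m
    rw [ord_ym, htv, pr]
    simp
  rw [g.hR]
  refine ⟨fun f hf => reg_LA (C := Cn g.E) (fun m _ => by rw [← ord_ym, hym]) hf, fun f hf => ?_⟩
  obtain ⟨a, b, hb, hpb, rfl⟩ := exists_frac_of_reg hp hf
  obtain ⟨Q0, hQ0⟩ := g.pointed
  obtain ⟨Q, -, hQ⟩ := clear (E := g.E) Q0 ((a.support ∪ b.support).image fun s => ex s)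
  rw [← jo_apply, ← jo_apply]
  refine ⟨jo (Fin n) K a * ym K Q, jo (Fin n) K b * ym K Q, ?_, ?_, ?_, ?_, ?_⟩
  · apply jo_mul_mem_LA
    intro s hs j
    exact hQ _ (Finset.mem_image.2 ⟨s, Finset.mem_union_left _ hs, rfl⟩) j (hQ0 j)
  · apply jo_mul_mem_LA
    intro s hs j
    exact hQ _ (Finset.mem_image.2 ⟨s, Finset.mem_union_right _ hs, rfl⟩) j (hQ0 j)
  · exact mul_ne_zero (jo_ne hb) (ym_ne _)
  · have h1 : v.ord (jo (Fin n) K b) = (multiplicity p b : ℤ) := valP_ord hp hb
    rw [v.map_mul _ _ (jo_ne hb) (ym_ne _), hym, h1, multiplicity_eq_zero.2 hpb]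
    rfl
  · have h0 : jo (Fin n) K b ≠ 0 := jo_ne hb
    field_simp

end ToricGerm

end Pool.Agent.TH165.ACC
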