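import Mathlib
import Pool.Agent.TH152.AC.Farkas
import Pool.Agent.TH165.ACC.Germ

/-!
# Farkas and Caratheodory for rational cones
-/

set_option autoImplicit false
set_option linter.unusedSectionVars false

namespace Pool.Agent.TH165.ACC

variable {n : ℕ}

/-- Caratheodory's theorem for cones -/
theorem carath {N : ℕ} (E : Fin N → Fin n → ℤ) (u : Fin n → ℤ) (w : Fin N → ℚ)
    (hw : ∀ i, 0 ≤ w i) (hsum : ∀ k, ∑ i, w i * (E i k : ℚ) = u k) :
    ∃ (d : ℕ) (a : Fin d → Fin N) (w' : Fin d → ℚ), (∀ i, 0 < w' i) ∧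
      (∀ k, ∑ i, w' i * (E (a i) k : ℚ) = u k) ∧
      LinearIndependent ℚ fun (i : Fin d) (k : Fin n) => (E (a i) k : ℚ) := by
  classical
  induction hc : (Finset.univ.filter fun i => w i ≠ 0).card using Nat.strong_induction_on
    generalizing w with
  | _ c ih =>
  by_cases hli : LinearIndependent ℚ fun (i : {i // w i ≠ 0}) (k : Fin n) => (E i.1 k : ℚ)
  · let φ : Fin (Fintype.card {i // w i ≠ 0}) ≃ {i // w i ≠ 0} := (Fintype.equivFin _).symm
    refine ⟨_, fun j => (φ j).1, fun j => w (φ j).1, fun j => ?_, fun k => ?_, ?_⟩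
    · exact lt_of_le_of_ne (hw _) (Ne.symm (φ j).2)
    · rw [φ.sum_comp fun i : {i // w i ≠ 0} => w i.1 * (E i.1 k : ℚ), ← hsum k]
      rw [← Finset.sum_subtype (Finset.univ.filter fun i => w i ≠ 0) (by simp)
        fun i => w i * (E i k : ℚ)]
      refine Finset.sum_filter_of_ne fun i _ h => ?_
      exact left_ne_zero_of_mul h
    · exact hli.comp φ φ.injective
  · rw [Fintype.not_linearIndependent_iff] at hli
    obtain ⟨g, hg, i1, hi1⟩ := hli
    -- a dependency with a positive coefficient
    obtain ⟨l, hl, hl0, i2, hi2⟩ : ∃ l : Fin N → ℚ, (∀ k, ∑ i, l i * (E i k : ℚ) = 0) ∧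
        (∀ i, w i = 0 → l i = 0) ∧ ∃ i, 0 < l i := by
      let l : Fin N → ℚ := fun i => if h : w i ≠ 0 then g ⟨i, h⟩ else 0
      have hl : ∀ k, ∑ i, l i * (E i k : ℚ) = 0 := by
        intro k
        have h1 := congrFun hg k
        rw [Finset.sum_apply] at h1
        have h2 : ∑ i : {i // w i ≠ 0}, (g i • fun k : Fin n => (E i.1 k : ℚ)) k =
            ∑ i : {i // w i ≠ 0}, l i.1 * (E i.1 k : ℚ) := by
          refine Finset.sum_congr rfl fun i _ => ?_
          rw [Pi.smul_apply, smul_eq_mul]
          congr 1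
          simp only [l]
          rw [dif_pos i.2]
        rw [h2, ← Finset.sum_subtype (Finset.univ.filter fun i => w i ≠ 0) (by simp)
          fun i => l i * (E i k : ℚ), Pi.zero_apply] at h1
        rw [← h1]
        symm
        refine Finset.sum_filter_of_ne fun i _ h => ?_
        intro h3
        apply h
        simp [l, h3]
      have hl0 : ∀ i, w i = 0 → l i = 0 := fun i h => by simp [l, h]
      have hli1 : l i1.1 ≠ 0 := by
        simp only [l]
        rw [dif_pos i1.2]
        exact hi1
      rcases lt_or_gt_of_ne hli1 with h | h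
      · exact ⟨fun i => -l i, fun k => by
          simp only [neg_mul, Finset.sum_neg_distrib, hl k, neg_zero],
          fun i hi => by change -l i = 0; rw [hl0 i hi, neg_zero], i1.1, by simpa using h⟩
      · exact ⟨l, hl, hl0, i1.1, h⟩
    obtain ⟨i0, hi0, hmin⟩ := (Finset.univ.filter fun i => 0 < l i).exists_min_image
      (fun i => w i / l i) ⟨i2, by simp [hi2]⟩
    have hi0' : 0 < l i0 := (Finset.mem_filter.1 hi0).2
    set t : ℚ := w i0 / l i0 with ht
    have ht0 : 0 ≤ t := div_nonneg (hw _) hi0'.le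
    have hw' : ∀ i, 0 ≤ w i - t * l i := by
      intro i
      rcases lt_or_ge 0 (l i) with h | h
      · have := hmin i (by simp [h])
        have h2 : t * l i ≤ w i := by
          rw [← le_div_iff₀ h]
          exact this
        linarith
      · have := mul_nonpos_of_nonneg_of_nonpos ht0 h
        have := hw i
        linarith
    have hwi0 : w i0 ≠ 0 := fun h => by
      have := hl0 i0 h
      exact hi0'.ne' this
    have hlt : (Finset.univ.filter fun i => w i - t * l i ≠ 0).card < c := by
      rw [← hc]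
      apply Finset.card_lt_card
      rw [Finset.ssubset_iff_of_subset]
      · refine ⟨i0, by simp [hwi0], ?_⟩
        simp only [Finset.mem_filter, Finset.mem_univ, true_and, not_not]
        rw [ht, div_mul_cancel₀ _ hi0'.ne', sub_self]
      · intro i hi
        simp only [Finset.mem_filter, Finset.mem_univ, true_and] at hi ⊢
        intro h
        apply hi
        rw [h, hl0 i h, mul_zero, sub_zero]
    refine ih _ hlt (fun i => w i - t * l i) hw' (fun k => ?_) rfl
    have h5 : ∑ i, (w i - t * l i) * (E i k : ℚ) =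
        ∑ i, w i * (E i k : ℚ) - t * ∑ i, l i * (E i k : ℚ) := by
      rw [Finset.mul_sum, ← Finset.sum_sub_distrib]
      exact Finset.sum_congr rfl fun i _ => by ring
    rw [h5, hl k, hsum k, mul_zero, sub_zero]

/-- common denominators -/
theorem exists_denom {ι : Type} [Fintype ι] (q : ι → ℚ) :
    ∃ D : ℤ, 0 < D ∧ ∀ i, ∃ z : ℤ, (D : ℚ) * q i = z := by
  classical
  refine ⟨∏ i, ((q i).den : ℤ), Finset.prod_pos fun i _ => by exact_mod_cast (q i).pos, ?_⟩
  intro i
  refine ⟨(∏ j ∈ Finset.univ.erase i, ((q j).den : ℤ)) * (q i).num, ?_⟩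
  rw [← Finset.prod_erase_mul _ _ (Finset.mem_univ i)]
  push_cast
  rw [mul_assoc]
  congr 1
  rw [mul_comm]
  exact Rat.mul_den_eq_num (q i)

/-- dual vectors -/
def DualVec {d : ℕ} (A : Fin d → Fin n → ℤ) (D : ℤ) : Prop :=
  0 < D ∧ ∀ i, ∃ Q : Fin n → ℤ, ∀ j, pr Q (A j) = if j = i then D else 0

theorem exists_dual {d : ℕ} {A : Fin d → Fin n → ℤ}
    (h : LinearIndependent ℚ fun (i : Fin d) (k : Fin n) => (A i k : ℚ)) :
    ∃ D : ℤ, DualVec A D := by
  classical
  let v : Fin d → Fin n → ℚ := fun i k => (A i k : ℚ)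
  let φ : (Fin d → ℚ) →ₗ[ℚ] (Fin n → ℚ) := Fintype.linearCombination ℚ v
  have hφ : LinearMap.ker φ = ⊥ := by
    rw [LinearMap.ker_eq_bot]
    exact linearIndependent_iff_injective_fintypeLinearCombination.1 h
  obtain ⟨L, hL⟩ := φ.exists_leftInverse_of_injective hφ
  obtain ⟨D, hD, hz⟩ := exists_denom fun p : Fin n × Fin d => L (Pi.single p.1 1) p.2
  choose z hz using hz
  refine ⟨D, hD, fun i => ⟨fun k => z (k, i), fun j => ?_⟩⟩
  have h1 : L (v j) = Pi.single j 1 := by
    have h2 : φ (Pi.single j 1) = v j := by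
      simp only [φ]
      rw [Fintype.linearCombination_apply_single, one_smul]
    rw [← h2]
    have := LinearMap.congr_fun hL (Pi.single j 1)
    simpa using this
  have h3 : (pr (fun k => z (k, i)) (A j) : ℚ) = D * L (v j) i := by
    have h4 : v j = ∑ k, (A j k : ℚ) • (Pi.single k 1 : Fin n → ℚ) := by
      funext k
      rw [Finset.sum_apply, Finset.sum_eq_single k]
      · simp [v]
      · intro b _ hb
        simp [hb.symm]
      · intro h; exact absurd (Finset.mem_univ _) h
    rw [h4, map_sum, Finset.sum_apply, Finset.mul_sum, pr]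
    push_cast
    refine Finset.sum_congr rfl fun k _ => ?_
    rw [← hz (k, i), map_smul, Pi.smul_apply, smul_eq_mul]
    ring
  rw [h1] at h3
  by_cases hij : j = i
  · subst hij
    rw [if_pos rfl]
    rw [Pi.single_eq_same, mul_one] at h3
    exact_mod_cast h3
  · rw [if_neg hij]
    rw [Pi.single_eq_of_ne (Ne.symm hij), mul_zero] at h3
    exact_mod_cast h3

/-- Farkas' lemma and Caratheodory's theorem: a vector in the cone is a positive combination of
linearly independent rays. -/
theorem exists_simplex {N : ℕ} {E : Fin N → Fin n → ℤ} {u : Fin n → ℤ}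
    (hu : ∀ m ∈ Cn E, 0 ≤ pr m u) : ∃ (d : ℕ) (a : Fin d → Fin N) (w : Fin d → ℝ),
      (∀ i, 0 < w i) ∧ (∀ k, ∑ i, w i * (E (a i) k : ℝ) = u k) ∧
      ∃ D : ℤ, DualVec (fun i => E (a i)) D := by
  classical
  let ev : (Fin n → ℤ) → ((Fin n → ℚ) →ₗ[ℚ] ℚ) := fun x =>
    ∑ k, (x k : ℚ) • (LinearMap.proj k : (Fin n → ℚ) →ₗ[ℚ] ℚ)
  have hev : ∀ x (q : Fin n → ℚ), ev x q = ∑ k, (x k : ℚ) * q k := by
    intro x q
    simp only [ev]
    rw [LinearMap.sum_apply]
    exact Finset.sum_congr rfl fun k _ => by simp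
  obtain ⟨w, hw, hwu⟩ := Pool.Agent.TH152.AC.farkas_q N (fun i => -ev (E i)) (-ev u) (by
    intro q hq
    obtain ⟨D, hD, hz⟩ := exists_denom q
    choose z hz using hz
    have hD' : (0 : ℚ) < D := by exact_mod_cast hD
    have key : ∀ x : Fin n → ℤ, (pr z x : ℚ) = D * ev x q := by
      intro x
      rw [hev, Finset.mul_sum, pr]
      push_cast
      exact Finset.sum_congr rfl fun k _ => by rw [← hz k]; ring
    have h1 : z ∈ Cn E := by
      intro i
      have h2 := hq i
      rw [LinearMap.neg_apply] at h2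
      have h3 : (0 : ℚ) ≤ pr z (E i) := by
        rw [key]
        exact mul_nonneg hD'.le (by linarith)
      exact_mod_cast h3
    have h4 := hu z h1
    have h5 : (0 : ℚ) ≤ D * ev u q := by
      rw [← key]
      exact_mod_cast h4
    rw [LinearMap.neg_apply]
    have h6 := (mul_nonneg_iff_of_pos_left hD').1 h5
    linarith)
  have hsum : ∀ k, ∑ i, w i * (E i k : ℚ) = u k := by
    intro k
    have h1 := hwu (Pi.single k 1)
    have h2 : ∀ x : Fin n → ℤ, ev x (Pi.single k 1) = x k := by
      intro x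
      rw [hev, Finset.sum_eq_single k]
      · simp
      · intro b _ hb
        simp [hb]
      · intro h; exact absurd (Finset.mem_univ _) h
    simp only [LinearMap.neg_apply, h2] at h1
    simp only [mul_neg, Finset.sum_neg_distrib] at h1
    linarith
  obtain ⟨d, a, w', hw', hs', hli⟩ := carath E u w hw hsum
  refine ⟨d, a, fun i => (w' i : ℝ), fun i => ?_, fun k => ?_, exists_dual hli⟩
  · change (0 : ℝ) < (w' i : ℝ)
    exact_mod_cast hw' i
  · have := hs' k
    change ∑ i, (w' i : ℝ) * _ = _
    exact_mod_cast this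

end Pool.Agent.TH165.ACC
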