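import Pool.Agent.TH165.ACC.Torus

/-!
# The ascending chain condition for minimal log discrepancies of monomial pairs
-/

set_option autoImplicit false

namespace Pool.Agent.TH165.ACC

open Filter Topology UnitAddTorus Set

variable {n : ℕ}

/-- every non-increasing sequence in `Γ` is eventually constant -/
def IsDCC (Γ : Set ℝ) : Prop :=
  ∀ u : ℕ → ℝ, Antitone u → (∀ k, u k ∈ Γ) → ∃ K, ∀ k ≥ K, u k = u K

/-- every non-decreasing sequence in `Γ` is eventually constant -/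
def IsACC (Γ : Set ℝ) : Prop :=
  ∀ u : ℕ → ℝ, Monotone u → (∀ k, u k ∈ Γ) → ∃ K, ∀ k ≥ K, u k = u K

/-- The order, along the monomial valuation with weights `w`, of an ideal or a polynomial whose set of
monomials is `S`: the least value of `∑ m i * w i`, `m ∈ S`. -/
noncomputable def ordAlong (S : Set (Fin n → ℕ)) (w : Fin n → ℝ) : ℝ :=
  sInf ((fun m : Fin n → ℕ => ∑ i, (m i : ℝ) * w i) '' S)

/-- log discrepancy of the monomial valuation with weights `w` -/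
noncomputable def logDisc {r : ℕ} (S : Fin r → Set (Fin n → ℕ)) (c : Fin r → ℝ)
    (w : Fin n → ℝ) : ℝ :=
  ∑ i, w i - ∑ j, c j * ordAlong (S j) w

/-- `a` is the greatest lower bound of the log discrepancies of the monomial valuations with centre
the image of the origin in the quotient by `G` -/
def IsMld {r : ℕ} (G : AddSubgroup (Fin n → UnitAddCircle)) (S : Fin r → Set (Fin n → ℕ))
    (c : Fin r → ℝ) (a : ℝ) : Prop :=
  IsGLB {t | ∃ w : Fin n → ℝ, (∀ i, 0 < w i) ∧ (fun i => (w i : UnitAddCircle)) ∈ G ∧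
    t = logDisc S c w} a

/-- mlds with exactly `r` ideals -/
def mldsR (n r : ℕ) (Γ : Set ℝ) : Set ℝ :=
  {a | ∃ (G : AddSubgroup (Fin n → UnitAddCircle)) (S : Fin r → Set (Fin n → ℕ)) (c : Fin r → ℝ),
    Finite G ∧ (∀ j, (S j).Nonempty ∧ 0 ∉ S j ∧ c j ∈ Γ ∧ 0 < c j) ∧ IsMld G S c a}

section ord

theorem bdd {S : Set (Fin n → ℕ)} {w : Fin n → ℝ} (hw : ∀ i, 0 ≤ w i) :
    BddBelow ((fun m : Fin n → ℕ => ∑ i, (m i : ℝ) * w i) '' S) := by
  refine ⟨0, ?_⟩
  rintro _ ⟨m, -, rfl⟩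
  exact Finset.sum_nonneg fun i _ => mul_nonneg (Nat.cast_nonneg _) (hw i)

theorem le_ord {S : Set (Fin n → ℕ)} (hS : S.Nonempty) {w : Fin n → ℝ} {t : ℝ}
    (h : ∀ m ∈ S, t ≤ ∑ i, (m i : ℝ) * w i) : t ≤ ordAlong S w := by
  apply le_csInf (hS.image _)
  rintro _ ⟨m, hm, rfl⟩
  exact h m hm

theorem ord_le {S : Set (Fin n → ℕ)} {w : Fin n → ℝ} (hw : ∀ i, 0 ≤ w i) {s m : Fin n → ℕ}
    (hs : s ∈ S) (hsm : s ≤ m) : ordAlong S w ≤ ∑ i, (m i : ℝ) * w i := by
  refine (csInf_le (bdd hw) ⟨s, hs, rfl⟩).trans ?_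
  exact Finset.sum_le_sum fun i _ =>
    mul_le_mul_of_nonneg_right (by exact_mod_cast hsm i) (hw i)

theorem ord_nonneg {S : Set (Fin n → ℕ)} (hS : S.Nonempty) {w : Fin n → ℝ} (hw : ∀ i, 0 ≤ w i) :
    0 ≤ ordAlong S w :=
  le_ord hS fun _ _ => Finset.sum_nonneg fun i _ => mul_nonneg (Nat.cast_nonneg _) (hw i)

/-- only finitely many monomials have small weight -/
theorem finite_small (w : Fin n → ℝ) (hw : ∀ i, 0 < w i) (C : ℝ) :
    {m : Fin n → ℕ | ∑ i, (m i : ℝ) * w i < C}.Finite := by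
  refine (Set.finite_Iic (fun i => ⌈C / w i⌉₊)).subset ?_
  intro m hm i
  have h1 : (m i : ℝ) * w i ≤ ∑ i, (m i : ℝ) * w i :=
    Finset.single_le_sum (f := fun i => (m i : ℝ) * w i)
      (fun i _ => mul_nonneg (Nat.cast_nonneg _) (hw i).le) (Finset.mem_univ i)
  have h2 : (m i : ℝ) ≤ C / w i := by
    rw [le_div_iff₀ (hw i)]
    exact h1.trans (le_of_lt hm)
  exact_mod_cast h2.trans (Nat.le_ceil _)

end ord

section mono

/-- **Subsequences of monomial ideals.** -/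
theorem subseq_mono {r : ℕ} (S : ℕ → Fin r → Set (Fin n → ℕ)) :
    ∃ θ : ℕ → ℕ, StrictMono θ ∧ ∀ k j m, (¬ ∃ s ∈ S (θ k) j, s ≤ m) →
      ∀ᶠ l in atTop, ¬ ∃ s ∈ S (θ l) j, s ≤ m := by
  obtain ⟨θ, hθ, Q, hQ⟩ := subseq_pred
    (fun l (p : Fin r × (Fin n → ℕ)) => ∃ s ∈ S l p.1, s ≤ p.2)
  have hfin : ∀ j : Fin r, {m | Minimal (fun m => Q (j, m)) m}.Finite := by
    intro j
    have h1 : IsAntichain (· ≤ ·) {m : Fin n → ℕ | Minimal (fun m => Q (j, m)) m} :=
      setOfPred_minimal_antichain _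
    exact WellQuasiOrderedLE.finite_of_isAntichain h1
  have h0 : ∀ᶠ l in atTop, ∀ j : Fin r, ∀ m ∈ (hfin j).toFinset, ∃ s ∈ S (θ l) j, s ≤ m := by
    rw [Filter.eventually_all]
    intro j
    rw [Filter.eventually_all_finset]
    intro m hm
    rw [Set.Finite.mem_toFinset] at hm
    filter_upwards [hQ (j, m)] with l hl
    exact hl.2 hm.1
  obtain ⟨l0, hl0⟩ := eventually_atTop.1 h0
  refine ⟨fun k => θ (k + l0), hθ.comp (fun a b h => Nat.add_lt_add_right h l0), ?_⟩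
  intro k j m hm
  have hnQ : ¬ Q (j, m) := by
    intro hq
    obtain ⟨m', hm', hmin⟩ := exists_minimal_le_of_wellFoundedLT (fun m => Q (j, m)) m hq
    obtain ⟨s, hs, hsm⟩ := hl0 (k + l0) (Nat.le_add_left _ _) j m'
      ((hfin j).mem_toFinset.2 hmin)
    exact hm ⟨s, hs, hsm.trans hm'⟩
  have h3 := (tendsto_add_atTop_nat l0).eventually (hQ (j, m))
  filter_upwards [h3] with l hl h4
  exact hnQ (hl.1 h4)

end mono

section coef

theorem IsDCC.isWF {Γ : Set ℝ} (h : IsDCC Γ) : Γ.IsWF := by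
  rw [Set.isWF_iff_no_descending_seq]
  intro f hf hmem
  obtain ⟨K, hK⟩ := h f hf.antitone hmem
  have h1 := hK (K + 1) (Nat.le_succ K)
  have h2 := hf (Nat.lt_succ_self K)
  exact absurd h1 (ne_of_lt h2)

/-- monotone subsequence of the coefficients -/
theorem subseq_coef {r : ℕ} {Γ : Set ℝ} (h : IsDCC Γ) (c : ℕ → Fin r → ℝ)
    (hc : ∀ k j, c k j ∈ Γ) : ∃ θ : ℕ → ℕ, StrictMono θ ∧ Monotone (c ∘ θ) := by
  have h1 : Γ.IsWF := h.isWF
  have h2 : WellFounded ((· < ·) : Γ → Γ → Prop) := h1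
  have : WellFoundedLT Γ := ⟨h2⟩
  let c' : ℕ → Fin r → Γ := fun k j => ⟨c k j, hc k j⟩
  obtain ⟨g, hg⟩ := (wellQuasiOrdered_le (α := Fin r → Γ)).exists_monotone_subseq c'
  exact ⟨g, g.strictMono, fun a b hab j => hg a b hab j⟩

theorem exists_min {Γ : Set ℝ} (h : IsDCC Γ) : ∃ δ : ℝ, 0 < δ ∧ ∀ c ∈ Γ, 0 < c → δ ≤ c := by
  by_cases hne : (Γ ∩ {c | 0 < c}).Nonempty
  · have h1 : (Γ ∩ {c : ℝ | 0 < c}).IsWF := h.isWF.mono inter_subset_left
    refine ⟨h1.min hne, (h1.min_mem hne).2, fun c hc hc0 => h1.min_le hne ⟨hc, hc0⟩⟩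
  · refine ⟨1, one_pos, fun c hc hc0 => absurd ⟨c, hc, hc0⟩ hne⟩

end coef

/-- lifting of close points -/
theorem lift_close (w : Fin n → ℝ) (g : Fin n → UnitAddCircle) (ε : ℝ) (hε : 0 < ε)
    (h : dist g (fun i => (w i : UnitAddCircle)) < ε) :
    ∃ w' : Fin n → ℝ, (fun i => (w' i : UnitAddCircle)) = g ∧ ∀ i, |w' i - w i| < ε := by
  rw [dist_pi_lt_iff hε] at h
  have h1 : ∀ i, ∃ x : ℝ, (x : UnitAddCircle) = g i ∧ |x - w i| < ε := by
    intro i
    obtain ⟨y, hy⟩ := QuotientAddGroup.mk_surjective (g i - (w i : UnitAddCircle))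
    have h2 := h i
    rw [dist_eq_norm, ← hy] at h2
    have h3 : ‖((y : ℝ) : UnitAddCircle)‖ = |y - round y| := UnitAddCircle.norm_eq
    refine ⟨w i + (y - round y), ?_, ?_⟩
    · have h4 : ((y : ℝ) : UnitAddCircle) = g i - (w i : UnitAddCircle) := hy
      rw [AddCircle.coe_add, AddCircle.coe_sub, h4]
      have h5 : ((round y : ℝ) : UnitAddCircle) = 0 := by
        have : ((round y : ℤ) : ℝ) = (round y : ℤ) • (1 : ℝ) := by simp
        rw [this, AddCircle.coe_zsmul, AddCircle.coe_period, smul_zero]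
      rw [h5]
      abel
    · rw [add_sub_cancel_left, ← h3]
      exact h2
  choose w' h2 h3 using h1
  exact ⟨w', funext h2, h3⟩

/-- the contradiction -/
theorem no_strict_conv {r : ℕ} (G : ℕ → AddSubgroup (Fin n → UnitAddCircle))
    (S : ℕ → Fin r → Set (Fin n → ℕ)) (c : ℕ → Fin r → ℝ) (hS : ∀ k j, (S k j).Nonempty)
    (hc0 : ∀ k j, 0 < c k j) (hc : Monotone c)
    (hG : ∀ k, ∀ g ∈ G k, ∀ ε : ℝ, 0 < ε → ∀ᶠ l in atTop, ∃ g' ∈ G l, dist g' g < ε)
    (hM : ∀ k j m, (¬ ∃ s ∈ S k j, s ≤ m) → ∀ᶠ l in atTop, ¬ ∃ s ∈ S l j, s ≤ m)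
    (u : ℕ → ℝ) (hu : StrictMono u) (hmld : ∀ k, IsMld (G k) (S k) (c k) (u k)) : False := by
  -- a point with small log discrepancy for the first pair
  have h1 : ∃ w : Fin n → ℝ, (∀ i, 0 < w i) ∧ (fun i => (w i : UnitAddCircle)) ∈ G 0 ∧
      logDisc (S 0) (c 0) w < u 1 := by
    by_contra hcon
    push Not at hcon
    have h2 : u 1 ∈ lowerBounds {t | ∃ w : Fin n → ℝ, (∀ i, 0 < w i) ∧
        (fun i => (w i : UnitAddCircle)) ∈ G 0 ∧ t = logDisc (S 0) (c 0) w} := by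
      rintro t ⟨w, hw, hwG, rfl⟩
      exact hcon w hw hwG
    exact absurd ((hmld 0).2 h2) (not_le.2 (hu one_pos))
  obtain ⟨w, hw, hwG, hlt⟩ := h1
  set B : ℝ := ∑ j, c 0 j * ordAlong (S 0 j) w with hB
  have hB0 : 0 ≤ B := Finset.sum_nonneg fun j _ =>
    mul_nonneg (hc0 0 j).le (ord_nonneg (hS 0 j) fun i => (hw i).le)
  set γ : ℝ := (u 1 - (∑ i, w i - B)) / 3 with hγ
  have hγ0 : 0 < γ := by
    have : ∑ i, w i - B < u 1 := hlt
    rw [hγ]
    linarith
  -- choice of the constants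
  obtain ⟨η, hη0, hη1, hηB⟩ : ∃ η : ℝ, 0 < η ∧ η < 1 ∧ η * B < γ := by
    refine ⟨min (1 / 2) (γ / (B + 1)), by positivity, ?_, ?_⟩
    · exact (min_le_left _ _).trans_lt (by norm_num)
    · calc min (1 / 2) (γ / (B + 1)) * B ≤ γ / (B + 1) * B :=
            mul_le_mul_of_nonneg_right (min_le_right _ _) hB0
        _ < γ := by
            rw [div_mul_eq_mul_div, div_lt_iff₀ (by linarith)]
            nlinarith
  obtain ⟨ε, hε0, hεn, hεw⟩ : ∃ ε : ℝ, 0 < ε ∧ n * ε < γ ∧ ∀ i, ε ≤ η * w i := by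
    have h2 : ∃ μ : ℝ, 0 < μ ∧ ∀ i, μ ≤ w i := by
      by_cases hn : Nonempty (Fin n)
      · obtain ⟨i0, hi0⟩ := Finite.exists_min w
        exact ⟨w i0, hw i0, hi0⟩
      · exact ⟨1, one_pos, fun i => absurd ⟨i⟩ hn⟩
    obtain ⟨μ, hμ0, hμ⟩ := h2
    refine ⟨min (γ / (n + 1)) (η * μ), lt_min (by positivity) (by positivity), ?_, ?_⟩
    · calc (n : ℝ) * min (γ / (n + 1)) (η * μ) ≤ n * (γ / (n + 1)) :=
            mul_le_mul_of_nonneg_left (min_le_left _ _) (Nat.cast_nonneg _)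
        _ < γ := by
            rw [← mul_div_assoc, div_lt_iff₀ (by positivity)]
            nlinarith
    · intro i
      exact (min_le_right _ _).trans (mul_le_mul_of_nonneg_left (hμ i) hη0.le)
  -- the ideals are eventually contained in the first ones, for small weights
  have h3 : ∀ᶠ l in atTop, ∀ j : Fin r, ∀ m ∈ S l j, ordAlong (S 0 j) w ≤ ∑ i, (m i : ℝ) * w i := by
    rw [Filter.eventually_all]
    intro j
    have hfin := finite_small w hw (ordAlong (S 0 j) w)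
    have h4 : ∀ᶠ l in atTop, ∀ m ∈ hfin.toFinset, ¬ ∃ s ∈ S l j, s ≤ m := by
      rw [Filter.eventually_all_finset]
      intro m hm
      rw [Set.Finite.mem_toFinset] at hm
      apply hM 0 j m
      rintro ⟨s, hs, hsm⟩
      exact absurd hm (not_lt.2 (ord_le (fun i => (hw i).le) hs hsm))
    filter_upwards [h4] with l hl m hm
    by_contra hcon
    push Not at hcon
    exact hl m (hfin.mem_toFinset.2 hcon) ⟨m, hm, le_rfl⟩
  obtain ⟨l, hl1, hl2, hl3⟩ := ((eventually_ge_atTop 1).and (h3.and (hG 0 _ hwG ε hε0))).exists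
  obtain ⟨g', hg', hdist⟩ := hl3
  obtain ⟨w', hw'g, hw'⟩ := lift_close w g' ε hε0 hdist
  have hlow : ∀ i, (1 - η) * w i ≤ w' i := by
    intro i
    have e1 := (abs_lt.1 (hw' i)).1
    have e2 := hεw i
    linarith
  have hpos : ∀ i, 0 < w' i := fun i =>
    lt_of_lt_of_le (mul_pos (by linarith) (hw i)) (hlow i)
  have hord : ∀ j, (1 - η) * ordAlong (S 0 j) w ≤ ordAlong (S l j) w' := by
    intro j
    apply le_ord (hS l j)
    intro m hm
    calc (1 - η) * ordAlong (S 0 j) w ≤ (1 - η) * ∑ i, (m i : ℝ) * w i :=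
          mul_le_mul_of_nonneg_left (hl2 j m hm) (by linarith)
      _ = ∑ i, (m i : ℝ) * ((1 - η) * w i) := by
          rw [Finset.mul_sum]
          exact Finset.sum_congr rfl fun i _ => by ring
      _ ≤ ∑ i, (m i : ℝ) * w' i := Finset.sum_le_sum fun i _ =>
          mul_le_mul_of_nonneg_left (hlow i) (Nat.cast_nonneg _)
  have hmem : u l ≤ logDisc (S l) (c l) w' := by
    apply (hmld l).1
    refine ⟨w', hpos, ?_, rfl⟩
    rw [hw'g]
    exact hg'
  have hsum1 : ∑ i, w' i ≤ ∑ i, w i + n * ε := by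
    calc ∑ i, w' i ≤ ∑ i, (w i + ε) := Finset.sum_le_sum fun i _ => by
          have := (abs_lt.1 (hw' i)).2
          linarith
      _ = ∑ i, w i + n * ε := by
          rw [Finset.sum_add_distrib, Finset.sum_const, Finset.card_univ, Fintype.card_fin,
            nsmul_eq_mul]
  have hsum2 : (1 - η) * B ≤ ∑ j, c l j * ordAlong (S l j) w' := by
    rw [hB, Finset.mul_sum]
    refine Finset.sum_le_sum fun j _ => ?_
    calc (1 - η) * (c 0 j * ordAlong (S 0 j) w) = c 0 j * ((1 - η) * ordAlong (S 0 j) w) := by ring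
      _ ≤ c l j * ((1 - η) * ordAlong (S 0 j) w) :=
          mul_le_mul_of_nonneg_right (hc (Nat.zero_le l) j)
            (mul_nonneg (by linarith) (ord_nonneg (hS 0 j) fun i => (hw i).le))
      _ ≤ c l j * ordAlong (S l j) w' := mul_le_mul_of_nonneg_left (hord j) (hc0 l j).le
  have hul : u 1 ≤ u l := hu.monotone hl1
  have hfin : logDisc (S l) (c l) w' < u 1 := by
    have e1 : logDisc (S l) (c l) w' ≤ ∑ i, w i + n * ε - (1 - η) * B := by
      rw [logDisc]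
      exact sub_le_sub hsum1 hsum2
    have e2 : ∑ i, w i + n * ε - (1 - η) * B < u 1 := by
      have e3 : u 1 = 3 * γ + (∑ i, w i - B) := by rw [hγ]; ring
      rw [e3]
      nlinarith
    exact e1.trans_lt e2
  linarith

/-- no strictly increasing sequence with a fixed number of ideals -/
theorem no_strict_fixed {r : ℕ} {Γ : Set ℝ} (hΓ : IsDCC Γ) (u : ℕ → ℝ) (hu : StrictMono u)
    (h : ∀ k, u k ∈ mldsR n r Γ) : False := by
  choose G S c hfin hpair hmld using h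
  obtain ⟨θ1, h1, h1'⟩ := subseq_coef hΓ c (fun k j => (hpair k j).2.2.1)
  obtain ⟨θ2, h2, h2'⟩ := subseq_mono (fun k => S (θ1 k))
  obtain ⟨θ3, h3, h3'⟩ := subseq_groups (fun k => G (θ1 (θ2 k))) (fun k => hfin _)
  refine no_strict_conv (fun k => G (θ1 (θ2 (θ3 k)))) (fun k => S (θ1 (θ2 (θ3 k))))
    (fun k => c (θ1 (θ2 (θ3 k)))) (fun k j => (hpair _ j).1) (fun k j => (hpair _ j).2.2.2)
    (fun a b hab => h1' ((h2.comp h3).monotone hab)) h3' ?_ (fun k => u (θ1 (θ2 (θ3 k))))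
    (hu.comp (h1.comp (h2.comp h3))) (fun k => hmld _)
  intro k j m hm
  exact h3.tendsto_atTop.eventually (h2' (θ3 k) j m hm)

/-- the number of ideals is bounded -/
theorem bound_r {Γ : Set ℝ} (hΓ : IsDCC Γ) (a0 : ℝ) :
    ∃ R : ℕ, ∀ (r : ℕ) (a : ℝ), a0 ≤ a → a ∈ mldsR n r Γ → r ≤ R := by
  obtain ⟨δ, hδ0, hδ⟩ := exists_min hΓ
  refine ⟨⌈(n - a0) / δ⌉₊, ?_⟩
  rintro r a ha ⟨G, S, c, -, hpair, hmld⟩
  have h1 : a ≤ logDisc S c (fun _ => 1) := by
    apply hmld.1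
    refine ⟨fun _ => 1, fun _ => one_pos, ?_, rfl⟩
    have : (fun _ : Fin n => ((1 : ℝ) : UnitAddCircle)) = 0 := by
      funext i
      exact AddCircle.coe_period 1
    rw [this]
    exact zero_mem G
  have h2 : ∀ j, 1 ≤ ordAlong (S j) (fun _ => (1 : ℝ)) := by
    intro j
    apply le_ord (hpair j).1
    intro m hm
    have hm0 : m ≠ 0 := fun h => (hpair j).2.1 (h ▸ hm)
    obtain ⟨i, hi⟩ := Function.ne_iff.1 hm0
    calc (1 : ℝ) ≤ (m i : ℝ) * 1 := by
          rw [mul_one]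
          exact_mod_cast Nat.one_le_iff_ne_zero.2 hi
      _ ≤ ∑ i, (m i : ℝ) * 1 := Finset.single_le_sum (f := fun i => (m i : ℝ) * 1)
          (fun i _ => by positivity) (Finset.mem_univ i)
  have h3 : r * δ ≤ ∑ j, c j * ordAlong (S j) (fun _ => (1 : ℝ)) := by
    calc (r : ℝ) * δ = ∑ _j : Fin r, δ := by
          rw [Finset.sum_const, Finset.card_univ, Fintype.card_fin, nsmul_eq_mul]
      _ ≤ _ := Finset.sum_le_sum fun j _ => by
          have e1 := hδ (c j) (hpair j).2.2.1 (hpair j).2.2.2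
          have e2 := h2 j
          nlinarith [(hpair j).2.2.2]
  have h4 : logDisc S c (fun _ => (1 : ℝ)) = n - ∑ j, c j * ordAlong (S j) (fun _ => (1 : ℝ)) := by
    rw [logDisc, Finset.sum_const, Finset.card_univ, Fintype.card_fin, nsmul_eq_mul, mul_one]
  have h5 : (r : ℝ) ≤ (n - a0) / δ := by
    rw [le_div_iff₀ hδ0]
    rw [h4] at h1
    linarith
  exact_mod_cast h5.trans (Nat.le_ceil _)

/-- no strictly increasing sequence -/
theorem no_strict {Γ : Set ℝ} (hΓ : IsDCC Γ) (u : ℕ → ℝ) (hu : StrictMono u)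
    (h : ∀ k, ∃ r, u k ∈ mldsR n r Γ) : False := by
  choose r hr using h
  obtain ⟨R, hR⟩ := bound_r (n := n) hΓ (u 0)
  have hb : ∀ k, r k ∈ Set.Iic R := fun k => hR (r k) (u k) (hu.monotone (Nat.zero_le k)) (hr k)
  obtain ⟨r0, hr0⟩ : ∃ r0, {k | r k = r0}.Infinite := by
    by_contra hcon
    push Not at hcon
    have h1 : (Set.univ : Set ℕ) ⊆ ⋃ x ∈ Set.Iic R, {k | r k = x} := by
      intro k _
      simp only [mem_iUnion]
      exact ⟨r k, hb k, rfl⟩
    have h2 : (⋃ x ∈ Set.Iic R, {k | r k = x}).Finite :=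
      (Set.finite_Iic R).biUnion fun x _ => hcon x
    exact Set.infinite_univ (h2.subset h1)
  refine no_strict_fixed (n := n) (r := r0) hΓ (fun k => u (Nat.nth (fun k => r k = r0) k))
    (hu.comp (Nat.nth_strictMono hr0)) fun k => ?_
  have h3 : r (Nat.nth (fun k => r k = r0) k) = r0 := Nat.nth_mem_of_infinite hr0 k
  have h4 := hr (Nat.nth (fun k => r k = r0) k)
  rw [h3] at h4
  exact h4

/-- **ACC for minimal log discrepancies of monomial pairs.** -/
theorem acc {Γ : Set ℝ} (hΓ : IsDCC Γ) : IsACC {a | ∃ r, a ∈ mldsR n r Γ} := by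
  intro u hu hmem
  by_contra hcon
  push Not at hcon
  choose f hf hf' using hcon
  have hlt : ∀ K, u K < u (f K) := fun K => lt_of_le_of_ne (hu (hf K)) (hf' K).symm
  let g : ℕ → ℕ := fun k => Nat.rec 0 (fun _ x => f x) k
  have hg : StrictMono (u ∘ g) := strictMono_nat_of_lt_succ fun k => hlt (g k)
  exact no_strict (n := n) hΓ (u ∘ g) hg fun k => hmem (g k)

end Pool.Agent.TH165.ACC
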