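import Mathlib
import Pool.Agent.TH165.ACC.Cara
import Pool.Agent.TH165.ACC.Main

/-!
# Coordinates in simplicial subcones and their finite groups
-/

set_option autoImplicit false
set_option linter.unusedSectionVars false

namespace Pool.Agent.TH165.ACC

open Pool.Agent.H436R3.Fol Pool.Agent.H436R3.KT Pool.Agent.W497.Mld MvPolynomial

variable {n d : ℕ}

/-- `w` are coordinates of the lattice vector `u` with respect to the vectors `A i` -/
def Coord (A : Fin d → Fin n → ℤ) (w : Fin d → ℝ) (u : Fin n → ℤ) : Prop :=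
  ∀ k, ∑ i, w i * (A i k : ℝ) = (u k : ℝ)

theorem coord_pr {A : Fin d → Fin n → ℤ} {w : Fin d → ℝ} {u : Fin n → ℤ} (h : Coord A w u)
    (m : Fin n → ℤ) : (pr m u : ℝ) = ∑ i, w i * (pr m (A i) : ℝ) := by
  have h1 : (pr m u : ℝ) = ∑ k, (m k : ℝ) * (u k : ℝ) := by
    rw [pr]; push_cast; rfl
  have h2 : ∀ i, (pr m (A i) : ℝ) = ∑ k, (m k : ℝ) * (A i k : ℝ) := by
    intro i; rw [pr]; push_cast; rfl
  rw [h1, Finset.sum_congr rfl fun k _ => by rw [← h k]]
  simp only [h2, Finset.mul_sum]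
  rw [Finset.sum_comm]
  exact Finset.sum_congr rfl fun i _ => Finset.sum_congr rfl fun k _ => by ring

/-- the group of the simplicial cone spanned by the vectors `A i` -/
def GE (A : Fin d → Fin n → ℤ) : AddSubgroup (Fin d → UnitAddCircle) where
  carrier := {x | ∃ (w : Fin d → ℝ) (u : Fin n → ℤ), (fun i => (w i : UnitAddCircle)) = x ∧
    Coord A w u}
  zero_mem' := ⟨0, 0, by funext i; simp, fun k => by simp⟩
  add_mem' := by
    rintro _ _ ⟨w, u, rfl, h⟩ ⟨w', u', rfl, h'⟩
    refine ⟨w + w', u + u', by funext i; simp, fun k => ?_⟩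
    simp only [Pi.add_apply, add_mul, Finset.sum_add_distrib]
    rw [h k, h' k]
    push_cast
    rfl
  neg_mem' := by
    rintro _ ⟨w, u, rfl, h⟩
    refine ⟨-w, -u, by funext i; simp, fun k => ?_⟩
    simp only [Pi.neg_apply, neg_mul, Finset.sum_neg_distrib]
    rw [h k]
    push_cast
    rfl

theorem GE_finite {A : Fin d → Fin n → ℤ} {D : ℤ} (hD : DualVec A D) : Finite (GE A) := by
  set N : ℕ := D.toNat with hN
  have hN0 : 0 < N := by have := hD.1; omega
  have hfin : (Set.pi Set.univ fun _ : Fin d => {x : UnitAddCircle | N • x = 0}).Finite :=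
    Set.Finite.pi fun _ => AddCircle.finite_torsion (1 : ℝ) hN0
  refine Set.Finite.subset hfin ?_
  rintro _ ⟨w, u, rfl, h⟩ i -
  obtain ⟨Q, hQ⟩ := hD.2 i
  have h1 : (N : ℝ) = (D : ℝ) := by
    have : (N : ℤ) = D := by have := hD.1; omega
    exact_mod_cast this
  have h2 : (pr Q u : ℝ) = w i * (D : ℝ) := by
    rw [coord_pr h, Finset.sum_eq_single i]
    · rw [hQ, if_pos rfl]
    · intro j _ hj
      rw [hQ, if_neg hj, Int.cast_zero, mul_zero]
    · intro h; exact absurd (Finset.mem_univ _) h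
  change N • ((w i : ℝ) : UnitAddCircle) = 0
  rw [← AddCircle.coe_nsmul, nsmul_eq_mul, h1, mul_comm, ← h2]
  rw [AddCircle.coe_eq_zero_iff]
  exact ⟨pr Q u, by simp⟩

theorem coord_of_mem {A : Fin d → Fin n → ℤ} {w : Fin d → ℝ}
    (h : (fun i => (w i : UnitAddCircle)) ∈ GE A) : ∃ u : Fin n → ℤ, Coord A w u := by
  obtain ⟨w', u', h1, h2⟩ := h
  have h3 : ∀ i, ∃ z : ℤ, w i - w' i = z := by
    intro i
    have h4 : ((w i - w' i : ℝ) : UnitAddCircle) = 0 := by
      rw [AddCircle.coe_sub]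
      have := congrFun h1 i
      change ((w' i : ℝ) : UnitAddCircle) = ((w i : ℝ) : UnitAddCircle) at this
      rw [this, sub_self]
    rw [AddCircle.coe_eq_zero_iff] at h4
    obtain ⟨z, hz⟩ := h4
    exact ⟨z, by rw [← hz]; simp⟩
  choose z hz using h3
  refine ⟨fun k => u' k + ∑ i, z i * A i k, fun k => ?_⟩
  push_cast
  rw [← h2 k, ← Finset.sum_add_distrib]
  exact Finset.sum_congr rfl fun i _ => by rw [← hz i]; ring

variable {K : Type} [Field K] [Algebra ℂ K]
  [Algebra (MvPolynomial (Fin n) ℂ) K] [IsFractionRing (MvPolynomial (Fin n) ℂ) K]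
  [IsScalarTower ℂ (MvPolynomial (Fin n) ℂ) K]

variable {g : ToricGerm n K}

/-- the relative interior of a subcone which meets the interior of the cone lies in the interior -/
theorem inter_of_coord {a : Fin d → Fin g.N} {w w0 : Fin d → ℝ} {u u0 : Fin n → ℤ}
    (h0 : Coord (fun i => g.E (a i)) w0 u0) (hu0 : g.Inter u0)
    (h : Coord (fun i => g.E (a i)) w u) (hw : ∀ i, 0 < w i) : g.Inter u := by
  intro m hm hm0
  have h1 : (0 : ℝ) < pr m u := by
    rw [coord_pr h]
    obtain ⟨i, hi⟩ : ∃ i, pr m (g.E (a i)) ≠ 0 := by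
      by_contra h2
      push Not at h2
      have h3 := hu0 m hm hm0
      have h4 : (pr m u0 : ℝ) = 0 := by
        rw [coord_pr h0]
        exact Finset.sum_eq_zero fun i _ => by rw [h2 i, Int.cast_zero, mul_zero]
      have h5 : pr m u0 = 0 := by exact_mod_cast h4
      omega
    refine Finset.sum_pos' (fun j _ => mul_nonneg (hw j).le (by exact_mod_cast hm (a j)))
      ⟨i, Finset.mem_univ i, mul_pos (hw i) ?_⟩
    have := hm (a i)
    exact_mod_cast lt_of_le_of_ne this (Ne.symm hi)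
  exact_mod_cast h1

end Pool.Agent.TH165.ACC
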