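import Mathlib
import Pool.Agent.TH165.ACC.Lau

/-!
# Factorisation of real linear combinations of principal divisors
-/

set_option autoImplicit false
set_option linter.unusedSectionVars false

namespace Pool.Agent.TH165.ACC

open Pool.Agent.H436R3.Fol Pool.Agent.H436R3.KT Pool.Agent.W497.Mld MvPolynomial
  UniqueFactorizationMonoid

variable {n : ℕ} {K : Type} [Field K] [Algebra ℂ K]
  [Algebra (MvPolynomial (Fin n) ℂ) K] [IsFractionRing (MvPolynomial (Fin n) ℂ) K]
  [IsScalarTower ℂ (MvPolynomial (Fin n) ℂ) K]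

theorem ord_unit (v : DVal K) {p : MvPolynomial (Fin n) ℂ} (hp : IsUnit p) :
    v.ord (jo (Fin n) K p) = 0 := by
  have h1 := isUnit_iff_totalDegree_of_isReduced.1 hp
  have h2 := totalDegree_eq_zero_iff_eq_C.1 h1.2
  rw [h2, jo_C]
  exact v.const _ h1.1.ne_zero

theorem ord_assoc (v : DVal K) {p q : MvPolynomial (Fin n) ℂ} (hp : p ≠ 0)
    (h : Associated p q) : v.ord (jo (Fin n) K p) = v.ord (jo (Fin n) K q) := by
  obtain ⟨c, rfl⟩ := h
  rw [map_mul, v.map_mul _ _ (jo_ne hp) (jo_ne c.isUnit.ne_zero), ord_unit v c.isUnit, add_zero]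

theorem ord_multiset (v : DVal K) (M : Multiset (MvPolynomial (Fin n) ℂ)) (h : ∀ p ∈ M, p ≠ 0) :
    M.prod ≠ 0 ∧ v.ord (jo (Fin n) K M.prod) = (M.map fun p => v.ord (jo (Fin n) K p)).sum := by
  induction M using Multiset.induction_on with
  | empty => simp [v.ord_one]
  | cons a M ih =>
    obtain ⟨h1, h2⟩ := ih fun p hp => h p (Multiset.mem_cons_of_mem hp)
    have ha := h a (Multiset.mem_cons_self a M)
    rw [Multiset.prod_cons, Multiset.map_cons, Multiset.sum_cons, ← h2, map_mul,
      v.map_mul _ _ (jo_ne ha) (jo_ne h1)]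
    exact ⟨mul_ne_zero ha h1, rfl⟩

theorem valP_self {p : MvPolynomial (Fin n) ℂ} (hp : Prime p) :
    (valP K p hp).ord (jo (Fin n) K p) = 1 := by
  have h1 : (valP K p hp).ord (jo (Fin n) K p) = (multiplicity p p : ℤ) := valP_ord hp hp.ne_zero
  rw [h1, multiplicity_self]
  rfl

theorem valP_other {p q : MvPolynomial (Fin n) ℂ} (hp : Prime p) (hq : q ≠ 0) (h : ¬ p ∣ q) :
    (valP K p hp).ord (jo (Fin n) K q) = 0 := by
  have h1 : (valP K p hp).ord (jo (Fin n) K q) = (multiplicity p q : ℤ) := valP_ord hp hq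
  rw [h1, multiplicity_eq_zero.2 h]
  rfl

/-- Every real linear combination of principal divisors is a real linear combination of the
divisors of finitely many pairwise different primes. -/
theorem fact {r : ℕ} (ρ : Fin r → ℝ) (g : Fin r → K) (hg : ∀ k, g k ≠ 0) :
    ∃ (F : Finset (MvPolynomial (Fin n) ℂ)) (c : MvPolynomial (Fin n) ℂ → ℝ),
      (∀ p ∈ F, Prime p) ∧ (∀ p ∈ F, ∀ q ∈ F, p ∣ q → p = q) ∧
      ∀ v : DVal K, ∑ k, ρ k * (v.ord (g k) : ℝ) =
        ∑ p ∈ F, c p * (v.ord (jo (Fin n) K p) : ℝ) := by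
  classical
  obtain ⟨inst⟩ : Nonempty (StrongNormalizationMonoid (MvPolynomial (Fin n) ℂ)) := inferInstance
  choose a b hb hab using fun k => exists_frac (MvPolynomial (Fin n) ℂ) (g k)
  have ha : ∀ k, a k ≠ 0 := by
    intro k h
    have := hab k
    rw [h, map_zero, zero_div] at this
    exact hg k this
  let F : Finset (MvPolynomial (Fin n) ℂ) := Finset.univ.biUnion fun k =>
    (normalizedFactors (a k)).toFinset ∪ (normalizedFactors (b k)).toFinset
  have hF : ∀ p ∈ F, Prime p ∧ normalize p = p := by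
    intro p hp
    simp only [F, Finset.mem_biUnion, Finset.mem_univ, true_and, Finset.mem_union,
      Multiset.mem_toFinset] at hp
    obtain ⟨k, hk | hk⟩ := hp
    · exact ⟨prime_of_normalized_factor p hk, normalize_normalized_factor p hk⟩
    · exact ⟨prime_of_normalized_factor p hk, normalize_normalized_factor p hk⟩
  have hord : ∀ (v : DVal K) (q : MvPolynomial (Fin n) ℂ), q ≠ 0 →
      (normalizedFactors q).toFinset ⊆ F → (v.ord (jo (Fin n) K q) : ℝ) =
        ∑ p ∈ F, ((normalizedFactors q).count p : ℝ) * (v.ord (jo (Fin n) K p) : ℝ) := by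
    intro v q hq hsub
    have h1 := prod_normalizedFactors hq
    have h2 := ord_multiset v (normalizedFactors q)
      fun p hp => (prime_of_normalized_factor p hp).ne_zero
    rw [← ord_assoc v h2.1 h1, h2.2, Finset.sum_multiset_map_count]
    push_cast
    rw [← Finset.sum_subset hsub]
    · refine Finset.sum_congr rfl fun p _ => ?_
      rw [nsmul_eq_mul]
      push_cast
      rfl
    · intro p _ hp
      rw [Multiset.mem_toFinset] at hp
      rw [Multiset.count_eq_zero_of_notMem hp]
      simp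
  refine ⟨F, fun p => ∑ k, ρ k * (((normalizedFactors (a k)).count p : ℝ) -
    ((normalizedFactors (b k)).count p : ℝ)), fun p hp => (hF p hp).1, ?_, ?_⟩
  · intro p hp q hq hpq
    have h1 : Associated p q := (hF p hp).1.associated_of_dvd (hF q hq).1 hpq
    rw [← (hF p hp).2, ← (hF q hq).2]
    exact normalize_eq_normalize_iff_associated.2 h1
  · intro v
    have h1 : ∀ k, (v.ord (g k) : ℝ) = ∑ p ∈ F, (((normalizedFactors (a k)).count p : ℝ) -
        ((normalizedFactors (b k)).count p : ℝ)) * (v.ord (jo (Fin n) K p) : ℝ) := by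
      intro k
      have hak : (normalizedFactors (a k)).toFinset ⊆ F := fun p hp =>
        Finset.mem_biUnion.2 ⟨k, Finset.mem_univ k, Finset.mem_union_left _ hp⟩
      have hbk : (normalizedFactors (b k)).toFinset ⊆ F := fun p hp =>
        Finset.mem_biUnion.2 ⟨k, Finset.mem_univ k, Finset.mem_union_right _ hp⟩
      rw [hab k, ← jo_apply, ← jo_apply, v.ord_div (jo_ne (ha k)) (jo_ne (hb k))]
      push_cast
      rw [hord v _ (ha k) hak, hord v _ (hb k) hbk, ← Finset.sum_sub_distrib]
      exact Finset.sum_congr rfl fun p _ => by ring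
    rw [Finset.sum_congr rfl fun k _ => by rw [h1 k]]
    simp only [Finset.mul_sum, Finset.sum_mul]
    rw [Finset.sum_comm]
    exact Finset.sum_congr rfl fun p _ => Finset.sum_congr rfl fun k _ => by ring

end Pool.Agent.TH165.ACC
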