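import Mathlib
import Pool.Agent.TH165.ACC.Coor
import Pool.Agent.TH165.ACC.Fact

/-!
# Log discrepancies of monomial valuations over a toric germ with arbitrary boundary
-/

set_option autoImplicit false
set_option linter.unusedSectionVars false

namespace Pool.Agent.TH165.ACC

open Pool.Agent.H436R3.Fol Pool.Agent.H436R3.KT Pool.Agent.W497.Mld MvPolynomial

variable {n d : ℕ} {K : Type} [Field K] [Algebra ℂ K]
  [Algebra (MvPolynomial (Fin n) ℂ) K] [IsFractionRing (MvPolynomial (Fin n) ℂ) K]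
  [IsScalarTower ℂ (MvPolynomial (Fin n) ℂ) K]

theorem mult_nonneg {X : AffVar K} (B : EffDiv X) (v : DVal K) : 0 ≤ B.mult v := by
  classical
  rw [EffDiv.mult]
  refine Finset.sum_nonneg fun i _ => ?_
  split_ifs
  · exact B.nonneg i
  · exact le_rfl

theorem conc {E : Fin d → Fin n → ℤ} {vE : Fin d → DVal K} (hvE : ∀ i, IsMonomial n (vE i))
    (htE : ∀ i, (tv (vE i) : Fin n → ℤ) = E i) {v : DVal K} (hv : IsMonomial n v) {w : Fin d → ℝ}
    (hw : ∀ i, 0 ≤ w i) (hc : Coord E w (tv v)) {p : MvPolynomial (Fin n) ℂ} (hp : p ≠ 0) :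
    ∑ i, w i * ((vE i).ord (jo (Fin n) K p) : ℝ) ≤ (v.ord (jo (Fin n) K p) : ℝ) := by
  obtain ⟨s, hs, h1⟩ := (hv p hp).1
  rw [h1, coord_pr hc]
  refine Finset.sum_le_sum fun i _ => mul_le_mul_of_nonneg_left ?_ (hw i)
  have := (hvE i p hp).2 s hs
  rw [htE] at this
  exact_mod_cast this

/-- the monomials of the prime divisor `p` in the coordinates of the cone -/
def Sp (E : Fin d → Fin n → ℤ) (vE : Fin d → DVal K) (p : MvPolynomial (Fin n) ℂ) :
    Set (Fin d → ℕ) :=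
  {m | ∃ s ∈ p.support, ∀ i, (m i : ℤ) = pr (ex s) (E i) - (vE i).ord (jo (Fin n) K p)}

theorem Sp_mem {E : Fin d → Fin n → ℤ} {vE : Fin d → DVal K} (hvE : ∀ i, IsMonomial n (vE i))
    (htE : ∀ i, (tv (vE i) : Fin n → ℤ) = E i) {p : MvPolynomial (Fin n) ℂ} (hp : p ≠ 0)
    {s : Fin n →₀ ℕ} (hs : s ∈ p.support) :
    ∃ m ∈ Sp E vE p, ∀ i, (m i : ℤ) = pr (ex s) (E i) - (vE i).ord (jo (Fin n) K p) := by
  have h : ∀ i, (((pr (ex s) (E i) - (vE i).ord (jo (Fin n) K p)).toNat : ℕ) : ℤ) =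
      pr (ex s) (E i) - (vE i).ord (jo (Fin n) K p) := by
    intro i
    have := (hvE i p hp).2 s hs
    rw [htE] at this
    omega
  exact ⟨fun i => (pr (ex s) (E i) - (vE i).ord (jo (Fin n) K p)).toNat, ⟨s, hs, h⟩, h⟩

theorem ordAlong_Sp {E : Fin d → Fin n → ℤ} {vE : Fin d → DVal K}
    (hvE : ∀ i, IsMonomial n (vE i))
    (htE : ∀ i, (tv (vE i) : Fin n → ℤ) = E i) {v : DVal K} (hv : IsMonomial n v) {w : Fin d → ℝ}
    (hc : Coord E w (tv v)) {p : MvPolynomial (Fin n) ℂ} (hp : p ≠ 0) :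
    ordAlong (Sp E vE p) w = (v.ord (jo (Fin n) K p) : ℝ) -
      ∑ i, w i * ((vE i).ord (jo (Fin n) K p) : ℝ) := by
  have key : ∀ (m : Fin d → ℕ) (s : Fin n →₀ ℕ),
      (∀ i, (m i : ℤ) = pr (ex s) (E i) - (vE i).ord (jo (Fin n) K p)) →
      ∑ i, (m i : ℝ) * w i = (pr (ex s) (tv v) : ℝ) -
        ∑ i, w i * ((vE i).ord (jo (Fin n) K p) : ℝ) := by
    intro m s h
    rw [coord_pr hc, ← Finset.sum_sub_distrib]
    refine Finset.sum_congr rfl fun i _ => ?_
    have h1 : (m i : ℝ) = (pr (ex s) (E i) : ℝ) - ((vE i).ord (jo (Fin n) K p) : ℝ) := by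
      exact_mod_cast h i
    rw [h1]
    ring
  apply IsLeast.csInf_eq
  constructor
  · obtain ⟨s, hs, h1⟩ := (hv p hp).1
    obtain ⟨m, hm, h2⟩ := Sp_mem hvE htE hp hs
    refine ⟨m, hm, ?_⟩
    change ∑ i, (m i : ℝ) * w i = _
    rw [key m s h2, h1]
  · rintro _ ⟨m, ⟨s, hs, h2⟩, rfl⟩
    change _ ≤ ∑ i, (m i : ℝ) * w i
    rw [key m s h2]
    have := (hv p hp).2 s hs
    have h3 : (v.ord (jo (Fin n) K p) : ℝ) ≤ (pr (ex s) (tv v) : ℝ) := by exact_mod_cast this
    linarith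

theorem ordAlong_single (i : Fin d) (w : Fin d → ℝ) :
    ordAlong {(Pi.single i 1 : Fin d → ℕ)} w = w i := by
  rw [ordAlong, Set.image_singleton, csInf_singleton, Finset.sum_eq_single i]
  · simp
  · intro j _ hj
    simp [hj]
  · intro h; exact absurd (Finset.mem_univ _) h

/-- the prime divisor of `p` meets the torus and contains the closed point -/
def Thr (g : ToricGerm n K) (p : MvPolynomial (Fin n) ℂ) : Prop :=
  ∃ hp : Prime p, (∀ i : Fin n, (valP K p hp).ord (cv K i) = 0) ∧ OnAt g.P (valP K p hp)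

theorem ordAlong_of_zero {S : Set (Fin d → ℕ)} (h : 0 ∈ S) {w : Fin d → ℝ} (hw : ∀ i, 0 ≤ w i) :
    ordAlong S w = 0 := by
  apply IsLeast.csInf_eq
  refine ⟨⟨0, h, by simp⟩, ?_⟩
  rintro _ ⟨m, -, rfl⟩
  exact Finset.sum_nonneg fun i _ => mul_nonneg (Nat.cast_nonneg _) (hw i)

theorem lin_of_not_thr {g : ToricGerm n K} {a : Fin d → Fin g.N} {vE : Fin d → DVal K}
    {p : MvPolynomial (Fin n) ℂ} (hvE : ∀ i, IsMonomial n (vE i))
    (htE : ∀ i, (tv (vE i) : Fin n → ℤ) = g.E (a i)) (hp : Prime p) (h : ¬ Thr g p)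
    {v : DVal K} (hv : IsMonomial n v) {w : Fin d → ℝ} (hw : ∀ i, 0 ≤ w i)
    (hc : Coord (fun i => g.E (a i)) w (tv v)) :
    (v.ord (jo (Fin n) K p) : ℝ) = ∑ i, w i * ((vE i).ord (jo (Fin n) K p) : ℝ) := by
  by_cases h0 : ∀ i : Fin n, (valP K p hp).ord (cv K i) = 0
  · have hL := g.local_prime hp h0
    have h1 : ¬ OnAt g.P (valP K p hp) := fun h1 => h ⟨hp, h0, h1⟩
    have h2 : ∃ f : g.X.R, (valP K p hp).Pos (f : K) ∧ g.P f ≠ 0 := by
      by_contra h3
      push Not at h3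
      exact h1 ⟨hL, h3⟩
    obtain ⟨f, hf, hPf⟩ := h2
    obtain ⟨M, q, e1, e2, -⟩ := g.rep f
    have hf0 : (f : K) ≠ 0 := by
      intro h3
      apply hPf
      have : f = 0 := Subtype.ext h3
      rw [this, map_zero]
    have hq : q ≠ 0 := by
      rintro rfl
      rw [coeff_zero] at e2
      exact hPf e2.symm
    have hpq : p ∣ q := by
      by_contra h3
      have h4 := valP_other (K := K) hp hq h3
      have h7 : (tv (valP K p hp) : Fin n → ℤ) = 0 := funext h0
      rw [← e1, (valP K p hp).map_mul _ _ hf0 (ym_ne _), ord_ym, h7, pr] at h4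
      simp only [Pi.zero_apply, mul_zero, Finset.sum_const_zero, add_zero] at h4
      rcases hf with hf | hf
      · exact hf0 hf
      · omega
    obtain ⟨q', rfl⟩ := hpq
    have hq' : q' ≠ 0 := right_ne_zero_of_mul hq
    have hval : ∀ v' : DVal K, IsMonomial n v' → g.InCone (tv v') →
        (v'.ord (jo (Fin n) K p) : ℝ) + (v'.ord (jo (Fin n) K q') : ℝ) =
          (pr (ex M) (tv v') : ℝ) := by
      intro v' hv' hin
      obtain ⟨-, h4⟩ := ToricGerm.ord_zero_of_ne hv' hin hPf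
      have h5 : v'.ord (jo (Fin n) K (p * q')) = pr (ex M) (tv v') := by
        rw [← e1, v'.map_mul _ _ hf0 (ym_ne _), h4, zero_add, ord_ym]
      rw [map_mul, v'.map_mul _ _ (jo_ne hp.ne_zero) (jo_ne hq')] at h5
      exact_mod_cast h5
    have hin : g.InCone (tv v) := by
      intro m hm
      have h4 : (0 : ℝ) ≤ pr m (tv v) := by
        rw [coord_pr hc]
        exact Finset.sum_nonneg fun i _ => mul_nonneg (hw i) (by exact_mod_cast hm (a i))
      exact_mod_cast h4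
    have h8 := hval v hv hin
    have h9 : (pr (ex M) (tv v) : ℝ) = ∑ i, w i * ((vE i).ord (jo (Fin n) K p) : ℝ) +
        ∑ i, w i * ((vE i).ord (jo (Fin n) K q') : ℝ) := by
      rw [coord_pr hc, ← Finset.sum_add_distrib]
      refine Finset.sum_congr rfl fun i _ => ?_
      have h10 := hval (vE i) (hvE i) (by rw [htE]; exact ToricGerm.inCone_E (a i))
      rw [htE] at h10
      rw [← h10]
      ring
    have h11 := conc hvE htE hv hw hc hp.ne_zero
    have h12 := conc hvE htE hv hw hc hq'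
    linarith
  · push Not at h0
    obtain ⟨k, hk⟩ := h0
    have h1 : p ∣ X k := by
      by_contra h3
      exact hk (valP_other (K := K) hp (X_ne_zero k) h3)
    have h2 : Associated p (X k) := hp.associated_of_dvd X_prime h1
    have h3 : ∀ v' : DVal K, v'.ord (jo (Fin n) K p) = v'.ord (cv K k) := fun v' =>
      ord_assoc v' hp.ne_zero h2
    rw [h3]
    have h4 := hc k
    change _ = ((v.ord (cv K k) : ℤ) : ℝ) at h4
    rw [← h4]
    refine Finset.sum_congr rfl fun i _ => ?_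
    rw [h3]
    have h5 := congrFun (htE i) k
    change (vE i).ord (cv K k) = g.E (a i) k at h5
    rw [h5]

/-- the log discrepancies of the monomial valuations over a simplicial toric germ with a boundary
with coefficients in `Γ` -/
theorem key_formula {g : ToricGerm n K} {B : EffDiv g.X} (e : LocEq B g.P) {Γ : Set ℝ}
    (hB : CoeffIn B Γ) (a : Fin d → Fin g.N) :
    ∃ (r : ℕ) (S : Fin r → Set (Fin d → ℕ)) (c : Fin r → ℝ),
      (∀ j, (S j).Nonempty ∧ 0 ∉ S j ∧ c j ∈ Γ ∧ 0 < c j) ∧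
      ∀ v : DVal K, IsMonomial n v → ∀ w : Fin d → ℝ, (∀ i, 0 ≤ w i) →
        Coord (fun i => g.E (a i)) w (tv v) →
        logDisc S c w = -∑ k, e.ρ k * (v.ord (e.g k) : ℝ) := by
  classical
  choose vE hvE htE using fun i => exists_mon (K := K) (g.prim (a i))
  let A : Fin d → Fin n → ℤ := fun i => g.E (a i)
  obtain ⟨F, c, hFp, hFd, hc⟩ := fact (n := n) e.ρ e.g e.ne
  set β : Fin d → ℝ := fun i => B.mult (vE i) with hβ
  have h1 : ∀ i, -1 + β i = ∑ p ∈ F, c p * ((vE i).ord (jo (Fin n) K p) : ℝ) := by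
    intro i
    obtain ⟨b, hb, h2⟩ := e.eq (vE i) (ToricGerm.onAt_E (hvE i) (htE i))
    have h3 : b = -1 := hb.unique (can_mon g.e g.hT (hvE i))
    rw [← hc, ← h2, h3]
    push_cast
    rfl
  have h2 : ∀ p ∈ F, Thr g p → 0 ≤ c p ∧ (c p ≠ 0 → c p ∈ Γ) := by
    rintro p hp ⟨hpp, hcv, hon⟩
    obtain ⟨b, hb, h3⟩ := e.eq _ hon
    have hL := g.local_prime hpp hcv
    have h4 : b = 0 := hb.unique (can_unit g.e g.hT (by rw [← g.hR]; exact hL) hcv)
    have h5 : ∑ q ∈ F, c q * ((valP K p hpp).ord (jo (Fin n) K q) : ℝ) = c p := by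
      rw [Finset.sum_eq_single p]
      · rw [valP_self]; push_cast; ring
      · intro q hq hqp
        rw [valP_other hpp (hFp q hq).ne_zero fun h => hqp (hFd p hp q hq h).symm]
        push_cast; ring
      · intro h; exact absurd hp h
    rw [hc, h5, h4, Int.cast_zero, zero_add] at h3
    rw [← h3]
    exact ⟨mult_nonneg B _, fun h => hB _ hL h⟩
  let I' : Finset (Fin d) := Finset.univ.filter fun i => β i ≠ 0
  let F' : Finset (MvPolynomial (Fin n) ℂ) :=
    F.filter fun p => Thr g p ∧ c p ≠ 0 ∧ (0 : Fin d → ℕ) ∉ Sp A vE p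
  let Si : {i // i ∈ I'} ⊕ {p // p ∈ F'} → Set (Fin d → ℕ) :=
    Sum.elim (fun i => {(Pi.single i.1 1 : Fin d → ℕ)}) fun p => Sp A vE p.1
  let ci : {i // i ∈ I'} ⊕ {p // p ∈ F'} → ℝ := Sum.elim (fun i => β i.1) fun p => c p.1
  let φ : Fin (Fintype.card ({i // i ∈ I'} ⊕ {p // p ∈ F'})) ≃ {i // i ∈ I'} ⊕ {p // p ∈ F'} :=
    (Fintype.equivFin _).symm
  refine ⟨_, fun j => Si (φ j), fun j => ci (φ j), ?_, ?_⟩
  · intro j
    change (Si (φ j)).Nonempty ∧ 0 ∉ Si (φ j) ∧ ci (φ j) ∈ Γ ∧ 0 < ci (φ j)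
    generalize φ j = x
    rcases x with ⟨i, hi⟩ | ⟨p, hp⟩
    · have hi' : β i ≠ 0 := (Finset.mem_filter.1 hi).2
      refine ⟨⟨_, rfl⟩, ?_, ?_, ?_⟩
      · intro h
        have h3 := congrFun (Set.mem_singleton_iff.1 h) i
        simp at h3
      · exact hB _ (ToricGerm.local_E (hvE i) (htE i)) hi'
      · exact lt_of_le_of_ne (mult_nonneg B _) (Ne.symm hi')
    · obtain ⟨hpF, hpT, hpc, hp0S⟩ := Finset.mem_filter.1 hp
      refine ⟨?_, hp0S, (h2 p hpF hpT).2 hpc,
        lt_of_le_of_ne (h2 p hpF hpT).1 (Ne.symm hpc)⟩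
      have hp0 := (hFp p hpF).ne_zero
      obtain ⟨s, hs⟩ : p.support.Nonempty := by
        rwa [Finset.nonempty_iff_ne_empty, Ne, support_eq_empty]
      obtain ⟨m, hm, -⟩ := Sp_mem hvE htE hp0 hs
      exact ⟨m, hm⟩
  · intro v hv w hw hco
    have e1 : ∑ j, ci (φ j) * ordAlong (Si (φ j)) w = ∑ i, β i * w i +
        ∑ p ∈ F, (if Thr g p then c p * ((v.ord (jo (Fin n) K p) : ℝ) -
          ∑ i, w i * ((vE i).ord (jo (Fin n) K p) : ℝ)) else 0) := by
      rw [φ.sum_comp fun x => ci x * ordAlong (Si x) w, Fintype.sum_sum_type]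
      congr 1
      · have h3 : ∑ i : {i // i ∈ I'}, ci (Sum.inl i) * ordAlong (Si (Sum.inl i)) w =
            ∑ i : {i // i ∈ I'}, β i.1 * w i.1 :=
          Finset.sum_congr rfl fun i _ => by
            change β i.1 * ordAlong {(Pi.single i.1 1 : Fin d → ℕ)} w = _
            rw [ordAlong_single]
        rw [h3, Finset.sum_coe_sort I' fun i => β i * w i]
        refine Finset.sum_filter_of_ne fun i _ h4 h5 => h4 ?_
        rw [h5, zero_mul]
      · have h3 : ∑ p : {p // p ∈ F'}, ci (Sum.inr p) * ordAlong (Si (Sum.inr p)) w =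
            ∑ p : {p // p ∈ F'}, c p.1 * ((v.ord (jo (Fin n) K p.1) : ℝ) -
              ∑ i, w i * ((vE i).ord (jo (Fin n) K p.1) : ℝ)) :=
          Finset.sum_congr rfl fun p _ => by
            change c p.1 * ordAlong (Sp A vE p.1) w = _
            rw [ordAlong_Sp hvE htE hv hco (hFp p.1 (Finset.mem_filter.1 p.2).1).ne_zero]
        rw [h3, Finset.sum_coe_sort F' fun p => c p * ((v.ord (jo (Fin n) K p) : ℝ) -
              ∑ i, w i * ((vE i).ord (jo (Fin n) K p) : ℝ)), Finset.sum_filter]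
        refine Finset.sum_congr rfl fun p hp => ?_
        by_cases h4 : Thr g p
        · by_cases h5 : c p = 0
          · simp [h5]
          · by_cases h6 : (0 : Fin d → ℕ) ∈ Sp A vE p
            · rw [if_neg (fun h => h.2.2 h6), if_pos h4]
              have h7 := ordAlong_Sp hvE htE hv hco (hFp p hp).ne_zero
              rw [← h7, ordAlong_of_zero h6 hw, mul_zero]
            · rw [if_pos ⟨h4, h5, h6⟩, if_pos h4]
        · rw [if_neg (fun h => h4 h.1), if_neg h4]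
    have e2 : ∑ p ∈ F, (if Thr g p then c p * ((v.ord (jo (Fin n) K p) : ℝ) -
          ∑ i, w i * ((vE i).ord (jo (Fin n) K p) : ℝ)) else 0) =
        ∑ p ∈ F, c p * ((v.ord (jo (Fin n) K p) : ℝ) -
          ∑ i, w i * ((vE i).ord (jo (Fin n) K p) : ℝ)) := by
      refine Finset.sum_congr rfl fun p hp => ?_
      by_cases h4 : Thr g p
      · rw [if_pos h4]
      · rw [if_neg h4, lin_of_not_thr hvE htE (hFp p hp) h4 hv hw hco, sub_self, mul_zero]
    have e3 : ∑ p ∈ F, c p * ((v.ord (jo (Fin n) K p) : ℝ) -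
          ∑ i, w i * ((vE i).ord (jo (Fin n) K p) : ℝ)) =
        ∑ p ∈ F, c p * (v.ord (jo (Fin n) K p) : ℝ) - ∑ i, w i * (-1 + β i) := by
      simp only [mul_sub, Finset.sum_sub_distrib]
      congr 1
      simp only [h1, Finset.mul_sum]
      rw [Finset.sum_comm]
      exact Finset.sum_congr rfl fun i _ => Finset.sum_congr rfl fun p _ => by ring
    rw [logDisc, e1, e2, e3, hc]
    have e4 : ∑ i, w i * (-1 + β i) = -∑ i, w i + ∑ i, β i * w i := by
      rw [← Finset.sum_neg_distrib, ← Finset.sum_add_distrib]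
      exact Finset.sum_congr rfl fun i _ => by ring
    rw [e4]
    ring

end Pool.Agent.TH165.ACC
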