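import Mathlib
import Pool.Agent.TH165.ACC.KForm

/-!
# ACC for minimal log discrepancies which are computed by monomial valuations
-/

set_option autoImplicit false
set_option linter.unusedSectionVars false

namespace Pool.Agent.TH165.ACC

open Pool.Agent.H436R3.Fol Pool.Agent.H436R3.KT Pool.Agent.W497.Mld MvPolynomial

variable {n d : ℕ} {K : Type} [Field K] [Algebra ℂ K]
  [Algebra (MvPolynomial (Fin n) ℂ) K] [IsFractionRing (MvPolynomial (Fin n) ℂ) K]
  [IsScalarTower ℂ (MvPolynomial (Fin n) ℂ) K]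

theorem ordAlong_smul (S : Set (Fin n → ℕ)) {k : ℝ} (hk : 0 ≤ k) (w : Fin n → ℝ) :
    ordAlong S (k • w) = k * ordAlong S w := by
  rw [ordAlong, ordAlong, ← smul_eq_mul, ← Real.sInf_smul_of_nonneg hk]
  congr 1
  rw [← Set.image_smul, Set.image_image]
  refine Set.image_congr fun m _ => ?_
  rw [smul_eq_mul, Finset.mul_sum]
  exact Finset.sum_congr rfl fun i _ => by rw [Pi.smul_apply, smul_eq_mul]; ring

theorem logDisc_smul {r : ℕ} (S : Fin r → Set (Fin n → ℕ)) (c : Fin r → ℝ) {k : ℝ} (hk : 0 ≤ k)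
    (w : Fin n → ℝ) : logDisc S c (k • w) = k * logDisc S c w := by
  rw [logDisc, logDisc, mul_sub, Finset.mul_sum, Finset.mul_sum]
  congr 1
  exact Finset.sum_congr rfl fun j _ => by rw [ordAlong_smul _ hk]; ring

/-- a nonzero integer vector is a positive multiple of a primitive vector -/
theorem exists_prim {u : Fin n → ℤ} (hu : u ≠ 0) : ∃ (k : ℤ) (u' : Fin n → ℤ),
    0 < k ∧ Prim u' ∧ u = k • u' := by
  let I : Submodule ℤ ℤ := Submodule.span ℤ (Set.range u)
  obtain ⟨d, hd⟩ := (IsPrincipalIdealRing.principal I).principal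
  have hmem : ∀ i, ∃ a : ℤ, a * d = u i := by
    intro i
    have h1 : u i ∈ I := Submodule.subset_span ⟨i, rfl⟩
    rw [hd, Submodule.mem_span_singleton] at h1
    simpa using h1
  have hd0 : d ≠ 0 := by
    rintro rfl
    apply hu
    funext i
    obtain ⟨a, ha⟩ := hmem i
    rw [← ha, mul_zero, Pi.zero_apply]
  have h2 : d ∈ I := by rw [hd]; exact Submodule.mem_span_singleton_self d
  obtain ⟨c, hc⟩ := (Submodule.mem_span_range_iff_exists_fun ℤ).1 h2
  choose a ha using hmem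
  have h3 : pr c a = 1 := by
    have h4 : pr c a * d = 1 * d := by
      rw [pr, Finset.sum_mul, one_mul]
      nth_rewrite 2 [← hc]
      exact Finset.sum_congr rfl fun i _ => by rw [smul_eq_mul, ← ha i]; ring
    exact mul_right_cancel₀ hd0 h4
  rcases lt_or_gt_of_ne hd0 with h | h
  · refine ⟨-d, -a, by omega, ⟨-c, ?_⟩, ?_⟩
    · rw [pr_neg, ← h3]
      simp only [pr, Pi.neg_apply, mul_neg, Finset.sum_neg_distrib, neg_neg]
    · funext i
      simp only [Pi.smul_apply, Pi.neg_apply, smul_eq_mul]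
      rw [← ha i]
      ring
  · refine ⟨d, a, h, ⟨c, h3⟩, ?_⟩
    funext i
    simp only [Pi.smul_apply, smul_eq_mul]
    rw [← ha i]
    ring

/-- The minimal log discrepancy of the germ `(X ∋ P, B)` is computed by a monomial valuation. -/
def Computed {g : ToricGerm n K} {B : EffDiv g.X} (e : LocEq B g.P) (m : ℝ) : Prop :=
  ∃ v, IsOverGerm g.P v ∧ IsMonomial n v ∧ IsLogDisc e v m

theorem logDisc_mon {g : ToricGerm n K} {B : EffDiv g.X} {e : LocEq B g.P} {v : DVal K}
    (hv : IsMonomial n v) {m : ℝ} : IsLogDisc e v m ↔ m = -∑ k, e.ρ k * (v.ord (e.g k) : ℝ) := by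
  have h1 : IsCanOrd g.X.T v (-1) := can_mon g.e g.hT hv
  constructor
  · rintro ⟨a, ha, rfl⟩
    rw [ha.unique h1]
    push_cast
    ring
  · rintro rfl
    refine ⟨-1, h1, ?_⟩
    push_cast
    ring

theorem pos_of_mon {v : DVal K} (hv : IsMonomial n v) : 0 < n := by
  obtain ⟨m1, hm1⟩ := prim_of_mon hv
  by_contra h
  have h1 : IsEmpty (Fin n) := ⟨fun i => by have := i.2; omega⟩
  rw [pr, Finset.univ_eq_empty, Finset.sum_empty] at hm1
  omega

theorem ToricGerm.Inter.ne_zero {g : ToricGerm n K} (hn : 0 < n) {u : Fin n → ℤ}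
    (h : g.Inter u) : u ≠ 0 := by
  rintro rfl
  obtain ⟨Q, hQ⟩ := g.pointed
  have hQ0 : Q ≠ 0 := by
    rintro rfl
    have h1 : ∀ j : Fin g.N, False := fun j => by
      have := hQ j
      rw [pr_zero] at this
      exact lt_irrefl _ this
    have h2 := g.full (Pi.single ⟨0, hn⟩ 1) fun j => (h1 j).elim
    have h3 := congrFun h2 ⟨0, hn⟩
    simp at h3
  have h1 := h Q (fun j => (hQ j).le) hQ0
  rw [pr] at h1
  simp at h1

theorem DualVec.le {A : Fin d → Fin n → ℤ} {D : ℤ} (h : DualVec A D) : d ≤ n := by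
  have hli : LinearIndependent ℤ A := by
    rw [Fintype.linearIndependent_iff]
    intro c hc i
    obtain ⟨Q, hQ⟩ := h.2 i
    have h1 : pr Q (∑ j, c j • A j) = ∑ j, c j * pr Q (A j) := by
      simp only [pr, Finset.sum_apply, Finset.mul_sum, Pi.smul_apply, smul_eq_mul]
      rw [Finset.sum_comm]
      exact Finset.sum_congr rfl fun _ _ => Finset.sum_congr rfl fun _ _ => by ring
    rw [hc, Finset.sum_eq_single i] at h1
    · rw [hQ, if_pos rfl] at h1
      have h2 : pr Q 0 = 0 := Finset.sum_eq_zero fun _ _ => by simp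
      rw [h2] at h1
      exact (mul_eq_zero.1 h1.symm).resolve_right h.1.ne'
    · intro j _ hj
      rw [hQ, if_neg hj, mul_zero]
    · intro h; exact absurd (Finset.mem_univ _) h
  simpa using hli.fintype_card_le_finrank

/-- The geometric minimal log discrepancies are values of the combinatorial ones. -/
theorem mld_mem {g : ToricGerm n K} {B : EffDiv g.X} (e : LocEq B g.P) {Γ : Set ℝ}
    (hB : CoeffIn B Γ) {m : ℝ} (hm0 : 0 ≤ m) (hm : Pool.Agent.W497.Mld.IsMld e m)
    (hc : Computed e m) : ∃ d ≤ n, ∃ r, m ∈ mldsR d r Γ := by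
  obtain ⟨v0, hov0, hv0, hl⟩ := hc
  have hint0 := ToricGerm.inter_of_over (n := n) hov0
  obtain ⟨d, a, w0, hw0, hc0, D, hD⟩ := exists_simplex hint0.inCone
  obtain ⟨r, S, c, hS, hkey⟩ := key_formula e hB a
  refine ⟨d, hD.le, r, GE (fun i => g.E (a i)), S, c, GE_finite hD, hS, IsLeast.isGLB ⟨?_, ?_⟩⟩
  · refine ⟨w0, hw0, ⟨w0, _, rfl, hc0⟩, ?_⟩
    rw [hkey v0 hv0 w0 (fun i => (hw0 i).le) hc0]
    exact (logDisc_mon hv0).1 hl
  · rintro _ ⟨w, hw, hwG, rfl⟩
    obtain ⟨u, hu⟩ := coord_of_mem hwG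
    have hint := inter_of_coord (g := g) hc0 hint0 hu hw
    obtain ⟨k, u', hk, hu', rfl⟩ := exists_prim (hint.ne_zero (pos_of_mon hv0))
    obtain ⟨v, hv, htv⟩ := exists_mon (K := K) hu'
    have hk' : (0 : ℝ) < k := by exact_mod_cast hk
    have hw' : Coord (fun i => g.E (a i)) ((k : ℝ)⁻¹ • w) (tv v) := by
      intro j
      have h1 := hu j
      rw [Pi.smul_apply, smul_eq_mul] at h1
      push_cast at h1
      rw [htv]
      simp only [Pi.smul_apply, smul_eq_mul, mul_assoc]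
      rw [← Finset.mul_sum, h1]
      field_simp
    have hint' : g.Inter (tv v) :=
      inter_of_coord hc0 hint0 hw' fun i => mul_pos (inv_pos.2 hk') (hw i)
    have hov := ToricGerm.overGerm hv hint'
    have h3 := hkey v hv _ (fun i => (mul_pos (inv_pos.2 hk') (hw i)).le) hw'
    have h4 : m ≤ logDisc S c ((k : ℝ)⁻¹ • w) :=
      hm.2 ⟨v, hov, (logDisc_mon hv).2 h3⟩
    have h5 : logDisc S c w = k * logDisc S c ((k : ℝ)⁻¹ • w) := by
      rw [← logDisc_smul _ _ hk'.le, smul_smul, mul_inv_cancel₀ hk'.ne', one_smul]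
    rw [h5]
    have h6 : (1 : ℝ) ≤ k := by exact_mod_cast hk
    nlinarith

theorem acc_union {N : ℕ} {S : ℕ → Set ℝ} (h : ∀ d ≤ N, IsACC (S d)) :
    IsACC {a | ∃ d ≤ N, a ∈ S d} := by
  intro u hu hmem
  choose d hdN hd using hmem
  obtain ⟨d0, hd0, hinf⟩ : ∃ d0 ≤ N, {k | d k = d0}.Infinite := by
    by_contra hcon
    push Not at hcon
    have h1 : (Set.univ : Set ℕ) ⊆ ⋃ d0 ∈ Set.Iic N, {k | d k = d0} := by
      intro k _
      simp only [Set.mem_iUnion, Set.mem_setOf_eq, Set.mem_Iic]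
      exact ⟨d k, hdN k, rfl⟩
    have h2 : (⋃ d0 ∈ Set.Iic N, {k | d k = d0}).Finite :=
      Set.Finite.biUnion (Set.finite_Iic N) fun d0 h => hcon d0 h
    exact Set.infinite_univ (h2.subset h1)
  let θ := Nat.nth (fun k => d k = d0)
  have hθ : StrictMono θ := Nat.nth_strictMono hinf
  have hθ' : ∀ j, d (θ j) = d0 := fun j => Nat.nth_mem_of_infinite hinf j
  obtain ⟨J, hJ⟩ := h d0 hd0 (u ∘ θ) (hu.comp hθ.monotone) fun j => by
    have := hd (θ j)
    rw [hθ' j] at this
    exact this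
  refine ⟨θ J, fun k hk => le_antisymm ?_ (hu hk)⟩
  have h1 : J ≤ k := hθ.le_apply.trans hk
  calc u k ≤ u (θ k) := hu hθ.le_apply
    _ = u (θ J) := hJ k h1

/-- ACC for minimal log discrepancies of pairs on toric germs which are computed by monomial
valuations -/
theorem geo_acc {Γ : Set ℝ} (hΓ : Pool.Agent.TH165.ACC.IsDCC Γ) :
    IsACC {m : ℝ | 0 ≤ m ∧ ∃ (g : ToricGerm n K) (B : EffDiv g.X) (e : LocEq B g.P),
      CoeffIn B Γ ∧ Pool.Agent.W497.Mld.IsMld e m ∧ Computed e m} := by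
  intro u hu hmem
  refine acc_union (N := n) (S := fun d => {a | ∃ r, a ∈ mldsR d r Γ}) (fun d _ => acc hΓ) u hu
    fun k => ?_
  obtain ⟨h0, g, B, e, hB, hm, hc⟩ := hmem k
  exact mld_mem e hB h0 hm hc

end Pool.Agent.TH165.ACC
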