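import Mathlib
import Pool.Agent.TH165.ACC.GMain

/-!
# Initial forms and residues
-/

set_option autoImplicit false
set_option linter.unusedSectionVars false

namespace Pool.Agent.TH165.ACC

open Pool.Agent.H436R3.Fol Pool.Agent.H436R3.KT Pool.Agent.W497.Mld MvPolynomial

variable {n : ℕ}

section lin

/-- linearly independent rows have a nonzero maximal minor -/
theorem exists_minor {J : Type} [Fintype J] [DecidableEq J] (A : Matrix J (Fin n) ℂ)
    (h : LinearIndependent ℂ A.row) :
    ∃ σ : J → Fin n, Function.Injective σ ∧ (Matrix.of fun a b => A b (σ a)).det ≠ 0 := by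
  obtain ⟨κ, a, ha, hspan, hind⟩ := exists_linearIndependent' ℂ A.col
  have h1 : Submodule.span ℂ (Set.range A.col) = ⊤ := by
    apply Submodule.eq_top_of_finrank_eq
    rw [← Matrix.rank_eq_finrank_span_cols, h.rank_matrix, Module.finrank_fintype_fun_eq_card]
  have hfin : Finite κ := Finite.of_injective a ha
  have := Fintype.ofFinite κ
  let b : Module.Basis κ ℂ (J → ℂ) := Module.Basis.mk hind (by rw [hspan, h1])
  have hcard : Fintype.card κ = Fintype.card J := by
    rw [← Module.finrank_eq_card_basis b, Module.finrank_fintype_fun_eq_card]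
  let e : J ≃ κ := (Fintype.equivOfCardEq hcard).symm
  refine ⟨fun j => a (e j), ha.comp e.injective, ?_⟩
  have h2 : LinearIndependent ℂ fun j : J => A.col (a (e j)) := hind.comp e e.injective
  have h3 : LinearIndependent ℂ (Matrix.of fun (i j : J) => A j (a (e i))).row := h2
  rw [Matrix.linearIndependent_rows_iff_isUnit, Matrix.isUnit_iff_isUnit_det] at h3
  exact h3.ne_zero

end lin

section parts

/-- the part of weight `m` -/
noncomputable def part (u : Fin n → ℤ) (m : ℤ) (p : MvPolynomial (Fin n) ℂ) :
    MvPolynomial (Fin n) ℂ :=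
  ∑ s ∈ p.support with pr (ex s) u = m, monomial s (p.coeff s)

/-- the initial form of `p` for the weights `u`: the sum of the terms of least weight -/
noncomputable def lead (u : Fin n → ℤ) (p : MvPolynomial (Fin n) ℂ) : MvPolynomial (Fin n) ℂ :=
  ∑ s ∈ p.support with ∀ t ∈ p.support, pr (ex s) u ≤ pr (ex t) u, monomial s (p.coeff s)

theorem coeff_part (u : Fin n → ℤ) (m : ℤ) (p : MvPolynomial (Fin n) ℂ) (s : Fin n →₀ ℕ) :
    (part u m p).coeff s = if pr (ex s) u = m then p.coeff s else 0 := by
  classical
  rw [part, coeff_sum]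
  simp only [coeff_monomial]
  rw [Finset.sum_ite_eq']
  simp only [Finset.mem_filter, mem_support_iff]
  by_cases h : p.coeff s = 0
  · simp [h]
  · by_cases h' : pr (ex s) u = m <;> simp [h, h']

theorem lead_eq {u : Fin n → ℤ} {m : ℤ} {p : MvPolynomial (Fin n) ℂ}
    (h1 : ∃ s ∈ p.support, m = pr (ex s) u) (h2 : ∀ s ∈ p.support, m ≤ pr (ex s) u) :
    lead u p = part u m p := by
  classical
  rw [lead, part]
  congr 1
  apply Finset.filter_congr
  intro s hs
  obtain ⟨t, ht, h3⟩ := h1
  constructor
  · intro h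
    have := h t ht
    have := h2 s hs
    omega
  · intro h r hr
    rw [h]
    exact h2 r hr

theorem coeff_euler (l : Fin n) (p : MvPolynomial (Fin n) ℂ) (s : Fin n →₀ ℕ) :
    (X l * pderiv l p).coeff s = (s l : ℂ) * p.coeff s := by
  classical
  induction p using MvPolynomial.induction_on' with
  | monomial t a =>
    rw [pderiv_monomial, coeff_X_mul']
    simp only [coeff_monomial]
    by_cases hts : t = s
    · subst hts
      by_cases h0 : t l = 0
      · rw [if_neg (by simp [h0])]
        simp [h0]
      · rw [if_pos (by simp [h0]), if_pos rfl, if_pos rfl]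
        ring
    · rw [if_neg hts, mul_zero]
      by_cases h0 : s l = 0
      · rw [if_neg (by simp [h0])]
      · rw [if_pos (by simp [h0])]
        by_cases h1 : t l = 0
        · simp [h1]
        · rw [if_neg]
          intro h2
          apply hts
          ext i
          have h3 := DFunLike.congr_fun h2 i
          simp only [Finsupp.coe_tsub, Pi.sub_apply] at h3
          by_cases hi : l = i
          · subst hi
            simp only [Finsupp.single_eq_same] at h3
            omega
          · rw [Finsupp.single_eq_of_ne (Ne.symm hi)] at h3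
            simpa using h3
  | add p q hp hq =>
    rw [map_add, mul_add, coeff_add, coeff_add, hp, hq]
    ring

theorem euler_part (l : Fin n) (u : Fin n → ℤ) (m : ℤ) (p : MvPolynomial (Fin n) ℂ) :
    X l * pderiv l (part u m p) = part u m (X l * pderiv l p) := by
  ext s
  rw [coeff_euler, coeff_part, coeff_part, coeff_euler]
  split_ifs <;> simp

theorem support_euler (l : Fin n) (p : MvPolynomial (Fin n) ℂ) :
    (X l * pderiv l p).support ⊆ p.support := by
  intro s hs
  rw [mem_support_iff] at hs ⊢
  rw [coeff_euler] at hs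
  exact right_ne_zero_of_mul hs

end parts

variable {K : Type} [Field K] [Algebra ℂ K]
  [Algebra (MvPolynomial (Fin n) ℂ) K] [IsFractionRing (MvPolynomial (Fin n) ℂ) K]
  [IsScalarTower ℂ (MvPolynomial (Fin n) ℂ) K]

/-- the maximal ideal of the valuation ring -/
def mvI (v : DVal K) : Ideal v.O where
  carrier := {x | v.Pos (x : K)}
  zero_mem' := Or.inl rfl
  add_mem' := fun {a b} ha hb => v.pos_add (f := (a : K)) (g := (b : K)) ha hb
  smul_mem' := fun c x hx => v.pos_mul_left (f := (c : K)) (g := (x : K)) c.2 hx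

theorem mem_mvI {v : DVal K} {x : v.O} : x ∈ mvI v ↔ v.Pos (x : K) := Iff.rfl

theorem ord_eq_zero_of_notMem {v : DVal K} {x : v.O} (h : x ∉ mvI v) :
    (x : K) ≠ 0 ∧ v.ord (x : K) = 0 := by
  have h1 : (x : K) ≠ 0 := fun h0 => h (Or.inl h0)
  refine ⟨h1, ?_⟩
  have h2 := v.ord_nonneg h1 x.2
  by_contra h3
  exact h (Or.inr (by omega))

instance mvI_prime (v : DVal K) : (mvI v).IsPrime where
  ne_top' := by
    rw [Ne, Ideal.eq_top_iff_one]
    rintro (h | h)
    · exact one_ne_zero h
    · change 0 < v.ord (1 : K) at h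
      rw [v.ord_one] at h
      exact lt_irrefl _ h
  mem_or_mem' := by
    intro x y hxy
    by_contra h
    push Not at h
    obtain ⟨h1, h2⟩ := ord_eq_zero_of_notMem h.1
    obtain ⟨h3, h4⟩ := ord_eq_zero_of_notMem h.2
    rcases hxy with h5 | h5
    · exact mul_ne_zero h1 h3 h5
    · change 0 < v.ord ((x : K) * (y : K)) at h5
      rw [v.map_mul _ _ h1 h3, h2, h4] at h5
      omega

section phi

variable {v : DVal K} {π : K} (hπ : π ≠ 0) (h1 : v.ord π = 1)

include hπ h1 in
theorem reg_unit (i : Fin n) : v.Reg (cv K i * π ^ (-v.ord (cv K i))) := by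
  right
  rw [v.map_mul _ _ (cv_ne i) (zpow_ne_zero _ hπ), v.ord_zpow hπ, h1]
  omega

/-- the evaluation at the normalised coordinates -/
noncomputable def Phi : MvPolynomial (Fin n) ℂ →+* v.O :=
  eval₂Hom ((algebraMap ℂ K).codRestrict v.O fun c => v.reg_const c)
    fun i => ⟨cv K i * π ^ (-v.ord (cv K i)), reg_unit hπ h1 i⟩

theorem Phi_monomial (s : Fin n →₀ ℕ) (c : ℂ) : (Phi hπ h1 (monomial s c) : K) =
    jo (Fin n) K (monomial s c) * π ^ (-pr (ex s) (tv v)) := by
  have key : ∀ S : Finset (Fin n), (∏ i ∈ S, (π ^ (-v.ord (cv K i))) ^ s i) =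
      π ^ (-∑ i ∈ S, (s i : ℤ) * v.ord (cv K i)) := by
    intro S
    induction S using Finset.induction_on with
    | empty => simp
    | insert a S ha ih =>
      rw [Finset.prod_insert ha, Finset.sum_insert ha, neg_add, zpow_add₀ hπ, ih]
      congr 1
      rw [← zpow_natCast, ← zpow_mul]
      congr 1
      ring
  rw [Phi, coe_eval₂Hom, eval₂_monomial, Finsupp.prod_fintype _ _ (fun i => pow_zero _),
    jo_monomial, ym]
  push_cast
  simp only [mul_pow, Finset.prod_mul_distrib, key, ex, zpow_natCast, mul_assoc]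
  rfl

theorem reg_mul_zpow {q : MvPolynomial (Fin n) ℂ} {m : ℤ}
    (h : ∀ s ∈ q.support, m ≤ pr (ex s) (tv v)) : v.Reg (jo (Fin n) K q * π ^ (-m)) ∧
      v.Pos (jo (Fin n) K q * π ^ (-m) - (Phi hπ h1 (part (tv v) m q) : K)) := by
  classical
  have hterm : ∀ s ∈ q.support, v.Reg (jo (Fin n) K (monomial s (q.coeff s)) * π ^ (-m)) ∧
      (pr (ex s) (tv v) ≠ m → v.Pos (jo (Fin n) K (monomial s (q.coeff s)) * π ^ (-m))) := by
    intro s hs
    have h2 : v.ord (jo (Fin n) K (monomial s (q.coeff s)) * π ^ (-m)) =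
        pr (ex s) (tv v) - m := by
      have hc : q.coeff s ≠ 0 := mem_support_iff.1 hs
      rw [v.map_mul _ _ (jo_ne (by rwa [Ne, monomial_eq_zero])) (zpow_ne_zero _ hπ), jo_monomial,
        v.map_mul _ _ (by rwa [Ne, map_eq_zero_iff _ (algebraMap ℂ K).injective]) (ym_ne _),
        v.const _ hc, ord_ym, v.ord_zpow hπ, h1]
      ring
    have h3 := h s hs
    exact ⟨Or.inr (by rw [h2]; omega), fun h4 => Or.inr (by rw [h2]; omega)⟩
  have hsum : jo (Fin n) K q * π ^ (-m) =
      ∑ s ∈ q.support, jo (Fin n) K (monomial s (q.coeff s)) * π ^ (-m) := by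
    conv_lhs => rw [q.as_sum, map_sum, Finset.sum_mul]
  constructor
  · rw [hsum]
    exact v.O.sum_mem fun s hs => (hterm s hs).1
  · have h5 : (Phi hπ h1 (part (tv v) m q) : K) =
        ∑ s ∈ q.support with pr (ex s) (tv v) = m,
          jo (Fin n) K (monomial s (q.coeff s)) * π ^ (-m) := by
      rw [part, map_sum]
      push_cast
      refine Finset.sum_congr rfl fun s hs => ?_
      rw [Phi_monomial, (Finset.mem_filter.1 hs).2]
    rw [hsum, h5, ← Finset.sum_filter_add_sum_filter_not q.support
      (fun s => pr (ex s) (tv v) = m), add_sub_cancel_left]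
    have h6 : ∀ S : Finset (Fin n →₀ ℕ), S ⊆ q.support → (∀ s ∈ S, pr (ex s) (tv v) ≠ m) →
        v.Pos (∑ s ∈ S, jo (Fin n) K (monomial s (q.coeff s)) * π ^ (-m)) := by
      intro S
      induction S using Finset.induction_on with
      | empty => intro _ _; exact Or.inl (by simp)
      | insert a S ha ih =>
        intro hS hm
        rw [Finset.sum_insert ha]
        exact v.pos_add ((hterm a (hS (Finset.mem_insert_self a S))).2
          (hm a (Finset.mem_insert_self a S)))
          (ih (fun x hx => hS (Finset.mem_insert_of_mem hx))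
            fun x hx => hm x (Finset.mem_insert_of_mem hx))
    exact h6 _ (Finset.filter_subset _ _) fun s hs => (Finset.mem_filter.1 hs).2

end phi

end Pool.Agent.TH165.ACC
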