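import Mathlib
import Pool.Agent.TH165.ACC.Nond

/-!
# Minimal log discrepancies of nondegenerate pairs are computed by monomial valuations
-/

set_option autoImplicit false
set_option linter.unusedSectionVars false

namespace Pool.Agent.TH165.ACC

open Pool.Agent.H436R3.Fol Pool.Agent.H436R3.KT Pool.Agent.W497.Mld MvPolynomial

variable {n : ℕ} {K : Type} [Field K] [Algebra ℂ K]
  [Algebra (MvPolynomial (Fin n) ℂ) K] [IsFractionRing (MvPolynomial (Fin n) ℂ) K]
  [IsScalarTower ℂ (MvPolynomial (Fin n) ℂ) K]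

/-- The boundary `B` is nondegenerate at `P`: its coefficients are at most `1`, and its components
through `P` which meet the torus are components of the zero divisors of the members of a
nondegenerate system of polynomials. -/
def NondegBoundary (g : ToricGerm n K) (B : EffDiv g.X) : Prop :=
  (∀ v, B.mult v ≤ 1) ∧ ∃ (s : ℕ) (p : Fin s → MvPolynomial (Fin n) ℂ), IsNondeg g p ∧
    ∀ v, OnAt g.P v → (∀ i : Fin n, v.ord (cv K i) = 0) → B.mult v ≠ 0 →
      ∃ j, v.Pos (jo (Fin n) K (p j))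

/-- the order is at least the least weight of a monomial -/
theorem ord_ge_mon {v v' : DVal K} (hv' : IsMonomial n v') {k : ℤ} (hk : 0 < k)
    (htv : (tv v : Fin n → ℤ) = k • tv v') {p : MvPolynomial (Fin n) ℂ} (hp : p ≠ 0) :
    k * v'.ord (jo (Fin n) K p) ≤ v.ord (jo (Fin n) K p) := by
  obtain ⟨π, hπ, h1⟩ := v.surj
  have h2 : ∀ t ∈ p.support, k * v'.ord (jo (Fin n) K p) ≤ pr (ex t) (tv v) := by
    intro t ht
    rw [htv, pr_smul_right]
    exact mul_le_mul_of_nonneg_left ((hv' p hp).2 t ht) hk.le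
  have h3 := (reg_mul_zpow hπ h1 h2).1
  have h4 := v.ord_nonneg (mul_ne_zero (jo_ne hp) (zpow_ne_zero _ hπ)) h3
  rw [v.map_mul _ _ (jo_ne hp) (zpow_ne_zero _ hπ), v.ord_zpow hπ, h1] at h4
  omega

theorem eq_of_not_thr {g : ToricGerm n K} {v v' : DVal K} (hov : IsOverGerm g.P v)
    (hv' : IsMonomial n v') (hin : g.InCone (tv v')) {k : ℤ} (hk : 0 < k)
    (htv : (tv v : Fin n → ℤ) = k • tv v') {p : MvPolynomial (Fin n) ℂ} (hp : Prime p)
    (h : ¬ Thr g p) : v.ord (jo (Fin n) K p) = k * v'.ord (jo (Fin n) K p) := by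
  by_cases h0 : ∀ i : Fin n, (valP K p hp).ord (cv K i) = 0
  · have hL := g.local_prime hp h0
    have h1 : ¬ OnAt g.P (valP K p hp) := fun h1 => h ⟨hp, h0, h1⟩
    have h2 : ∃ f : g.X.R, (valP K p hp).Pos (f : K) ∧ g.P f ≠ 0 := by
      by_contra h3
      push Not at h3
      exact h1 ⟨hL, h3⟩
    obtain ⟨f, hf, hPf⟩ := h2
    obtain ⟨M, q, e1, e2, -⟩ := g.rep f
    have hf0 : (f : K) ≠ 0 := by
      intro h3
      apply hPf
      have : f = 0 := Subtype.ext h3
      rw [this, map_zero]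
    have hq : q ≠ 0 := by
      rintro rfl
      rw [coeff_zero] at e2
      exact hPf e2.symm
    have hpq : p ∣ q := by
      by_contra h3
      have h4 := valP_other (K := K) hp hq h3
      have h7 : (tv (valP K p hp) : Fin n → ℤ) = 0 := funext h0
      rw [← e1, (valP K p hp).map_mul _ _ hf0 (ym_ne _), ord_ym, h7, pr] at h4
      simp only [Pi.zero_apply, mul_zero, Finset.sum_const_zero, add_zero] at h4
      rcases hf with hf | hf
      · exact hf0 hf
      · omega
    obtain ⟨q', rfl⟩ := hpq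
    have hq' : q' ≠ 0 := right_ne_zero_of_mul hq
    obtain ⟨-, h4'⟩ := ToricGerm.ord_zero_of_ne hv' hin hPf
    have h4 : v.ord (f : K) = 0 := by
      obtain ⟨⟨S, -, hRS, hSv⟩, hcen⟩ := hov
      have h5 := v.ord_nonneg hf0 (hSv.1 _ (hRS f.2))
      have h6 : ¬ v.Pos (f : K) := fun h7 => hPf ((hcen f).1 h7)
      by_contra h7
      exact h6 (Or.inr (by omega))
    have h5 : v.ord (jo (Fin n) K (p * q')) = pr (ex M) (tv v) := by
      rw [← e1, v.map_mul _ _ hf0 (ym_ne _), h4, zero_add, ord_ym]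
    have h5' : v'.ord (jo (Fin n) K (p * q')) = pr (ex M) (tv v') := by
      rw [← e1, v'.map_mul _ _ hf0 (ym_ne _), h4', zero_add, ord_ym]
    rw [htv, pr_smul_right, ← h5', map_mul, v.map_mul _ _ (jo_ne hp.ne_zero) (jo_ne hq'),
      v'.map_mul _ _ (jo_ne hp.ne_zero) (jo_ne hq')] at h5
    have h6 := ord_ge_mon hv' hk htv hp.ne_zero
    have h7 := ord_ge_mon hv' hk htv hq'
    linarith
  · push Not at h0
    obtain ⟨i, hi⟩ := h0
    have h1 : p ∣ X i := by
      by_contra h3
      exact hi (valP_other (K := K) hp (X_ne_zero i) h3)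
    have h2 : Associated p (X i) := hp.associated_of_dvd X_prime h1
    have h3 : ∀ v' : DVal K, v'.ord (jo (Fin n) K p) = v'.ord (cv K i) := fun v' =>
      ord_assoc v' hp.ne_zero h2
    rw [h3, h3]
    exact congrFun htv i

theorem prod_dvd {A : Type} [CommRing A] [IsDomain A] (S : Finset A) (a : A)
    (hS : ∀ p ∈ S, Prime p) (hd : ∀ p ∈ S, ∀ q ∈ S, p ∣ q → p = q) (ha : ∀ p ∈ S, p ∣ a) :
    ∏ p ∈ S, p ∣ a := by
  classical
  induction S using Finset.induction_on with
  | empty => simp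
  | insert b S hb ih =>
    rw [Finset.prod_insert hb]
    obtain ⟨q, hq⟩ := ih (fun p hp => hS p (Finset.mem_insert_of_mem hp))
      (fun p hp q hq => hd p (Finset.mem_insert_of_mem hp) q (Finset.mem_insert_of_mem hq))
      fun p hp => ha p (Finset.mem_insert_of_mem hp)
    have hbp := hS b (Finset.mem_insert_self b S)
    have h1 : b ∣ (∏ p ∈ S, p) * q := by rw [← hq]; exact ha b (Finset.mem_insert_self b S)
    have h2 : ¬ b ∣ ∏ p ∈ S, p := by
      intro h3
      obtain ⟨p, hp, h4⟩ := (hbp.dvd_finsetProd_iff _).1 h3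
      have := hd b (Finset.mem_insert_self b S) p (Finset.mem_insert_of_mem hp) h4
      exact hb (this ▸ hp)
    obtain ⟨r, hr⟩ := (hbp.dvd_or_dvd h1).resolve_left h2
    exact ⟨r, by rw [hq, hr]; ring⟩

theorem ne_zero_of_inter {g : ToricGerm n K} {v : DVal K} (h : g.Inter (tv v)) :
    (tv v : Fin n → ℤ) ≠ 0 := by
  intro h0
  rcases isEmpty_or_nonempty (Fin n) with hn | ⟨⟨i⟩⟩
  · obtain ⟨f, hf, h1⟩ := v.surj
    obtain ⟨a, b, hb, rfl⟩ := exists_frac (MvPolynomial (Fin n) ℂ) f
    have ha : a ≠ 0 := by rintro rfl; simp at hf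
    have hu : ∀ q : MvPolynomial (Fin n) ℂ, q ≠ 0 → v.ord (jo (Fin n) K q) = 0 := by
      intro q hq
      rw [eq_C_of_isEmpty q, jo_C]
      apply v.const
      intro h2
      apply hq
      rw [eq_C_of_isEmpty q, h2, C_0]
    rw [← jo_apply, ← jo_apply, v.ord_div (jo_ne ha) (jo_ne hb), hu a ha, hu b hb] at h1
    omega
  · exact h.ne_zero i.pos h0

/-- The minimal log discrepancy of a nondegenerate pair is computed by a monomial valuation. -/
theorem computed_of_nondeg {g : ToricGerm n K} {B : EffDiv g.X} {e : LocEq B g.P} {m : ℝ}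
    (hm0 : 0 ≤ m) (hm : Pool.Agent.W497.Mld.IsMld e m) (hB : NondegBoundary g B) :
    Computed e m := by
  classical
  obtain ⟨⟨v, hov, N, hN, hmv⟩, hleast⟩ := hm
  obtain ⟨hB1, s, q, hq, hcomp⟩ := hB
  have hint := ToricGerm.inter_of_over (n := n) hov
  obtain ⟨k, u', hk, hu', htv'⟩ := exists_prim (ne_zero_of_inter hint)
  obtain ⟨v', hv', rfl⟩ := exists_mon (K := K) hu'
  have hint' : g.Inter (tv v') := by
    intro r hr hr0
    have h1 := hint r hr hr0
    rw [htv', pr_smul_right] at h1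
    exact (pos_iff_pos_of_mul_pos h1).1 hk
  have hov' := ToricGerm.overGerm hv' hint'
  set a' : ℝ := -∑ k, e.ρ k * (v'.ord (e.g k) : ℝ) with ha'
  have hl' : IsLogDisc e v' a' := (logDisc_mon hv').2 rfl
  have h1 : m ≤ a' := hleast ⟨v', hov', hl'⟩
  obtain ⟨F, c, hFp, hFd, hc⟩ := fact (n := n) e.ρ e.g e.ne
  let D : MvPolynomial (Fin n) ℂ → ℤ := fun p =>
    v.ord (jo (Fin n) K p) - k * v'.ord (jo (Fin n) K p)
  have hD0 : ∀ p, p ≠ 0 → 0 ≤ D p := fun p hp => by
    have := ord_ge_mon hv' hk htv' hp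
    simp only [D]
    omega
  have hDm : ∀ p r, p ≠ 0 → r ≠ 0 → D (p * r) = D p + D r := by
    intro p r hp hr
    simp only [D]
    rw [map_mul, v.map_mul _ _ (jo_ne hp) (jo_ne hr), v'.map_mul _ _ (jo_ne hp) (jo_ne hr)]
    ring
  have hDp : ∀ S : Finset (MvPolynomial (Fin n) ℂ), (∀ p ∈ S, p ≠ 0) →
      (∏ p ∈ S, p) ≠ 0 ∧ D (∏ p ∈ S, p) = ∑ p ∈ S, D p := by
    intro S
    induction S using Finset.induction_on with
    | empty =>
      intro _
      simp only [Finset.prod_empty, Finset.sum_empty, D, map_one, v.ord_one, v'.ord_one]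
      simp
    | insert b S hb ih =>
      intro hS
      obtain ⟨h2, h3⟩ := ih fun p hp => hS p (Finset.mem_insert_of_mem hp)
      have hb0 := hS b (Finset.mem_insert_self b S)
      rw [Finset.prod_insert hb, Finset.sum_insert hb, hDm _ _ hb0 h2, h3]
      exact ⟨mul_ne_zero hb0 h2, rfl⟩
  let F' : Finset (MvPolynomial (Fin n) ℂ) := F.filter fun p => Thr g p ∧ c p ≠ 0
  have hThr : ∀ p ∈ F, Thr g p → 0 ≤ c p ∧ c p ≤ 1 ∧ (c p ≠ 0 → ∃ j, p ∣ q j) := by
    rintro p hp ⟨hpp, hcv, hon⟩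
    obtain ⟨a, ha, h3⟩ := e.eq _ hon
    have hL := g.local_prime hpp hcv
    have h4 : a = 0 := ha.unique (can_unit g.e g.hT (by rw [← g.hR]; exact hL) hcv)
    have h5 : ∑ r ∈ F, c r * ((valP K p hpp).ord (jo (Fin n) K r) : ℝ) = c p := by
      rw [Finset.sum_eq_single p]
      · rw [valP_self]; push_cast; ring
      · intro r hr hrp
        rw [valP_other hpp (hFp r hr).ne_zero fun h => hrp (hFd p hp r hr h).symm]
        push_cast; ring
      · intro h; exact absurd hp h
    rw [hc, h5, h4, Int.cast_zero, zero_add] at h3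
    rw [← h3]
    refine ⟨mult_nonneg B _, hB1 _, fun h6 => ?_⟩
    obtain ⟨j, hj⟩ := hcomp _ hon hcv h6
    exact ⟨j, (valP_pos_iff hpp (q j)).1 hj⟩
  have h2 : ∑ p ∈ F, c p * (D p : ℝ) ≤ ∑ p ∈ F', (D p : ℝ) := by
    rw [Finset.sum_filter]
    refine Finset.sum_le_sum fun p hp => ?_
    have hDp0 : (0 : ℝ) ≤ D p := by exact_mod_cast hD0 p (hFp p hp).ne_zero
    by_cases h3 : Thr g p
    · obtain ⟨h4, h5, -⟩ := hThr p hp h3
      by_cases h6 : c p = 0
      · rw [h6, zero_mul]
        split_ifs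
        · exact hDp0
        · exact le_rfl
      · rw [if_pos ⟨h3, h6⟩]
        nlinarith
    · have h4 : D p = 0 := by
        have := eq_of_not_thr hov hv' hint'.inCone hk htv' (hFp p hp) h3
        simp only [D]
        omega
      rw [if_neg (fun h => h3 h.1), h4]
      simp
  have h3 : ∑ p ∈ F', D p ≤ ∑ j, D (q j) := by
    calc ∑ p ∈ F', D p ≤ ∑ p ∈ F', ∑ j, (if p ∣ q j then D p else 0) := by
          refine Finset.sum_le_sum fun p hp => ?_
          obtain ⟨hpF, hpT, hpc⟩ := Finset.mem_filter.1 hp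
          obtain ⟨j, hj⟩ := (hThr p hpF hpT).2.2 hpc
          have h4 : (if p ∣ q j then D p else 0) ≤ ∑ j, (if p ∣ q j then D p else 0) :=
            Finset.single_le_sum (f := fun j => if p ∣ q j then D p else 0) (fun i _ => by
              split_ifs
              · exact hD0 p (hFp p hpF).ne_zero
              · exact le_rfl) (Finset.mem_univ j)
          rwa [if_pos hj] at h4
      _ = ∑ j, ∑ p ∈ F', (if p ∣ q j then D p else 0) := Finset.sum_comm
      _ ≤ ∑ j, D (q j) := by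
          refine Finset.sum_le_sum fun j _ => ?_
          rw [← Finset.sum_filter]
          have h5 : ∀ p ∈ F'.filter (fun p => p ∣ q j), Prime p ∧ p ∈ F := fun p hp => by
            have := (Finset.mem_filter.1 (Finset.mem_filter.1 hp).1).1
            exact ⟨hFp p this, this⟩
          obtain ⟨h6, h7⟩ := hDp (F'.filter fun p => p ∣ q j) fun p hp => (h5 p hp).1.ne_zero
          obtain ⟨r, hr⟩ := prod_dvd (F'.filter fun p => p ∣ q j) (q j) (fun p hp => (h5 p hp).1)
            (fun p hp p' hp' => hFd p (h5 p hp).2 p' (h5 p' hp').2)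
            fun p hp => (Finset.mem_filter.1 hp).2
          have hr0 : r ≠ 0 := by
            rintro rfl
            rw [mul_zero] at hr
            exact hq.1 j hr
          have h8 : D (q j) = D (∏ p ∈ F'.filter (fun p => p ∣ q j), p) + D r := by
            rw [← hDm _ _ h6 hr0]
            exact congrArg D hr
          rw [h8, h7]
          have := hD0 r hr0
          linarith
  have h4 : ∑ j, D (q j) ≤ N + 1 := jac_nondeg hq hov hN hv' hk htv'
  have h5 : (k : ℝ) * a' ≤ m := by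
    have h6 : m - (k : ℝ) * a' = 1 + (N : ℝ) - ∑ p ∈ F, c p * (D p : ℝ) := by
      have h7 : ∑ p ∈ F, c p * (D p : ℝ) = ∑ p ∈ F, c p * (v.ord (jo (Fin n) K p) : ℝ) -
          (k : ℝ) * ∑ p ∈ F, c p * (v'.ord (jo (Fin n) K p) : ℝ) := by
        rw [Finset.mul_sum, ← Finset.sum_sub_distrib]
        refine Finset.sum_congr rfl fun p _ => ?_
        simp only [D]
        push_cast
        ring
      rw [h7, ← hc, ← hc, hmv, ha']
      ring
    have h8 : (∑ p ∈ F', (D p : ℝ)) ≤ (N : ℝ) + 1 := by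
      have := h3.trans h4
      exact_mod_cast this
    linarith
  have h6 : (1 : ℝ) ≤ k := by exact_mod_cast hk
  have h7 : a' ≤ m := by nlinarith
  rw [le_antisymm h1 h7]
  exact ⟨v', hov', hv', hl'⟩

/-- **ACC** for minimal log discrepancies of pairs on toric germs. -/
theorem geo_acc' {Γ : Set ℝ} (hΓ : Pool.Agent.TH165.ACC.IsDCC Γ) :
    IsACC {m : ℝ | 0 ≤ m ∧ ∃ (g : ToricGerm n K) (B : EffDiv g.X) (e : LocEq B g.P),
      CoeffIn B Γ ∧ Pool.Agent.W497.Mld.IsMld e m ∧ (Computed e m ∨ NondegBoundary g B)} := by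
  intro u hu hmem
  refine geo_acc (n := n) (K := K) hΓ u hu fun k => ?_
  obtain ⟨h0, g, B, e, hB, hm, hc⟩ := hmem k
  exact ⟨h0, g, B, e, hB, hm, hc.elim id fun h => computed_of_nondeg h0 hm h⟩

end Pool.Agent.TH165.ACC
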