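import Mathlib
import Pool.Agent.TH165.ACC.NFin
import Pool.Agent.TH165.ACC.Bdd

/-!
# Divisors of bounded log discrepancy computing minimal log discrepancies on toric germs
-/

set_option autoImplicit false
set_option linter.unusedSectionVars false

namespace Pool.Agent.TH165.ACC

open Pool.Agent.H436R3.Fol Pool.Agent.H436R3.KT Pool.Agent.W497.Mld MvPolynomial

variable {n d : ℕ} {K : Type} [Field K] [Algebra ℂ K]
  [Algebra (MvPolynomial (Fin n) ℂ) K] [IsFractionRing (MvPolynomial (Fin n) ℂ) K]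
  [IsScalarTower ℂ (MvPolynomial (Fin n) ℂ) K]

theorem ordAlong_mono {S : Set (Fin d → ℕ)} (hS : S.Nonempty) {w w' : Fin d → ℝ}
    (hw : ∀ i, 0 ≤ w i) (h : ∀ i, w i ≤ w' i) : ordAlong S w ≤ ordAlong S w' :=
  le_ord hS fun m hm => (csInf_le (bdd hw) ⟨m, hm, rfl⟩).trans
    (Finset.sum_le_sum fun i _ => mul_le_mul_of_nonneg_left (h i) (Nat.cast_nonneg _))

/-- log canonical singularities are detected by integer weights -/
theorem isLc_of_int {r : ℕ} {S : Fin r → Set (Fin d → ℕ)} {c : Fin r → ℝ}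
    (hS : ∀ j, (S j).Nonempty) (hc : ∀ j, 0 < c j)
    (h : ∀ p : Fin d → ℕ, (∀ i, 0 < p i) → 0 ≤ logDisc S c (fun i => (p i : ℝ))) :
    IsLc S c := by
  intro w hw
  by_contra hneg
  push Not at hneg
  obtain ⟨N, hN⟩ := exists_nat_gt ((d : ℝ) / (-logDisc S c w))
  rw [div_lt_iff₀ (by linarith)] at hN
  have hN0 : 0 < N := by
    rcases Nat.eq_zero_or_pos N with h0 | h0
    · rw [h0, Nat.cast_zero, zero_mul] at hN
      exact absurd hN (not_lt.2 (Nat.cast_nonneg _))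
    · exact h0
  have hN0' : (0 : ℝ) < N := by exact_mod_cast hN0
  have h1 := h (fun i => ⌈(N : ℝ) * w i⌉₊) fun i => Nat.ceil_pos.2 (mul_pos hN0' (hw i))
  have h2 : logDisc S c (fun i => ((⌈(N : ℝ) * w i⌉₊ : ℕ) : ℝ)) ≤
      logDisc S c ((N : ℝ) • w) + d := by
    rw [logDisc, logDisc]
    have h3 : ∑ i, ((⌈(N : ℝ) * w i⌉₊ : ℕ) : ℝ) ≤ ∑ i, ((N : ℝ) • w) i + d := by
      calc ∑ i, ((⌈(N : ℝ) * w i⌉₊ : ℕ) : ℝ) ≤ ∑ i, (((N : ℝ) • w) i + 1) := by
            refine Finset.sum_le_sum fun i _ => ?_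
            exact (Nat.ceil_lt_add_one (mul_pos hN0' (hw i)).le).le
        _ = ∑ i, ((N : ℝ) • w) i + d := by
            rw [Finset.sum_add_distrib]
            simp
    have h4 : ∑ j, c j * ordAlong (S j) ((N : ℝ) • w) ≤
        ∑ j, c j * ordAlong (S j) (fun i => ((⌈(N : ℝ) * w i⌉₊ : ℕ) : ℝ)) := by
      refine Finset.sum_le_sum fun j _ => mul_le_mul_of_nonneg_left ?_ (hc j).le
      exact ordAlong_mono (hS j) (fun i => (mul_pos hN0' (hw i)).le) fun i => Nat.le_ceil _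
    linarith
  rw [logDisc_smul _ _ hN0'.le] at h2
  linarith

/-- the monomial valuation attached to a lattice point in the interior of a subcone -/
theorem exists_val {g : ToricGerm n K} {a : Fin d → Fin g.N} {w0 w : Fin d → ℝ}
    {u0 : Fin n → ℤ} (hn : 0 < n) (hc0 : Coord (fun i => g.E (a i)) w0 u0) (hint0 : g.Inter u0)
    (hw : ∀ i, 0 < w i) (hwG : (fun i => (w i : UnitAddCircle)) ∈ GE (fun i => g.E (a i))) :
    ∃ (k : ℤ) (v : DVal K), 0 < k ∧ IsMonomial n v ∧ IsOverGerm g.P v ∧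
      (∀ i, 0 < ((k : ℝ)⁻¹ • w) i) ∧ Coord (fun i => g.E (a i)) ((k : ℝ)⁻¹ • w) (tv v) := by
  obtain ⟨u, hu⟩ := coord_of_mem hwG
  have hint := inter_of_coord (g := g) hc0 hint0 hu hw
  obtain ⟨k, u', hk, hu', rfl⟩ := exists_prim (hint.ne_zero hn)
  obtain ⟨v, hv, htv⟩ := exists_mon (K := K) hu'
  have hk' : (0 : ℝ) < k := by exact_mod_cast hk
  have hw' : Coord (fun i => g.E (a i)) ((k : ℝ)⁻¹ • w) (tv v) := by
    intro j
    have h1 := hu j
    rw [Pi.smul_apply, smul_eq_mul] at h1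
    push_cast at h1
    rw [htv]
    simp only [Pi.smul_apply, smul_eq_mul, mul_assoc]
    rw [← Finset.mul_sum, h1]
    field_simp
  have hpos : ∀ i, 0 < ((k : ℝ)⁻¹ • w) i := fun i => mul_pos (inv_pos.2 hk') (hw i)
  have hint' : g.Inter (tv v) := inter_of_coord hc0 hint0 hw' hpos
  exact ⟨k, v, hk, hv, ToricGerm.overGerm hv hint', hpos, hw'⟩

theorem mult_zeroDiv (X : AffVar K) (v : DVal K) : (zeroDiv X).mult v = 0 := by
  classical
  rw [EffDiv.mult]
  exact Finset.sum_eq_zero fun i _ => i.elim0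

/-- log discrepancies of monomial valuations for the boundary `0` -/
theorem logDisc_zero {g : ToricGerm n K} (e : LocEq (zeroDiv g.X) g.P) (a : Fin d → Fin g.N)
    {v : DVal K} (hv : IsMonomial n v) {w : Fin d → ℝ} (hw : ∀ i, 0 ≤ w i)
    (hc : Coord (fun i => g.E (a i)) w (tv v)) : IsLogDisc e v (∑ i, w i) := by
  obtain ⟨r, S, c, hS, hkey⟩ := key_formula (Γ := ∅) e (fun v _ h => absurd (mult_zeroDiv _ v) h) a
  rw [logDisc_mon hv, ← hkey v hv w hw hc, logDisc]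
  have h1 : ∑ j, c j * ordAlong (S j) w = 0 :=
    Finset.sum_eq_zero fun j _ => absurd (hS j).2.2.1 (Set.notMem_empty _)
  rw [h1, sub_zero]

/-- **Boundedness** of divisors computing minimal log discrepancies on toric germs -/
theorem geo_bounded {Γ : Set ℝ} (hΓ : Pool.Agent.TH165.ACC.IsDCC Γ) :
    ∃ L : ℝ, ∀ (g : ToricGerm n K) (B : EffDiv g.X) (e : LocEq B g.P)
      (e0 : LocEq (zeroDiv g.X) g.P) (m : ℝ), CoeffIn B Γ → 0 ≤ m →
      Pool.Agent.W497.Mld.IsMld e m → (Computed e m ∨ NondegBoundary g B) →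
      ∃ v, IsOverGerm g.P v ∧ IsMonomial n v ∧ IsLogDisc e v m ∧ ∃ t ≤ L, IsLogDisc e0 v t := by
  choose L hL using fun d => bounded (n := d) hΓ
  refine ⟨∑ d ∈ Finset.range (n + 1), |L d|, fun g B e e0 m hB hm0 hm hc => ?_⟩
  have hcomp : Computed e m := hc.elim id fun h => computed_of_nondeg hm0 hm h
  obtain ⟨v0, hov0, hv0, hl⟩ := hcomp
  have hn := pos_of_mon hv0
  have hint0 := ToricGerm.inter_of_over (n := n) hov0
  obtain ⟨d, a, w0, hw0, hc0, D, hD⟩ := exists_simplex hint0.inCone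
  obtain ⟨r, S, c, hS, hkey⟩ := key_formula e hB a
  have hmin : ∀ (k : ℤ) (v : DVal K) (w : Fin d → ℝ), 0 < k → IsMonomial n v →
      IsOverGerm g.P v → (∀ i, 0 < ((k : ℝ)⁻¹ • w) i) →
      Coord (fun i => g.E (a i)) ((k : ℝ)⁻¹ • w) (tv v) →
      m ≤ logDisc S c ((k : ℝ)⁻¹ • w) ∧ logDisc S c w = k * logDisc S c ((k : ℝ)⁻¹ • w) := by
    intro k v w hk hv hov hw hcw
    have hk' : (0 : ℝ) < k := by exact_mod_cast hk
    refine ⟨hm.2 ⟨v, hov, (logDisc_mon hv).2 (hkey v hv _ (fun i => (hw i).le) hcw)⟩, ?_⟩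
    rw [← logDisc_smul _ _ hk'.le, smul_smul, mul_inv_cancel₀ hk'.ne', one_smul]
  have hlc : IsLc S c := by
    refine isLc_of_int (fun j => (hS j).1) (fun j => (hS j).2.2.2) fun p hp => ?_
    have hp' : ∀ i, (0 : ℝ) < (p i : ℝ) := fun i => by exact_mod_cast hp i
    have hmem : (fun i => ((p i : ℝ) : UnitAddCircle)) ∈ GE (fun i => g.E (a i)) := by
      refine ⟨fun i => (p i : ℝ), fun k => ∑ i, (p i : ℤ) * g.E (a i) k, rfl, fun k => ?_⟩
      push_cast
      rfl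
    obtain ⟨k, v, hk, hv, hov, hpos, hcv⟩ := exists_val hn hc0 hint0 hp' hmem
    obtain ⟨h1, h2⟩ := hmin k v _ hk hv hov hpos hcv
    have hk' : (0 : ℝ) < k := by exact_mod_cast hk
    rw [h2]
    exact mul_nonneg hk'.le (hm0.trans h1)
  obtain ⟨s, hs, hsum, hle⟩ := hL d r S c hS hlc w0 hw0
  have hw1 : ∀ i, 0 < w0 i - s i := fun i => sub_pos.2 (hs i)
  have hmem : (fun i => ((w0 i - s i : ℝ) : UnitAddCircle)) ∈ GE (fun i => g.E (a i)) := by
    refine ⟨fun i => w0 i - s i, fun k => tv v0 k - ∑ i, (s i : ℤ) * g.E (a i) k, rfl,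
      fun k => ?_⟩
    push_cast
    rw [← hc0 k, ← Finset.sum_sub_distrib]
    exact Finset.sum_congr rfl fun i _ => by ring
  obtain ⟨k, v, hk, hv, hov, hpos, hcv⟩ := exists_val hn hc0 hint0 hw1 hmem
  obtain ⟨h1, h2⟩ := hmin k v _ hk hv hov hpos hcv
  have hk' : (0 : ℝ) < k := by exact_mod_cast hk
  have hk1 : (1 : ℝ) ≤ k := by exact_mod_cast hk
  have h3 : logDisc S c w0 = m := by
    rw [hkey v0 hv0 w0 (fun i => (hw0 i).le) hc0]
    exact ((logDisc_mon hv0).1 hl).symm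
  have h4 : logDisc S c ((k : ℝ)⁻¹ • fun i => w0 i - s i) = m := by
    refine le_antisymm ?_ h1
    rw [h2, h3] at hle
    nlinarith
  have h5 : IsLogDisc e v m := by
    rw [logDisc_mon hv, ← hkey v hv _ (fun i => (hpos i).le) hcv, h4]
  refine ⟨v, hov, hv, h5, _, ?_, logDisc_zero e0 a hv (fun i => (hpos i).le) hcv⟩
  have h6 : ∑ i, ((k : ℝ)⁻¹ • fun i => w0 i - s i : Fin d → ℝ) i ≤ ∑ i, (w0 i - s i) := by
    refine Finset.sum_le_sum fun i _ => ?_
    rw [Pi.smul_apply, smul_eq_mul]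
    exact mul_le_of_le_one_left (hw1 i).le (inv_le_one_of_one_le₀ hk1)
  refine h6.trans (hsum.trans ((le_abs_self _).trans ?_))
  exact Finset.single_le_sum (f := fun d => |L d|) (fun _ _ => abs_nonneg _)
    (Finset.mem_range.2 (Nat.lt_succ_of_le hD.le))

end Pool.Agent.TH165.ACC
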