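import Mathlib
import Pool.Agent.TH165.ACC.NFin

/-!
# Every strictly convex rational cone of full dimension gives a toric germ
-/

set_option autoImplicit false
set_option linter.unusedSectionVars false

namespace Pool.Agent.TH165.ACC

open Pool.Agent.H436R3.Fol Pool.Agent.H436R3.KT Pool.Agent.W497.Mld MvPolynomial

variable {n N : ℕ}

/-- Gordan's lemma -/
theorem gordan {E : Fin N → Fin n → ℤ} (full : ∀ m : Fin n → ℤ, (∀ i, pr m (E i) = 0) → m = 0) :
    ∃ S : Set (Fin n → ℤ), S.Finite ∧ S ⊆ Cn E ∧ ∀ m ∈ Cn E, m ∈ AddSubmonoid.closure S := by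
  classical
  let φ : (Fin n → ℤ) → (Fin N → ℕ) := fun m i => (pr m (E i)).toNat
  have hφ : ∀ m ∈ Cn E, ∀ i, (φ m i : ℤ) = pr m (E i) := fun m hm i => Int.toNat_of_nonneg (hm i)
  have hinj : Set.InjOn φ (Cn E) := by
    intro m hm m' hm' h
    have h1 : m - m' = 0 := full _ fun i => by
      rw [pr_sub, ← hφ m hm, ← hφ m' hm', h, sub_self]
    exact sub_eq_zero.1 h1
  let T : Set (Fin N → ℕ) := {x | ∃ m ∈ Cn E, m ≠ 0 ∧ φ m = x}
  have hM : {x | Minimal (fun x => x ∈ T) x}.Finite := by
    apply WellQuasiOrderedLE.finite_of_isAntichain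
    intro x hx y hy hxy hle
    exact hxy (le_antisymm hle (hy.2 hx.1 hle))
  refine ⟨{m | m ∈ Cn E ∧ m ≠ 0 ∧ Minimal (fun x => x ∈ T) (φ m)}, ?_, fun m hm => hm.1, ?_⟩
  · apply Set.Finite.of_finite_image (f := φ)
    · refine hM.subset ?_
      rintro _ ⟨m, hm, rfl⟩
      exact hm.2.2
    · exact hinj.mono fun m hm => hm.1
  · have key : ∀ k : ℕ, ∀ m ∈ Cn E, ∑ i, φ m i ≤ k → m ∈ AddSubmonoid.closure
        {m | m ∈ Cn E ∧ m ≠ 0 ∧ Minimal (fun x => x ∈ T) (φ m)} := by
      intro k
      induction k with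
      | zero =>
        intro m hm hk
        have h1 : m = 0 := full m fun i => by
          rw [← hφ m hm]
          have h2 : ∑ i, φ m i = 0 := Nat.le_zero.1 hk
          have := (Finset.sum_eq_zero_iff.1 h2) i (Finset.mem_univ i)
          exact_mod_cast this
        rw [h1]
        exact zero_mem _
      | succ k ih =>
        intro m hm hk
        by_cases h0 : m = 0
        · rw [h0]; exact zero_mem _
        obtain ⟨y, hy1, hy2⟩ := exists_minimal_le_of_wellFoundedLT (fun x => x ∈ T) (φ m)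
          ⟨m, hm, h0, rfl⟩
        obtain ⟨m', hm', h0', rfl⟩ := hy2.1
        have h1 : m - m' ∈ Cn E := by
          intro i
          rw [pr_sub, ← hφ m hm, ← hφ m' hm']
          have h3 : φ m' i ≤ φ m i := hy1 i
          have h4 : ((φ m' i : ℕ) : ℤ) ≤ (φ m i : ℕ) := by exact_mod_cast h3
          exact sub_nonneg.2 h4
        have h2 : ∑ i, φ (m - m') i ≤ k := by
          have h3 : ∀ i, φ (m - m') i + φ m' i = φ m i := by
            intro i
            have e1 := hφ _ h1 i
            have e2 := hφ _ hm' i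
            have e3 := hφ _ hm i
            rw [pr_sub] at e1
            omega
          have h4 : ∑ i, φ (m - m') i + ∑ i, φ m' i = ∑ i, φ m i := by
            rw [← Finset.sum_add_distrib]
            exact Finset.sum_congr rfl fun i _ => h3 i
          have h5 : ∑ i, φ m' i ≠ 0 := by
            intro h5
            apply h0'
            refine full m' fun i => ?_
            rw [← hφ m' hm']
            exact_mod_cast (Finset.sum_eq_zero_iff.1 h5) i (Finset.mem_univ i)
          omega
        have h3 := add_mem (ih _ h1 h2)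
          (AddSubmonoid.subset_closure (show m' ∈ {m | m ∈ Cn E ∧ m ≠ 0 ∧
            Minimal (fun x => x ∈ T) (φ m)} from ⟨hm', h0', hy2⟩))
        rwa [sub_add_cancel] at h3
    exact fun m hm => key _ m hm le_rfl

variable {K : Type} [Field K] [Algebra ℂ K]
  [Algebra (MvPolynomial (Fin n) ℂ) K] [IsFractionRing (MvPolynomial (Fin n) ℂ) K]
  [IsScalarTower ℂ (MvPolynomial (Fin n) ℂ) K]

theorem LA_fg {E : Fin N → Fin n → ℤ}
    (full : ∀ m : Fin n → ℤ, (∀ i, pr m (E i) = 0) → m = 0) : (LA K (Cn E)).FG := by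
  obtain ⟨S, hS, hSE, hgen⟩ := gordan full
  rw [Subalgebra.fg_def]
  refine ⟨ym K '' S, hS.image _, le_antisymm (LA_mono hSE) ?_⟩
  rw [LA, Algebra.adjoin_le_iff]
  have key : ∀ m ∈ AddSubmonoid.closure S, ym K m ∈ Algebra.adjoin ℂ (ym K '' S) := by
    intro m hm
    induction hm using AddSubmonoid.closure_induction with
    | mem m hm => exact Algebra.subset_adjoin ⟨m, hm, rfl⟩
    | zero => rw [ym_zero]; exact one_mem _
    | add m m' _ _ h h' =>
      rw [ym_add]
      exact mul_mem h h'
  rintro _ ⟨m, hm, rfl⟩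
  exact key m (hgen m hm)

theorem LA_frac {E : Fin N → Fin n → ℤ} (pointed : ∃ Q : Fin n → ℤ, ∀ j, 0 < pr Q (E j)) (f : K) :
    ∃ a b : K, a ∈ LA K (Cn E) ∧ b ∈ LA K (Cn E) ∧ b ≠ 0 ∧ f * b = a := by
  classical
  obtain ⟨a, b, hb, rfl⟩ := exists_frac (MvPolynomial (Fin n) ℂ) f
  obtain ⟨Q0, hQ0⟩ := pointed
  obtain ⟨Q, -, hQ⟩ := clear (E := E) Q0 ((a.support ∪ b.support).image fun s => ex s)
  rw [← jo_apply, ← jo_apply]
  refine ⟨jo (Fin n) K a * ym K Q, jo (Fin n) K b * ym K Q, ?_, ?_, ?_, ?_⟩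
  · apply jo_mul_mem_LA
    intro s hs j
    exact hQ _ (Finset.mem_image.2 ⟨s, Finset.mem_union_left _ hs, rfl⟩) j (hQ0 j)
  · apply jo_mul_mem_LA
    intro s hs j
    exact hQ _ (Finset.mem_image.2 ⟨s, Finset.mem_union_right _ hs, rfl⟩) j (hQ0 j)
  · exact mul_ne_zero (jo_ne hb) (ym_ne _)
  · have h0 : jo (Fin n) K b ≠ 0 := jo_ne hb
    field_simp

theorem tor_indep : LinearIndependent K (tor K : Fin n → Derivation ℂ K K) :=
  (pd_indep (ι := Fin n) (K := K)).units_smul fun i => Units.mk0 (cv K i) (cv_ne i)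

theorem span_tor : Submodule.span K (Set.range (tor K : Fin n → Derivation ℂ K K)) = ⊤ := by
  rw [eq_top_iff, ← span_pd (ι := Fin n) (K := K), Submodule.span_le]
  rintro _ ⟨i, rfl⟩
  have h : pd K i = (cv K i)⁻¹ • tor K i := by
    rw [tor, smul_smul, inv_mul_cancel₀ (cv_ne i), one_smul]
  rw [SetLike.mem_coe, h]
  exact Submodule.smul_mem _ _ (Submodule.subset_span ⟨i, rfl⟩)

variable (n K) in
/-- all rational vector fields, with the toric basis -/
noncomputable def torFol : Foliation K n where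
  D := tor K
  indep := tor_indep
  closed := fun i j => by rw [span_tor]; trivial

/-- the affine toric variety -/
noncomputable def torVar (K : Type) [Field K] [Algebra ℂ K]
    [Algebra (MvPolynomial (Fin n) ℂ) K] [IsFractionRing (MvPolynomial (Fin n) ℂ) K]
    [IsScalarTower ℂ (MvPolynomial (Fin n) ℂ) K] (E : Fin N → Fin n → ℤ)
    (pointed : ∃ Q : Fin n → ℤ, ∀ j, 0 < pr Q (E j))
    (full : ∀ m : Fin n → ℤ, (∀ i, pr m (E i) = 0) → m = 0) : AffVar K where
  R := LA K (Cn E)
  fg := LA_fg full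
  frac := LA_frac pointed
  d := n
  T := torFol n K
  top := span_tor

/-- the residue map -/
theorem exists_pt {R : Subalgebra ℂ K} {v : DVal K}
    (h : ∀ f ∈ R, ∃ c : ℂ, v.Pos (f - algebraMap ℂ K c)) :
    ∃ P : R →ₐ[ℂ] ℂ, ∀ f : R, v.Pos ((f : K) - algebraMap ℂ K (P f)) := by
  have huniq : ∀ (f : K) (c c' : ℂ), v.Pos (f - algebraMap ℂ K c) →
      v.Pos (f - algebraMap ℂ K c') → c = c' := by
    intro f c c' h1 h2
    by_contra hne
    have h3 : v.Pos (algebraMap ℂ K (c' - c)) := by
      have h4 := v.pos_add h1 (v.pos_mul_left (v.reg_const (-1)) h2)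
      convert h4 using 1
      rw [map_sub, map_neg, map_one]
      ring
    have h4 : c' - c ≠ 0 := sub_ne_zero.2 (Ne.symm hne)
    rcases h3 with h3 | h3
    · rw [map_eq_zero] at h3
      exact h4 h3
    · rw [v.const _ h4] at h3
      exact lt_irrefl _ h3
  choose! c hc using h
  have h1 : ∀ z : ℂ, c (algebraMap ℂ K z) = z := fun z =>
    huniq _ _ _ (hc _ (Subalgebra.algebraMap_mem _ _)) (Or.inl (sub_self _))
  refine ⟨{ toFun := fun f => c f, map_one' := ?_, map_mul' := ?_, map_zero' := ?_,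
            map_add' := ?_, commutes' := ?_ }, fun f => hc _ f.2⟩
  · have := h1 1
    rwa [map_one] at this
  · intro f g
    refine huniq _ _ _ (hc _ (f * g).2) ?_
    have h2 := hc _ f.2
    have h3 := hc _ g.2
    have hf : v.Reg (f : K) := by
      have h4 : v.Reg ((f : K) - algebraMap ℂ K (c f)) := by
        rcases h2 with h2 | h2
        · exact Or.inl h2
        · exact Or.inr h2.le
      have h5 := v.reg_add h4 (v.reg_const (c f))
      rwa [sub_add_cancel] at h5
    have h6 := v.pos_add (v.pos_mul_left hf h3) (v.pos_mul_left (v.reg_const (c g)) h2)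
    convert h6 using 1
    rw [map_mul]
    change (f : K) * (g : K) - _ = _
    ring
  · have := h1 0
    rwa [map_zero] at this
  · intro f g
    refine huniq _ _ _ (hc _ (f + g).2) ?_
    have h6 := v.pos_add (hc _ f.2) (hc _ g.2)
    convert h6 using 1
    rw [map_add]
    change (f : K) + (g : K) - _ = _
    ring
  · intro z
    exact h1 z

/-- Every strictly convex rational cone of dimension `n ≥ 1` gives a toric germ. -/
theorem exists_germ (hn : 0 < n) {E : Fin N → Fin n → ℤ} (prim : ∀ i, Prim (E i))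
    (edge : ∀ i, ∃ Q : Fin n → ℤ, pr Q (E i) = 0 ∧ ∀ j, j ≠ i → 0 < pr Q (E j))
    (pointed : ∃ Q : Fin n → ℤ, ∀ j, 0 < pr Q (E j))
    (full : ∀ m : Fin n → ℤ, (∀ i, pr m (E i) = 0) → m = 0) :
    ∃ (g : ToricGerm n K) (h : N = g.N), ∀ i, g.E (Fin.cast h i) = E i := by
  classical
  have hsum : ∀ m : Fin n → ℤ, pr m (∑ i, E i) = ∑ i, pr m (E i) := by
    intro m
    simp only [pr, Finset.sum_apply, Finset.mul_sum]
    exact Finset.sum_comm
  have hpos : ∀ m ∈ Cn E, m ≠ 0 → 0 < pr m (∑ i, E i) := by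
    intro m hm hm0
    rw [hsum]
    refine lt_of_le_of_ne (Finset.sum_nonneg fun i _ => hm i) fun h => hm0 (full m fun i => ?_)
    exact (Finset.sum_eq_zero_iff_of_nonneg fun i _ => hm i).1 h.symm i (Finset.mem_univ i)
  have hne : ∑ i, E i ≠ 0 := by
    intro h0
    obtain ⟨Q, hQ⟩ := pointed
    have hQ0 : Q ≠ 0 := by
      rintro rfl
      have h1 : ∀ j : Fin N, False := fun j => by
        have := hQ j
        rw [pr_zero] at this
        exact lt_irrefl _ this
      have h2 := full (Pi.single ⟨0, hn⟩ 1) fun j => (h1 j).elim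
      have h3 := congrFun h2 ⟨0, hn⟩
      simp at h3
    have h1 := hpos Q (fun j => (hQ j).le) hQ0
    rw [h0, pr] at h1
    simp at h1
  obtain ⟨k, u, hk, hu, hku⟩ := exists_prim hne
  obtain ⟨v, hv, htv⟩ := exists_mon (K := K) hu
  have hpos' : ∀ m ∈ Cn E, m ≠ 0 → 0 < v.ord (ym K m) := by
    intro m hm hm0
    have h1 := hpos m hm hm0
    rw [hku] at h1
    have h2 : pr m (k • u) = k * pr m u := by
      simp only [pr, Pi.smul_apply, smul_eq_mul, Finset.mul_sum]
      exact Finset.sum_congr rfl fun i _ => by ring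
    rw [h2] at h1
    rw [ord_ym, htv]
    exact (pos_iff_pos_of_mul_pos h1).1 hk
  have hspan : Subalgebra.toSubmodule (LA K (Cn E)) = Submodule.span ℂ (ym K '' Cn E) := by
    rw [LA, Algebra.adjoin_eq_span]
    congr 1
    apply subset_antisymm _ Submonoid.subset_closure
    intro x hx
    induction hx using Submonoid.closure_induction with
    | mem x hx => exact hx
    | one => exact ⟨0, Cn_zero, ym_zero⟩
    | mul x y _ _ hx hy =>
      obtain ⟨m, hm, rfl⟩ := hx
      obtain ⟨m', hm', rfl⟩ := hy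
      exact ⟨m + m', Cn_add hm hm', ym_add _ _⟩
  have hres : ∀ f ∈ LA K (Cn E), ∃ c : ℂ, v.Pos (f - algebraMap ℂ K c) := by
    intro f hf
    have hf' : f ∈ Submodule.span ℂ (ym K '' Cn E) := by rw [← hspan]; exact hf
    induction hf' using Submodule.span_induction with
    | mem x hx =>
      obtain ⟨m, hm, rfl⟩ := hx
      by_cases h0 : m = 0
      · exact ⟨1, Or.inl (by rw [h0, ym_zero, map_one, sub_self])⟩
      · exact ⟨0, Or.inr (by rw [map_zero, sub_zero]; exact hpos' m hm h0)⟩
    | zero => exact ⟨0, Or.inl (by simp)⟩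
    | add x y hx hy ihx ihy =>
      obtain ⟨c, hc⟩ := ihx (by
        have : x ∈ Subalgebra.toSubmodule (LA K (Cn E)) := by rw [hspan]; exact hx
        exact this)
      obtain ⟨c', hc'⟩ := ihy (by
        have : y ∈ Subalgebra.toSubmodule (LA K (Cn E)) := by rw [hspan]; exact hy
        exact this)
      refine ⟨c + c', ?_⟩
      have := v.pos_add hc hc'
      convert this using 1
      rw [map_add]
      ring
    | smul a x hx ihx =>
      obtain ⟨c, hc⟩ := ihx (by
        have : x ∈ Subalgebra.toSubmodule (LA K (Cn E)) := by rw [hspan]; exact hx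
        exact this)
      refine ⟨a * c, ?_⟩
      have := v.pos_mul_left (v.reg_const a) hc
      convert this using 1
      rw [map_mul, Algebra.smul_def]
      ring
  obtain ⟨P, hP⟩ := exists_pt hres
  have hP' : ∀ f : LA K (Cn E), ∀ m ∈ Cn E, m ≠ 0 → (f : K) = ym K m → P f = 0 := by
    intro f m hm hm0 hf
    have h1 := hP f
    by_contra hne
    have h2 : v.Pos (algebraMap ℂ K (P f)) := by
      have h3 : v.Pos (f : K) := by
        rw [hf]
        exact Or.inr (hpos' m hm hm0)
      have h4 := v.pos_add h3 (v.pos_mul_left (v.reg_const (-1)) h1)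
      convert h4 using 1
      rw [map_neg, map_one]
      ring
    rcases h2 with h2 | h2
    · rw [map_eq_zero] at h2
      exact hne h2
    · rw [v.const _ hne] at h2
      exact lt_irrefl _ h2
  exact ⟨{ N := N, E := E, prim := prim, edge := edge, pointed := pointed, full := full,
            X := torVar K E pointed full, hR := rfl, e := Equiv.refl _, hT := fun _ => rfl,
            P := P, hP := hP' }, rfl, fun i => rfl⟩

end Pool.Agent.TH165.ACC
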