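import Mathlib

/-!
# Sequences of finite subgroups of the torus

Every sequence of finite subgroups of `(ℝ/ℤ)^n` has a subsequence such that every point of every
member is approximated arbitrarily well by points of almost all members.
-/

set_option autoImplicit false

namespace Pool.Agent.TH165.ACC

open Filter Topology UnitAddTorus Set

variable {n : ℕ}

theorem mF_add (m : Fin n → ℤ) (x y : UnitAddTorus (Fin n)) :
    mFourier m (x + y) = mFourier m x * mFourier m y := by
  simp only [mFourier, ContinuousMap.coe_mk, ← Finset.prod_mul_distrib]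
  refine Finset.prod_congr rfl fun i _ => ?_
  simp only [fourier_apply, Pi.add_apply, smul_add, AddCircle.toCircle_add, Circle.coe_mul]

/-- the characters which are trivial on `G` -/
def dualG (G : AddSubgroup (UnitAddTorus (Fin n))) : AddSubgroup (Fin n → ℤ) where
  carrier := {m | ∀ g ∈ G, mFourier m g = 1}
  add_mem' := by
    intro a b ha hb g hg
    rw [mFourier_add, ha g hg, hb g hg, one_mul]
  zero_mem' := by
    intro g _
    rw [mFourier_zero, ContinuousMap.one_apply]
  neg_mem' := by
    intro a ha g hg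
    rw [mFourier_neg, ha g hg, map_one]

theorem sum_char (G : AddSubgroup (UnitAddTorus (Fin n))) [Fintype G] (m : Fin n → ℤ) :
    (m ∈ dualG G → ∑ g : G, mFourier m (g : UnitAddTorus (Fin n)) = Fintype.card G) ∧
    (m ∉ dualG G → ∑ g : G, mFourier m (g : UnitAddTorus (Fin n)) = 0) := by
  constructor
  · intro h
    have h1 : ∀ g : G, mFourier m (g : UnitAddTorus (Fin n)) = 1 := fun g => h g g.2
    simp [h1]
  · intro h
    have h1 : ∃ g ∈ G, mFourier m g ≠ 1 := by
      by_contra hc
      push Not at hc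
      exact h hc
    obtain ⟨g0, hg0, h2⟩ := h1
    have h3 : ∑ g : G, mFourier m (g : UnitAddTorus (Fin n)) =
        mFourier m g0 * ∑ g : G, mFourier m (g : UnitAddTorus (Fin n)) := by
      rw [Finset.mul_sum]
      refine Fintype.sum_equiv (Equiv.addLeft (-(⟨g0, hg0⟩ : G))) _ _ fun g => ?_
      rw [← mF_add]
      congr 1
      simp
    have h4 : (1 - mFourier m g0) * ∑ g : G, mFourier m (g : UnitAddTorus (Fin n)) = 0 := by
      rw [sub_mul, one_mul, ← h3, sub_self]
    rcases mul_eq_zero.1 h4 with h5 | h5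
    · exact absurd (sub_eq_zero.1 h5).symm h2
    · exact h5

/-- a finite group has a positive proportion of its elements close to `0` -/
theorem pigeon (δ : ℝ) (hδ : 0 < δ) : ∃ C : ℕ, 0 < C ∧
    ∀ (G : AddSubgroup (UnitAddTorus (Fin n))) [Fintype G],
      Fintype.card G ≤ C * (Finset.univ.filter fun g : G =>
        dist (g : UnitAddTorus (Fin n)) 0 < δ).card := by
  classical
  obtain ⟨t, -, ht, hcov⟩ := (isCompact_univ (X := UnitAddTorus (Fin n))).finite_cover_balls
    (half_pos hδ)
  refine ⟨ht.toFinset.card + 1, Nat.succ_pos _, ?_⟩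
  intro G _
  have h1 : ∀ g : G, ∃ x ∈ ht.toFinset, dist (g : UnitAddTorus (Fin n)) x < δ / 2 := by
    intro g
    have := hcov (mem_univ (g : UnitAddTorus (Fin n)))
    simp only [mem_iUnion, exists_prop] at this
    obtain ⟨x, hx, hx'⟩ := this
    exact ⟨x, ht.mem_toFinset.2 hx, hx'⟩
  choose p hp hp' using h1
  have h2 : Fintype.card G = ∑ x ∈ ht.toFinset, (Finset.univ.filter fun g : G => p g = x).card := by
    rw [← Finset.card_univ]
    exact Finset.card_eq_sum_card_fiberwise (fun g _ => hp g)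
  rw [h2]
  have h3 : ∀ x ∈ ht.toFinset, (Finset.univ.filter fun g : G => p g = x).card ≤
      (Finset.univ.filter fun g : G => dist (g : UnitAddTorus (Fin n)) 0 < δ).card := by
    intro x _
    by_cases hne : (Finset.univ.filter fun g : G => p g = x).Nonempty
    · obtain ⟨g0, hg0⟩ := hne
      rw [Finset.mem_filter] at hg0
      refine Finset.card_le_card_of_injOn (fun g => g - g0) ?_ ?_
      · intro g hg
        simp only [Finset.coe_filter, Finset.mem_univ, true_and, mem_ofPred_eq] at hg ⊢
        have e1 := hp' g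
        have e2 := hp' g0
        rw [hg] at e1
        rw [hg0.2] at e2
        have e3 : dist ((g - g0 : G) : UnitAddTorus (Fin n)) 0 =
            dist (g : UnitAddTorus (Fin n)) (g0 : UnitAddTorus (Fin n)) := by
          rw [dist_zero_right, dist_eq_norm]
          rfl
        rw [e3]
        calc dist (g : UnitAddTorus (Fin n)) (g0 : UnitAddTorus (Fin n))
            ≤ dist (g : UnitAddTorus (Fin n)) x + dist x (g0 : UnitAddTorus (Fin n)) :=
              dist_triangle _ _ _
          _ < δ / 2 + δ / 2 := by rw [dist_comm x]; exact add_lt_add e1 e2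
          _ = δ := add_halves δ
      · intro a _ b _ hab
        exact sub_left_injective hab
    · rw [Finset.not_nonempty_iff_eq_empty] at hne
      rw [hne, Finset.card_empty]
      exact Nat.zero_le _
  calc ∑ x ∈ ht.toFinset, (Finset.univ.filter fun g : G => p g = x).card
      ≤ ∑ x ∈ ht.toFinset, (Finset.univ.filter fun g : G =>
        dist (g : UnitAddTorus (Fin n)) 0 < δ).card := Finset.sum_le_sum h3
    _ = ht.toFinset.card * _ := by rw [Finset.sum_const, smul_eq_mul]
    _ ≤ (ht.toFinset.card + 1) * _ := Nat.mul_le_mul_right _ (Nat.le_succ _)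

/-- If the groups of characters trivial on `G l` converge to `L` and all members of `L` are trivial
at `g`, then `g` is a limit of points of the `G l`. -/
theorem approx (G : ℕ → AddSubgroup (UnitAddTorus (Fin n))) (hG : ∀ l, Finite (G l))
    (L : Set (Fin n → ℤ)) (hL : ∀ m, ∀ᶠ l in atTop, (m ∈ dualG (G l) ↔ m ∈ L))
    (g : UnitAddTorus (Fin n)) (hg : ∀ m ∈ L, mFourier m g = 1) (ε : ℝ) (hε : 0 < ε) :
    ∀ᶠ l in atTop, ∃ g' ∈ G l, dist g' g < ε := by
  classical
  obtain ⟨C, hC, hpig⟩ := pigeon (n := n) (ε / 2) (half_pos hε)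
  have hCr : (0 : ℝ) < C := by exact_mod_cast hC
  set κ : ℝ := ε / 2 / C with hκ
  have hκ0 : 0 < κ := div_pos (half_pos hε) hCr
  let φ : C(UnitAddTorus (Fin n), ℂ) :=
    ⟨fun x => ((max 0 (ε - dist x g) : ℝ) : ℂ), by fun_prop⟩
  have hdense : φ ∈ (Submodule.span ℂ (range <| mFourier (d := Fin n))).topologicalClosure := by
    rw [span_mFourier_closure_eq_top]
    trivial
  have h1 : ∃ f ∈ Submodule.span ℂ (range <| mFourier (d := Fin n)), ‖f - φ‖ < κ / 2 := by
    have h2 : φ ∈ closure ((Submodule.span ℂ (range <| mFourier (d := Fin n)) :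
        Submodule ℂ C(UnitAddTorus (Fin n), ℂ)) : Set C(UnitAddTorus (Fin n), ℂ)) := hdense
    rw [Metric.mem_closure_iff] at h2
    obtain ⟨f, hf, hf'⟩ := h2 (κ / 2) (half_pos hκ0)
    exact ⟨f, hf, by rwa [dist_comm, dist_eq_norm] at hf'⟩
  obtain ⟨f, hf, hfφ⟩ := h1
  obtain ⟨c, hc⟩ := (Finsupp.mem_span_range_iff_exists_finsupp).1 hf
  have hev : ∀ᶠ l in atTop, ∀ m ∈ c.support, (m ∈ dualG (G l) ↔ m ∈ L) := by
    rw [Filter.eventually_all_finset]
    intro m _
    exact hL m
  filter_upwards [hev] with l hl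
  by_contra hcon
  push Not at hcon
  have : Finite (G l) := hG l
  let _ : Fintype (G l) := Fintype.ofFinite _
  have hfx : ∀ x, f x = ∑ m ∈ c.support, c m * mFourier m x := by
    intro x
    rw [← hc, Finsupp.sum, ContinuousMap.sum_apply]
    refine Finset.sum_congr rfl fun m _ => ?_
    rw [ContinuousMap.smul_apply, smul_eq_mul]
  have hsum : ∑ x : G l, f (x + g) = ∑ x : G l, f x := by
    simp only [hfx]
    rw [Finset.sum_comm]
    conv_rhs => rw [Finset.sum_comm]
    refine Finset.sum_congr rfl fun m hm => ?_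
    rw [← Finset.mul_sum, ← Finset.mul_sum]
    congr 1
    simp only [mF_add]
    rw [← Finset.sum_mul]
    by_cases hmL : m ∈ L
    · rw [hg m hmL, mul_one]
    · have := (sum_char (G l) m).2 (fun h => hmL ((hl m hm).1 h))
      rw [this, zero_mul]
  have hcardpos : (0 : ℝ) < Fintype.card (G l) := by
    exact_mod_cast Fintype.card_pos_iff.2 ⟨0⟩
  -- lower bound for the sum of `φ (x + g)`
  have hlow : κ * Fintype.card (G l) ≤ ∑ x : G l, max 0 (ε - dist ((x : UnitAddTorus (Fin n)) + g) g) := by
    have h2 : ∀ x : G l, (if dist (x : UnitAddTorus (Fin n)) 0 < ε / 2 then ε / 2 else 0) ≤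
        max 0 (ε - dist ((x : UnitAddTorus (Fin n)) + g) g) := by
      intro x
      have e1 : dist ((x : UnitAddTorus (Fin n)) + g) g = dist (x : UnitAddTorus (Fin n)) 0 := by
        rw [dist_eq_norm, add_sub_cancel_right, dist_zero_right]
      rw [e1]
      split_ifs with h3
      · exact le_max_of_le_right (by linarith)
      · exact le_max_left _ _
    calc κ * Fintype.card (G l) = (ε / 2) * (Fintype.card (G l) / C) := by
          rw [hκ]; field_simp
      _ ≤ (ε / 2) * ((Finset.univ.filter fun x : G l =>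
          dist (x : UnitAddTorus (Fin n)) 0 < ε / 2).card : ℝ) := by
          refine mul_le_mul_of_nonneg_left ?_ (half_pos hε).le
          rw [div_le_iff₀ hCr]
          have := hpig (G l)
          have h4 : (Fintype.card (G l) : ℝ) ≤ C * ((Finset.univ.filter fun x : G l =>
            dist (x : UnitAddTorus (Fin n)) 0 < ε / 2).card : ℝ) := by exact_mod_cast this
          linarith
      _ = ∑ x : G l, (if dist (x : UnitAddTorus (Fin n)) 0 < ε / 2 then ε / 2 else 0) := by
          rw [← Finset.sum_filter, Finset.sum_const, nsmul_eq_mul, mul_comm]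
      _ ≤ _ := Finset.sum_le_sum fun x _ => h2 x
  have hnorm : ∀ x, ‖f x - φ x‖ ≤ ‖f - φ‖ := fun x => by
    have := (f - φ).norm_coe_le_norm x
    simpa using this
  have hφ0 : ∀ x : G l, φ x = 0 := by
    intro x
    have := hcon x x.2
    change ((max 0 (ε - dist (x : UnitAddTorus (Fin n)) g) : ℝ) : ℂ) = 0
    rw [max_eq_left (by linarith)]
    simp
  have hA : ‖∑ x : G l, f x‖ ≤ ‖f - φ‖ * Fintype.card (G l) := by
    calc ‖∑ x : G l, f x‖ ≤ ∑ x : G l, ‖f x‖ := norm_sum_le _ _
      _ ≤ ∑ _x : G l, ‖f - φ‖ := Finset.sum_le_sum fun x _ => by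
          have := hnorm x
          rwa [hφ0 x, sub_zero] at this
      _ = ‖f - φ‖ * Fintype.card (G l) := by
          rw [Finset.sum_const, Finset.card_univ, nsmul_eq_mul, mul_comm]
  have hB : ‖∑ x : G l, φ (x + g)‖ ≤ ‖∑ x : G l, f (x + g)‖ + ‖f - φ‖ * Fintype.card (G l) := by
    have e1 : ∑ x : G l, φ (x + g) = ∑ x : G l, f (x + g) - ∑ x : G l, (f (x + g) - φ (x + g)) := by
      rw [← Finset.sum_sub_distrib]
      refine Finset.sum_congr rfl fun x _ => ?_
      ring
    rw [e1]
    refine (norm_sub_le _ _).trans (add_le_add le_rfl ?_)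
    calc ‖∑ x : G l, (f (x + g) - φ (x + g))‖ ≤ ∑ x : G l, ‖f (x + g) - φ (x + g)‖ :=
          norm_sum_le _ _
      _ ≤ ∑ _x : G l, ‖f - φ‖ := Finset.sum_le_sum fun x _ => hnorm _
      _ = ‖f - φ‖ * Fintype.card (G l) := by
          rw [Finset.sum_const, Finset.card_univ, nsmul_eq_mul, mul_comm]
  have hD : κ * Fintype.card (G l) ≤ ‖∑ x : G l, φ (x + g)‖ := by
    have e1 : ∑ x : G l, φ (x + g) =
        ((∑ x : G l, max 0 (ε - dist ((x : UnitAddTorus (Fin n)) + g) g) : ℝ) : ℂ) := by
      push_cast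
      rfl
    rw [e1, Complex.norm_real, Real.norm_eq_abs]
    exact hlow.trans (le_abs_self _)
  rw [hsum] at hB
  have hfin : κ * Fintype.card (G l) < κ * Fintype.card (G l) := by
    calc κ * Fintype.card (G l) ≤ ‖f - φ‖ * Fintype.card (G l) + ‖f - φ‖ * Fintype.card (G l) :=
          hD.trans (hB.trans (add_le_add hA le_rfl))
      _ < κ / 2 * Fintype.card (G l) + κ / 2 * Fintype.card (G l) := by
          have := mul_lt_mul_of_pos_right hfφ hcardpos
          linarith
      _ = κ * Fintype.card (G l) := by ring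
  exact lt_irrefl _ hfin

/-- every sequence of predicates on a countable set has a convergent subsequence -/
theorem subseq_pred {α : Type} [Countable α] (P : ℕ → α → Prop) :
    ∃ θ : ℕ → ℕ, StrictMono θ ∧ ∃ Q : α → Prop, ∀ a, ∀ᶠ l in atTop, (P (θ l) a ↔ Q a) := by
  classical
  let F : ℕ → (α → Bool) := fun l a => decide (P l a)
  obtain ⟨b, -, θ, hθ, hlim⟩ := (isCompact_univ (X := α → Bool)).tendsto_subseq
    (fun l => mem_univ (F l))
  refine ⟨θ, hθ, fun a => b a = true, fun a => ?_⟩
  rw [tendsto_pi_nhds] at hlim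
  have h1 := (hlim a).eventually (IsOpen.mem_nhds (isOpen_discrete {b a}) (mem_singleton _))
  filter_upwards [h1] with l hl
  have h2 : decide (P (θ l) a) = b a := hl
  rw [← h2, decide_eq_true_iff]

/-- **Subsequences of finite groups.** -/
theorem subseq_groups (G : ℕ → AddSubgroup (UnitAddTorus (Fin n))) (hG : ∀ l, Finite (G l)) :
    ∃ θ : ℕ → ℕ, StrictMono θ ∧ ∀ k, ∀ g ∈ G (θ k), ∀ ε : ℝ, 0 < ε →
      ∀ᶠ l in atTop, ∃ g' ∈ G (θ l), dist g' g < ε := by
  obtain ⟨θ, hθ, Q, hQ⟩ := subseq_pred (fun l m => m ∈ dualG (G l))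
  -- the limit is a subgroup
  let L : AddSubgroup (Fin n → ℤ) :=
    { carrier := {m | Q m}
      add_mem' := by
        intro a b ha hb
        obtain ⟨l, h1, h2, h3⟩ := ((hQ a).and ((hQ b).and (hQ (a + b)))).exists
        exact h3.1 (add_mem (h1.2 ha) (h2.2 hb))
      zero_mem' := by
        obtain ⟨l, h1⟩ := (hQ 0).exists
        exact h1.1 (zero_mem _)
      neg_mem' := by
        intro a ha
        obtain ⟨l, h1, h2⟩ := ((hQ a).and (hQ (-a))).exists
        exact h2.1 (neg_mem (h1.2 ha)) }
  have hfg : ∃ s : Finset (Fin n → ℤ), AddSubgroup.closure (s : Set (Fin n → ℤ)) = L := by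
    have h1 : (AddSubgroup.toIntSubmodule L).FG := IsNoetherian.noetherian _
    obtain ⟨s, hs⟩ := h1
    refine ⟨s, ?_⟩
    have h2 := congrArg Submodule.toAddSubgroup hs
    rw [Submodule.span_int_eq_addSubgroupClosure] at h2
    simpa using h2
  obtain ⟨s, hs⟩ := hfg
  have h0 : ∀ᶠ l in atTop, ∀ m ∈ s, m ∈ dualG (G (θ l)) := by
    rw [Filter.eventually_all_finset]
    intro m hm
    have hmL : m ∈ L := hs ▸ AddSubgroup.subset_closure hm
    filter_upwards [hQ m] with l hl
    exact hl.2 hmL
  obtain ⟨l0, hl0⟩ := eventually_atTop.1 h0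
  have hle : ∀ l ≥ l0, L ≤ dualG (G (θ l)) := by
    intro l hl
    rw [← hs, AddSubgroup.closure_le]
    intro m hm
    exact hl0 l hl m hm
  refine ⟨fun k => θ (k + l0), hθ.comp (fun a b h => Nat.add_lt_add_right h l0), ?_⟩
  intro k g hg ε hε
  have h2 := approx (fun l => G (θ (l + l0))) (fun l => hG _) (L : Set (Fin n → ℤ)) ?_ g ?_ ε hε
  · exact h2
  · intro m
    have := (tendsto_add_atTop_nat l0).eventually (hQ m)
    exact this
  · intro m hm
    exact hle (k + l0) (Nat.le_add_left _ _) hm g hg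

end Pool.Agent.TH165.ACC
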